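import Pool.Agent.LibHD77.T0

/-!
[HD77 T1] the class of a diagonal. Proofs. `cl_eq`: `V e = F a` for a coordinate `a` which belongs to `e`, so
that `V` is determined by `δ`; `gen_unique` and `cyc_mpt` (`pnt` is compatible with the isomorphism).
`isPt_pnt`: if `IsPt δ u` then with `x, y` from `free`: `V e` = `F a` for some `a` of the block of `e`; a block is
not empty and has only one curve: otherwise `u` (all coordinates) would be algebraic over the field
generated by at most `D - 1` of the `x_e`, but `trdeg M = D` (if `y^2 = F_a(x) = F_b(x)`, `F_a ≠ F_b`, then `x` is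
algebraic over `k`); `Gen V x y`: `fld u = ⊤`; `u = pnt δ x y` because the equations hold.
`gen_isPt`: the converse.
-/

open scoped Classical
open Polynomial

namespace Pool.Agent.LibHD77

open Pool.Agent.LibBH2
open Pool.Agent.LibCHd (VR RF Red FunF)
open Pool.Agent.LibHyp34 (Hyp Pt Pic jP Sp KC DCf)
open Pool.Agent.LibHD77.Comb (Pat sub Cmp t1 t2 t3 t4)

variable {k : Type} [Field k] {n : ℕ} {F : Fin n → k[X]} {D : ℕ}

theorem T1_eps {M : Type} [Field M] (ε : ℤˣ) : ((ε : ℤ) : M) * ((ε : ℤ) : M) = 1 := by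
  rcases Int.units_eq_one_or ε with rfl | rfl <;> simp

theorem T1_mk {M : Type} [Field M] [Algebra k M] {f : k[X]} {x y : M} (h : y ^ 2 = aeval x f)
    (ε : ℤˣ) : ∃ h', (mk' f x ((ε : ℤ) * y) : MPt f M) = .aff x ((ε : ℤ) * y) h' := by
  have h' : (((ε : ℤ) : M) * y) ^ 2 = (f.map (algebraMap k M)).eval x := by
    rw [mul_pow, pow_two ((ε : ℤ) : M), T1_eps, one_mul, eval_map_algebraMap]
    exact h
  exact ⟨h', dif_pos h'⟩

theorem T1_mpt {M M' : Type} [Field M] [Algebra k M] [Field M'] [Algebra k M'] (σ : M →ₐ[k] M')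
    (f : k[X]) (x y : M) : mpt σ (mk' f x y : MPt f M) = mk' f (σ x) (σ y) := by
  have hiff : σ y ^ 2 = (f.map (algebraMap k M')).eval (σ x) ↔
      y ^ 2 = (f.map (algebraMap k M)).eval x := by
    rw [eval_map_algebraMap, eval_map_algebraMap, aeval_algHom_apply, ← map_pow]
    exact σ.toRingHom.injective.eq_iff
  unfold mk'
  by_cases h : y ^ 2 = (f.map (algebraMap k M)).eval x
  · rw [dif_pos h, dif_pos (hiff.2 h)]
    rfl
  · rw [dif_neg h, dif_neg (fun h' => h (hiff.1 h'))]
    rfl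

theorem T1_pnt {M M' : Type} [Field M] [Algebra k M] [Field M'] [Algebra k M'] (σ : M →ₐ[k] M')
    (δ : Dia F D) (x y : Fin D → M) (a : Fin n) :
    mpt σ (pnt δ x y a) = pnt δ (fun e => σ (x e)) (fun e => σ (y e)) a := by
  unfold pnt
  rcases h : δ a with s | q
  · exact mpt_cst σ s
  · show mpt σ (mk' (F a) (x q.1) ((q.2 : ℤ) * y q.1) : MPt (F a) M) = _
    rw [T1_mpt, map_mul, map_intCast]

theorem T1_V {δ : Dia F D} {V V' : Fin D → k[X]} (h : Cmp F δ V) (h' : Cmp F δ V') : V = V' := by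
  funext e
  obtain ⟨a, ε, ha⟩ := h.1 e
  rw [h.2 a e ε ha, h'.2 a e ε ha]

theorem T1_hV (hF : ∀ a, Hyp (F a)) {δ : Dia F D} {V : Fin D → k[X]} (h : Cmp F δ V) (e : Fin D) :
    Hyp (V e) := by
  obtain ⟨a, ε, ha⟩ := h.1 e
  rw [h.2 a e ε ha]
  exact hF a

theorem cl_eq (hF : ∀ a, Hyp (F a)) {M : Type} [Field M] [Algebra k M] (δ : Dia F D)
    (V : Fin D → k[X]) (x y : Fin D → M) (h : Cmp F δ V) (hg : Gen V x y) :
    cl δ = cls D (pnt δ x y) := by
  have hex : ∃ c : CH F D, ∃ (M : Type) (_ : Field M) (_ : Algebra k M) (V : Fin D → k[X])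
    (x y : Fin D → M), Cmp F δ V ∧ Gen V x y ∧ c = cls D (pnt δ x y) :=
    ⟨_, M, _, _, V, x, y, h, hg, rfl⟩
  have hcl : cl δ = hex.choose := dif_pos hex
  obtain ⟨M', iF, iA, V', x', y', h', hg', hc⟩ := hex.choose_spec
  rw [hcl, hc]
  have hVV := T1_V h' h
  subst hVV
  obtain ⟨ε, hx, hy⟩ := gen_unique (T1_hV hF h) hg' hg
  have h1 : pnt δ x y = fun a => mpt (ε : M' →ₐ[k] M) (pnt δ x' y' a) := by
    funext a
    rw [T1_pnt]
    have hx' : (fun e => (ε : M' →ₐ[k] M) (x' e)) = x := funext hx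
    have hy' : (fun e => (ε : M' →ₐ[k] M) (y' e)) = y := funext hy
    rw [hx', hy']
  unfold cls
  rw [h1, cyc_mpt]

open scoped IntermediateField.algebraAdjoinAdjoin in
private theorem T1_trdeg_adjoin {E K : Type} [Field E] [Field K] [Algebra E K] (s : Set K) :
    Algebra.trdeg E (IntermediateField.adjoin E s) ≤ Cardinal.mk s := by
  have h1 : Algebra.trdeg E (MvPolynomial.aeval (Subtype.val : s → K) :
      MvPolynomial s E →ₐ[E] K).range ≤ Cardinal.mk s := by
    refine (trdeg_le_of_surjective (MvPolynomial.aeval (Subtype.val : s → K) :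
      MvPolynomial s E →ₐ[E] K).rangeRestrict (AlgHom.rangeRestrict_surjective _)).trans ?_
    rw [MvPolynomial.trdeg_of_isDomain, Cardinal.lift_id]
  rw [← Algebra.adjoin_eq_range] at h1
  have h3 := trdeg_add_eq E (Algebra.adjoin E s) (A := IntermediateField.adjoin E s)
  rw [trdeg_eq_zero (R := Algebra.adjoin E s), add_zero] at h3
  rw [← h3]
  exact h1

private theorem T1_trdeg_le {E K : Type} [Field E] [Field K] [Algebra E K] (s : Set K)
    (h : ∀ z : K, IsAlgebraic (IntermediateField.adjoin E s) z) :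
    Algebra.trdeg E K ≤ Cardinal.mk s := by
  have _ : Algebra.IsAlgebraic (IntermediateField.adjoin E s) K := ⟨h⟩
  have h3 := trdeg_add_eq E (IntermediateField.adjoin E s) (A := K)
  rw [trdeg_eq_zero (R := IntermediateField.adjoin E s), add_zero] at h3
  rw [← h3]
  exact T1_trdeg_adjoin s

/-- the coordinates of a point with free points `x, y` -/
theorem T1_count {M : Type} [Field M] [Algebra k M] {δ : Dia F D} {u : Pnt F M} (h : IsPt δ u)
    {x y : Fin D → M} (hxy : ∀ a e (ε : ℤˣ), δ a = .inr (e, ε) →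
      ∃ h, u a = .aff (x e) ((ε : ℤ) * y e) h) (e₀ : Fin D)
    (hx : ∀ a e (ε : ℤˣ), δ a = .inr (e, ε) → e ≠ e₀ ∨ IsAlgebraic k (x e)) : False := by
  set s : Set M := x '' (((Finset.univ.erase e₀ : Finset (Fin D)) : Set (Fin D))) with hs
  set A := IntermediateField.adjoin k s with hA
  set C := (algebraicClosure A M).restrictScalars k with hC
  have hmem : ∀ z : M, z ∈ C ↔ IsAlgebraic A z := fun z => mem_algebraicClosure_iff
  have hxC : ∀ a e (ε : ℤˣ), δ a = .inr (e, ε) → x e ∈ C := by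
    intro a e ε ha
    rcases hx a e ε ha with h1 | h1
    · refine (hmem _).2 (isAlgebraic_algebraMap (R := A) (⟨x e, ?_⟩ : A))
      refine IntermediateField.subset_adjoin _ _ ⟨e, ?_, rfl⟩
      simp [h1]
    · exact (hmem _).2 (h1.extendScalars (algebraMap k A).injective)
  have hco : ∀ q, co u q ∈ C := by
    rintro ⟨a, c⟩
    rcases ha : δ a with p | ⟨e, ε⟩
    · unfold co
      rw [h.fix a p ha]
      match p with
      | .inf => exact zero_mem C
      | .aff x₁ y₁ h₁ =>
        fin_cases c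
        · exact C.algebraMap_mem x₁
        · exact C.algebraMap_mem y₁
    · obtain ⟨h1, hu⟩ := hxy a e ε ha
      unfold co
      show xy (u a) c ∈ C
      rw [hu]
      fin_cases c
      · exact hxC a e ε ha
      · show ((ε : ℤ) : M) * y e ∈ C
        have h2 : (((ε : ℤ) : M) * y e) ^ 2 ∈ C := by
          rw [h1, eval_map_algebraMap]
          have h3 := (F a).aeval_algHom_apply C.val (⟨x e, hxC a e ε ha⟩ : C)
          have h4 : C.val (⟨x e, hxC a e ε ha⟩ : C) = x e := rfl
          rw [h4] at h3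
          rw [h3]
          exact (aeval (⟨x e, hxC a e ε ha⟩ : C) (F a)).2
        exact (hmem _).2 (IsAlgebraic.of_pow two_pos ((hmem _).1 h2))
  have htop : ∀ z : M, IsAlgebraic A z := by
    intro z
    have h1 : fld u ≤ C := by
      unfold fld
      rw [IntermediateField.adjoin_le_iff]
      rintro _ ⟨q, rfl⟩
      exact hco q
    rw [h.gen] at h1
    exact (hmem z).1 (h1 (IntermediateField.mem_top))
  have h1 := T1_trdeg_le s htop
  rw [h.dim.trdeg] at h1
  have h2 : Cardinal.mk s ≤ ((Finset.univ.erase e₀ : Finset (Fin D)).card : ℕ) :=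
    Cardinal.mk_image_le.trans
      (Cardinal.mk_coe_finset (s := (Finset.univ.erase e₀ : Finset (Fin D)))).le
  have h3 := h1.trans h2
  rw [Nat.cast_le, Finset.card_erase_of_mem (Finset.mem_univ _), Finset.card_univ,
    Fintype.card_fin] at h3
  have h4 : 0 < D := e₀.pos
  omega

theorem isPt_pnt (hF : ∀ a, Hyp (F a)) {M : Type} [Field M] [Algebra k M] (δ : Dia F D)
    (u : Pnt F M) (h : IsPt δ u) :
    ∃ (V : Fin D → k[X]) (x y : Fin D → M), Cmp F δ V ∧ Gen V x y ∧ u = pnt δ x y := by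
  obtain ⟨x, y, hxy⟩ := h.free
  have huse : ∀ e, ∃ a ε, δ a = .inr (e, ε) := by
    intro e₀
    by_contra hcon
    push Not at hcon
    refine T1_count h hxy e₀ fun a e ε ha => Or.inl ?_
    rintro rfl
    exact hcon a ε ha
  choose a₀ ε₀ h0 using huse
  have heq : ∀ a e (ε : ℤˣ), δ a = .inr (e, ε) → y e ^ 2 = aeval (x e) (F a) := by
    intro a e ε ha
    obtain ⟨h1, -⟩ := hxy a e ε ha
    rw [mul_pow, pow_two ((ε : ℤ) : M), T1_eps, one_mul, eval_map_algebraMap] at h1
    exact h1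
  have hone : ∀ a e (ε : ℤˣ), δ a = .inr (e, ε) → F (a₀ e) = F a := by
    intro a e ε ha
    by_contra hne
    refine T1_count h hxy e fun a' e' ε' ha' => ?_
    by_cases hee : e' = e
    · right
      rw [hee]
      refine ⟨F (a₀ e) - F a, sub_ne_zero.2 hne, ?_⟩
      rw [map_sub, ← heq (a₀ e) e (ε₀ e) (h0 e), ← heq a e ε ha, sub_self]
    · exact Or.inl hee
  refine ⟨fun e => F (a₀ e), x, y, ⟨fun e => ⟨a₀ e, ε₀ e, h0 e⟩, hone⟩, ⟨h.dim, fun e => ?_, ?_⟩, ?_⟩
  · exact heq (a₀ e) e (ε₀ e) (h0 e)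
  · rw [eq_top_iff, ← h.gen]
    unfold fld
    rw [IntermediateField.adjoin_le_iff]
    rintro _ ⟨⟨a, c⟩, rfl⟩
    set C := IntermediateField.adjoin k (Set.range x ∪ Set.range y) with hC
    have hxC : ∀ e, x e ∈ C := fun e =>
      IntermediateField.subset_adjoin _ _ (Or.inl ⟨e, rfl⟩)
    have hyC : ∀ e, y e ∈ C := fun e =>
      IntermediateField.subset_adjoin _ _ (Or.inr ⟨e, rfl⟩)
    show co u (a, c) ∈ C
    rcases ha : δ a with p | ⟨e, ε⟩
    · unfold co
      rw [h.fix a p ha]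
      match p with
      | .inf => exact zero_mem C
      | .aff x₁ y₁ h₁ =>
        fin_cases c
        · exact C.algebraMap_mem x₁
        · exact C.algebraMap_mem y₁
    · obtain ⟨h1, hu⟩ := hxy a e ε ha
      unfold co
      show xy (u a) c ∈ C
      rw [hu]
      fin_cases c
      · exact hxC e
      · exact mul_mem (intCast_mem C _) (hyC e)
  · funext a
    unfold pnt
    rcases ha : δ a with p | ⟨e, ε⟩
    · exact h.fix a p ha
    · obtain ⟨h1, hu⟩ := hxy a e ε ha
      rw [hu]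
      exact (dif_pos h1).symm

theorem cl_isPt (hF : ∀ a, Hyp (F a)) {M : Type} [Field M] [Algebra k M] (δ : Dia F D)
    (u : Pnt F M) (h : IsPt δ u) : cl δ = cls D u := by
  obtain ⟨V, x, y, hC, hG, rfl⟩ := isPt_pnt hF δ u h
  exact cl_eq hF δ V x y hC hG

/-- every pattern in which all free points occur, each on one curve, is realised -/
theorem gen_isPt {M : Type} [Field M] [Algebra k M] (δ : Dia F D) (V : Fin D → k[X])
    (x y : Fin D → M) (h : Cmp F δ V) (hg : Gen V x y) : IsPt δ (pnt δ x y) := by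
  have hfree : ∀ a e (ε : ℤˣ), δ a = .inr (e, ε) →
      ∃ h, pnt δ x y a = .aff (x e) ((ε : ℤ) * y e) h := by
    intro a e ε ha
    have h1 : y e ^ 2 = aeval (x e) (F a) := by
      rw [← h.2 a e ε ha]
      exact hg.eq e
    obtain ⟨h', h2⟩ := T1_mk h1 ε
    refine ⟨h', ?_⟩
    unfold pnt
    rw [ha]
    exact h2
  refine ⟨hg.dim, ?_, fun a s ha => ?_, x, y, hfree⟩
  · rw [eq_top_iff, ← hg.gen, IntermediateField.adjoin_le_iff]
    have hcx : ∀ e, x e ∈ fld (pnt δ x y) := by
      intro e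
      obtain ⟨a, ε, ha⟩ := h.1 e
      obtain ⟨h', hu⟩ := hfree a e ε ha
      refine IntermediateField.subset_adjoin _ _ ⟨(a, 0), ?_⟩
      unfold co
      show xy (pnt δ x y a) 0 = x e
      rw [hu]
      rfl
    have hcy : ∀ e, y e ∈ fld (pnt δ x y) := by
      intro e
      obtain ⟨a, ε, ha⟩ := h.1 e
      obtain ⟨h', hu⟩ := hfree a e ε ha
      have h1 : ((ε : ℤ) : M) * y e ∈ fld (pnt δ x y) := by
        refine IntermediateField.subset_adjoin _ _ ⟨(a, 1), ?_⟩
        unfold co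
        show xy (pnt δ x y a) 1 = ((ε : ℤ) : M) * y e
        rw [hu]
        rfl
      have h2 := mul_mem (intCast_mem (fld (pnt δ x y)) (ε : ℤ)) h1
      rw [← mul_assoc, T1_eps, one_mul] at h2
      exact h2
    rintro _ (⟨e, rfl⟩ | ⟨e, rfl⟩)
    · exact hcx e
    · exact hcy e
  · unfold pnt
    rw [ha]

theorem cl_zero (δ : Dia F D) (h : ¬ ∃ V : Fin D → k[X], Cmp F δ V) : cl δ = 0 := by
  refine dif_neg ?_
  rintro ⟨c, M, iF, iA, V, x, y, hC, -⟩
  exact h ⟨V, hC⟩

end Pool.Agent.LibHD77
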