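import Pool.Agent.LibHD77.U3

/-!
[HD77 U4a] several generic points. Proofs. `gen_snoc`: `gen1_funF` and the generators (`Fin.snoc`, `Fin.lastCases`).
`exists_gen`: induction on `D` with `exists_cps_KC`, `gen1_of_cps`, `gen_snoc` (`D = 0`: `M = k`; every
`V : Fin (D + 1) → k[X]` is `Fin.snoc (Fin.init V) (V (Fin.last D))`).
-/

open scoped Classical
open Polynomial

namespace Pool.Agent.LibHD77

open Pool.Agent.LibBH2
open Pool.Agent.LibCHd (VR RF Red FunF IsCps)
open Pool.Agent.LibHyp34 (Hyp Pt Pic jP Sp KC DCf)

variable {k : Type} [Field k]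

/-- one more generic point -/
theorem gen_snoc {D : ℕ} {V : Fin D → k[X]} {M K : Type} [Field M] [Algebra k M] [Field K]
    [Algebra k K] {x y : Fin D → M} (h : Gen V x y) {f : k[X]} {j : M →ₐ[k] K} {X Y : K}
    (hP : Gen1 j f X Y) :
    Gen (Fin.snoc V f : Fin (D + 1) → k[X]) (Fin.snoc (fun e => j (x e)) X : Fin (D + 1) → K)
      (Fin.snoc (fun e => j (y e)) Y : Fin (D + 1) → K) := by
  refine ⟨gen1_funF hP h.dim, ?_, ?_⟩
  · intro e
    refine Fin.lastCases ?_ (fun e => ?_) e
    · simp only [Fin.snoc_last]
      exact hP.eq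
    · simp only [Fin.snoc_castSucc]
      rw [← map_pow, h.eq e, aeval_algHom_apply]
  · set L := IntermediateField.adjoin k
      (Set.range (Fin.snoc (fun e => j (x e)) X : Fin (D + 1) → K) ∪
        Set.range (Fin.snoc (fun e => j (y e)) Y : Fin (D + 1) → K)) with hL
    have hx : ∀ e, (Fin.snoc (fun e => j (x e)) X : Fin (D + 1) → K) e ∈ L := fun e =>
      IntermediateField.subset_adjoin k _ (Or.inl ⟨e, rfl⟩)
    have hy : ∀ e, (Fin.snoc (fun e => j (y e)) Y : Fin (D + 1) → K) e ∈ L := fun e =>
      IntermediateField.subset_adjoin k _ (Or.inr ⟨e, rfl⟩)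
    have hj : ∀ m, j m ∈ L := by
      have h1 : IntermediateField.adjoin k (Set.range x ∪ Set.range y) ≤ L.comap j := by
        rw [IntermediateField.adjoin_le_iff]
        rintro z (⟨e, rfl⟩ | ⟨e, rfl⟩)
        · have := hx e.castSucc
          rw [Fin.snoc_castSucc] at this
          exact this
        · have := hy e.castSucc
          rw [Fin.snoc_castSucc] at this
          exact this
      intro m
      have h2 : m ∈ (⊤ : IntermediateField k M) := IntermediateField.mem_top
      rw [← h.gen] at h2
      exact h1 h2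
    rw [eq_top_iff, ← hP.gen, IntermediateField.adjoin_le_iff]
    rintro z (⟨m, rfl⟩ | hz)
    · exact hj m
    · rcases hz with rfl | hz
      · have := hx (Fin.last D)
        rw [Fin.snoc_last] at this
        exact this
      · rw [Set.mem_singleton_iff] at hz
        subst hz
        have := hy (Fin.last D)
        rw [Fin.snoc_last] at this
        exact this

theorem exists_gen [CharZero k] [IsAlgClosed k] {D : ℕ} (V : Fin D → k[X]) (hV : ∀ e, Hyp (V e)) :
    ∃ (M : Type) (_ : Field M) (_ : Algebra k M) (x y : Fin D → M), Gen V x y := by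
  induction D with
  | zero =>
    refine ⟨k, inferInstance, inferInstance, fun e => e.elim0, fun e => e.elim0, ?_, ?_, ?_⟩
    · refine ⟨fun e => e.elim0, ?_, ?_⟩
      · rw [algebraicIndependent_empty_type_iff]
        exact (algebraMap k k).injective
      · exact Module.Finite.of_restrictScalars_finite k _ k
    · intro e
      exact e.elim0
    · rw [eq_top_iff]
      intro z _
      exact IntermediateField.algebraMap_mem _ z
  | succ D ih =>
    obtain ⟨M, _, _, x, y, h⟩ := ih (Fin.init V) (fun e => hV e.castSucc)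
    haveI : Hyp (V (Fin.last D)) := hV _
    obtain ⟨K, _, _, i, j, hc⟩ := exists_cps_KC (V (Fin.last D)) M
    have h1 := gen_snoc h (gen1_of_cps (V (Fin.last D)) hc)
    rw [Fin.snoc_init_self] at h1
    exact ⟨K, inferInstance, inferInstance, _, _, h1⟩

end Pool.Agent.LibHD77
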