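import Pool.Agent.LibHD77.C0

/-!
[HD77 C4] symmetry of `Gt` and dependence on the constants. Proofs. `Gt_perm`: reindex `ρ` by `π`; the pattern
`pat (τ ∘ π) (ρ ∘ π) s` is `sub` of `pat τ ρ s` by the inverse permutation (the sets are disjoint, so that
`choose` is the unique index), `Sys.perm`. `Gt_aff`: for a fixed pattern `ψ` and a set `Z` of coordinates at
which it is constant, `s ↦ Φ (ψ with s on Z)` is `Φ (ψ with o on Z) + ∑_{a ∈ Z} φ_a (j (s a))`, `φ_a` the map `lin` for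
the pattern with `o` on `Z`: induction on `Z` with `orth`. Then sum over `ρ` (`Z` the complement of the `τ e`).
-/

open scoped Classical

namespace Pool.Agent.LibHD77.Comb

variable {n D : ℕ} {A : Fin n → Type} {L : Type} {J : Fin n → Type} [∀ a, AddCommGroup (J a)]
  {G : Type} [AddCommGroup G] {l : Fin n → L} {o : ∀ a, A a} {j : ∀ a, A a → J a}
  {S : ∀ a, Set (A a)} {Φ : Pat A (Fin D) → G}

/-- the constants `s` at the coordinates in `Z` -/
noncomputable def c4_put (Z : Finset (Fin n)) (s : ∀ a, A a) (ψ : Pat A (Fin D)) : Pat A (Fin D) :=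
  fun a => if a ∈ Z then .inl (s a) else ψ a

omit [∀ a, AddCommGroup (J a)] [AddCommGroup G] in
theorem c4_put_empty (s : ∀ a, A a) (ψ : Pat A (Fin D)) : c4_put ∅ s ψ = ψ := by
  funext a
  simp [c4_put]

theorem c4_put_insert (W : Finset (Fin n)) (c : Fin n) (s : ∀ a, A a) (ψ : Pat A (Fin D)) :
    c4_put (insert c W) s ψ = Function.update (c4_put W s ψ) c (.inl (s c)) := by
  funext a
  by_cases hac : a = c
  · subst hac
    simp [c4_put]
  · rw [Function.update_of_ne hac]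
    simp [c4_put, hac]

theorem c4_pat_inr {τ ρ : Fin D → Finset (Fin n)} (hρ : Dj ρ) (s : ∀ a, A a) {a : Fin n}
    {e : Fin D} (h : a ∈ ρ e) : pat o τ ρ s a = .inr (e, 1) := by
  have hex : ∃ e, a ∈ ρ e := ⟨e, h⟩
  have hch : hex.choose = e := by
    by_contra hne
    exact (Finset.disjoint_left.1 (hρ _ _ hne)) hex.choose_spec h
  unfold pat
  rw [dif_pos hex, hch]

theorem c4_pat_o {τ ρ : Fin D → Finset (Fin n)} (s : ∀ a, A a) {a : Fin n}
    (h : ¬ ∃ e, a ∈ ρ e) (h' : ∃ e, a ∈ τ e) : pat o τ ρ s a = .inl (o a) := by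
  unfold pat
  rw [dif_neg h, if_pos h']

theorem c4_pat_s {τ ρ : Fin D → Finset (Fin n)} (s : ∀ a, A a) {a : Fin n}
    (h : ¬ ∃ e, a ∈ ρ e) (h' : ¬ ∃ e, a ∈ τ e) : pat o τ ρ s a = .inl (s a) := by
  unfold pat
  rw [dif_neg h, if_neg h']

theorem c4_dj {τ ρ : Fin D → Finset (Fin n)} (hτ : Dj τ)
    (hρ : ρ ∈ Fintype.piFinset fun e => (τ e).powerset) : Dj ρ := by
  intro e e' hne
  rw [Fintype.mem_piFinset] at hρ
  exact Finset.disjoint_of_subset_left (Finset.mem_powerset.1 (hρ e))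
    (Finset.disjoint_of_subset_right (Finset.mem_powerset.1 (hρ e')) (hτ e e' hne))

theorem c4_pat_perm {τ ρ : Fin D → Finset (Fin n)} (hρ : Dj ρ) (π : Equiv.Perm (Fin D))
    (s : ∀ a, A a) :
    pat o (fun e => τ (π e)) (fun e => ρ (π e)) s =
      sub o (fun b => some (π.symm b, 1)) (pat o τ ρ s) := by
  have hρ' : Dj fun e => ρ (π e) := fun e e' hne => hρ _ _ fun h => hne (π.injective h)
  funext a
  by_cases h1 : ∃ e, a ∈ ρ e
  · obtain ⟨e, he⟩ := h1
    have he' : a ∈ (fun e => ρ (π e)) (π.symm e) := by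
      simpa using he
    rw [c4_pat_inr hρ' s he']
    unfold sub
    rw [c4_pat_inr hρ s he]
    simp
  · have h1' : ¬ ∃ e, a ∈ (fun e => ρ (π e)) e := by
      rintro ⟨e, he⟩
      exact h1 ⟨π e, he⟩
    by_cases h2 : ∃ e, a ∈ τ e
    · have h2' : ∃ e, a ∈ (fun e => τ (π e)) e := by
        obtain ⟨e, he⟩ := h2
        exact ⟨π.symm e, by simpa using he⟩
      rw [c4_pat_o s h1' h2']
      unfold sub
      rw [c4_pat_o s h1 h2]
    · have h2' : ¬ ∃ e, a ∈ (fun e => τ (π e)) e := by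
        rintro ⟨e, he⟩
        exact h2 ⟨π e, he⟩
      rw [c4_pat_s s h1' h2']
      unfold sub
      rw [c4_pat_s s h1 h2]

theorem Gt_perm (h : Sys l o j S Φ) (τ : Fin D → Finset (Fin n)) (hτ : Dj τ)
    (π : Equiv.Perm (Fin D)) (s : ∀ a, A a) : Gt o Φ (fun e => τ (π e)) s = Gt o Φ τ s := by
  unfold Gt
  refine Finset.sum_nbij' (fun ρ e => ρ (π.symm e)) (fun ρ e => ρ (π e)) ?_ ?_ ?_ ?_ ?_
  · intro ρ hρ
    rw [Fintype.mem_piFinset] at hρ ⊢
    intro e
    have h1 := hρ (π.symm e)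
    simpa using h1
  · intro ρ hρ
    rw [Fintype.mem_piFinset] at hρ ⊢
    intro e
    exact hρ (π e)
  · intro ρ _
    funext e
    simp
  · intro ρ _
    funext e
    simp
  · intro ρ hρ
    have hρ1 : (fun e => ρ (π.symm e)) ∈ Fintype.piFinset fun e => (τ e).powerset := by
      rw [Fintype.mem_piFinset] at hρ ⊢
      intro e
      have h1 := hρ (π.symm e)
      simpa using h1
    have hdj := c4_dj hτ hρ1
    have hρe : (fun e => (fun e => ρ (π.symm e)) (π e)) = ρ := by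
      funext e
      simp
    have hiff : (∃ e, ρ e = ∅) ↔ ∃ e, (fun e => ρ (π.symm e)) e = ∅ := by
      constructor
      · rintro ⟨e, he⟩
        exact ⟨π e, by simpa using he⟩
      · rintro ⟨e, he⟩
        exact ⟨π.symm e, he⟩
    by_cases hc : ∃ e, ρ e = ∅
    · rw [if_pos hc, if_pos (hiff.1 hc)]
    · rw [if_neg hc, if_neg (fun h' => hc (hiff.2 h'))]
      congr 1
      · rw [← Equiv.prod_comp π
          (fun e => (-1 : ℤ) ^ ((τ e).card - ((fun e => ρ (π.symm e)) e).card))]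
        refine Finset.prod_congr rfl fun e _ => ?_
        simp
      · have h1 := c4_pat_perm (o := o) (τ := τ) hdj π s
        rw [hρe] at h1
        rw [h1]
        exact h.perm π.symm (fun _ => 1) _

theorem c4_diff (h : Sys l o j S Φ) (ψ : Pat A (Fin D)) (Z : Finset (Fin n))
    (hψ : ∀ a ∈ Z, ψ a = .inl (o a)) (s : ∀ a, A a) (hs : ∀ a, s a ∈ S a) (b : Fin n) (hb : b ∈ Z)
    (W : Finset (Fin n)) (hW : W ⊆ Z) (hbW : b ∉ W) :
    Φ (Function.update (c4_put W s ψ) b (.inl (s b))) - Φ (c4_put W s ψ) =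
      Φ (Function.update ψ b (.inl (s b))) - Φ ψ := by
  induction W using Finset.induction_on with
  | empty => rw [c4_put_empty]
  | insert c W hc ih =>
    have hcZ : c ∈ Z := hW (Finset.mem_insert_self c W)
    have hcb : c ≠ b := fun h' => hbW (h' ▸ Finset.mem_insert_self c W)
    have ih' := ih ((Finset.subset_insert c W).trans hW)
      (fun h' => hbW (Finset.mem_insert_of_mem h'))
    have hbW' : b ∉ W := fun h' => hbW (Finset.mem_insert_of_mem h')
    have e1 : c4_put W s ψ c = .inl (o c) := by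
      simp [c4_put, hc, hψ c hcZ]
    have e2 : c4_put W s ψ b = .inl (o b) := by
      simp [c4_put, hbW', hψ b hb]
    have ho := h.orth (c4_put W s ψ) c b hcb (by rw [e1]; rfl) (by rw [e2]; rfl)
      (s c) (hs c) (s b) (hs b)
    have u1 : Function.update (c4_put W s ψ) c (.inl (o c)) = c4_put W s ψ := by
      rw [← e1, Function.update_eq_self]
    have u2 : Function.update (Function.update (c4_put W s ψ) c (.inl (s c))) b (.inl (o b)) =
        Function.update (c4_put W s ψ) c (.inl (s c)) := by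
      have e3 : Function.update (c4_put W s ψ) c (.inl (s c)) b = .inl (o b) := by
        rw [Function.update_of_ne (Ne.symm hcb), e2]
      rw [← e3, Function.update_eq_self]
    have u3 : Function.update (c4_put W s ψ) b (.inl (o b)) = c4_put W s ψ := by
      rw [← e2, Function.update_eq_self]
    rw [u1, u2, u3, ← c4_put_insert] at ho
    rw [← ih']
    rw [← sub_eq_zero, ← ho]
    abel

theorem c4_sum (h : Sys l o j S Φ) (ψ : Pat A (Fin D)) (Z : Finset (Fin n))
    (hψ : ∀ a ∈ Z, ψ a = .inl (o a)) (s : ∀ a, A a) (hs : ∀ a, s a ∈ S a)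
    (W : Finset (Fin n)) (hW : W ⊆ Z) :
    Φ (c4_put W s ψ) = Φ ψ + ∑ a ∈ W, (Φ (Function.update ψ a (.inl (s a))) - Φ ψ) := by
  induction W using Finset.induction_on with
  | empty => rw [c4_put_empty, Finset.sum_empty, add_zero]
  | insert c W hc ih =>
    have ih' := ih ((Finset.subset_insert c W).trans hW)
    have hd := c4_diff h ψ Z hψ s hs c (hW (Finset.mem_insert_self c W)) W
      ((Finset.subset_insert c W).trans hW) hc
    rw [Finset.sum_insert hc, c4_put_insert, ← hd, ih']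
    abel

theorem c4_aff (h : Sys l o j S Φ) (ψ : Pat A (Fin D)) (Z : Finset (Fin n))
    (hψ : ∀ a ∈ Z, ψ a = .inl (o a)) :
    ∃ φ : ∀ a, J a →+ G, ∀ s : ∀ a, A a, (∀ a, s a ∈ S a) →
      Φ (c4_put Z s ψ) = Φ ψ + ∑ a, φ a (j a (s a)) := by
  have hl : ∀ a : Fin n, ∃ φ : J a →+ G, (a ∉ Z → φ = 0) ∧ (a ∈ Z → ∀ x : A a,
      Φ (Function.update ψ a (.inl x)) - Φ ψ = φ (j a x)) := by
    intro a
    by_cases ha : a ∈ Z
    · obtain ⟨φ, hφ⟩ := h.lin ψ a (by rw [hψ a ha]; rfl)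
      refine ⟨φ, fun h' => absurd ha h', fun _ x => ?_⟩
      have u : Function.update ψ a (.inl (o a)) = ψ := by
        rw [← hψ a ha, Function.update_eq_self]
      rw [hφ x, u]
      abel
    · exact ⟨0, fun _ => rfl, fun h' => absurd h' ha⟩
  choose φ hφ0 hφ using hl
  refine ⟨φ, fun s hs => ?_⟩
  rw [c4_sum h ψ Z hψ s hs Z (Finset.Subset.refl Z)]
  congr 1
  rw [← Finset.sum_subset (Finset.subset_univ Z)]
  · exact Finset.sum_congr rfl fun a ha => hφ a ha (s a)
  · intro a _ ha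
    rw [hφ0 a ha]
    rfl

theorem Gt_aff (h : Sys l o j S Φ) (τ : Fin D → Finset (Fin n)) (hτ : Dj τ) :
    ∃ φ : ∀ a, J a →+ G, ∀ s : ∀ a, A a, (∀ a, s a ∈ S a) →
      Gt o Φ τ s = Gt o Φ τ o + ∑ a, φ a (j a (s a)) := by
  set Z : Finset (Fin n) := Finset.univ.filter fun a => ¬ ∃ e, a ∈ τ e with hZ
  have key : ∀ ρ : Fin D → Finset (Fin n), ∃ φ : ∀ a, J a →+ G,
      ρ ∈ (Fintype.piFinset fun e => (τ e).powerset) → ∀ s : ∀ a, A a, (∀ a, s a ∈ S a) →
        Φ (pat o τ ρ s) = Φ (pat o τ ρ o) + ∑ a, φ a (j a (s a)) := by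
    intro ρ
    by_cases hρ : ρ ∈ (Fintype.piFinset fun e => (τ e).powerset)
    · have hno : ∀ a ∈ Z, ¬ ∃ e, a ∈ ρ e := by
        rintro a ha ⟨e, he⟩
        rw [hZ, Finset.mem_filter] at ha
        rw [Fintype.mem_piFinset] at hρ
        exact ha.2 ⟨e, Finset.mem_powerset.1 (hρ e) he⟩
      have hψ : ∀ a ∈ Z, pat o τ ρ o a = .inl (o a) := by
        intro a ha
        have h2 := ha
        rw [hZ, Finset.mem_filter] at h2
        exact c4_pat_s o (hno a ha) h2.2
      obtain ⟨φ, hφ⟩ := c4_aff h (pat o τ ρ o) Z hψ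
      refine ⟨φ, fun _ s hs => ?_⟩
      rw [← hφ s hs]
      congr 1
      funext a
      by_cases ha : a ∈ Z
      · have h2 := ha
        rw [hZ, Finset.mem_filter] at h2
        rw [c4_pat_s s (hno a ha) h2.2]
        simp [c4_put, ha]
      · have h2 : ∃ e, a ∈ τ e := by
          by_contra hcon
          exact ha (by rw [hZ, Finset.mem_filter]; exact ⟨Finset.mem_univ _, hcon⟩)
        by_cases h1 : ∃ e, a ∈ ρ e
        · obtain ⟨e, he⟩ := h1
          have hdj := c4_dj hτ hρ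
          simp only [c4_put, ha, if_false]
          rw [c4_pat_inr hdj s he, c4_pat_inr hdj o he]
        · simp only [c4_put, ha, if_false]
          rw [c4_pat_o s h1 h2, c4_pat_o o h1 h2]
    · exact ⟨fun _ => 0, fun h' => absurd h' hρ⟩
  choose φ hφ using key
  refine ⟨fun a => ∑ ρ ∈ Fintype.piFinset fun e => (τ e).powerset,
    (if ∃ e, ρ e = ∅ then 0 else (∏ e, (-1 : ℤ) ^ ((τ e).card - (ρ e).card))) • φ ρ a,
    fun s hs => ?_⟩
  have hcomm : ∑ a, (∑ ρ ∈ Fintype.piFinset fun e => (τ e).powerset,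
      (if ∃ e, ρ e = ∅ then 0 else (∏ e, (-1 : ℤ) ^ ((τ e).card - (ρ e).card))) • φ ρ a)
        (j a (s a)) =
      ∑ ρ ∈ Fintype.piFinset fun e => (τ e).powerset,
        (if ∃ e, ρ e = ∅ then 0 else (∏ e, (-1 : ℤ) ^ ((τ e).card - (ρ e).card))) •
          ∑ a, φ ρ a (j a (s a)) := by
    simp only [AddMonoidHom.finsetSum_apply, AddMonoidHom.smul_apply, Finset.smul_sum]
    rw [Finset.sum_comm]
  rw [hcomm]
  unfold Gt
  rw [← Finset.sum_add_distrib]
  refine Finset.sum_congr rfl fun ρ hρ => ?_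
  by_cases hc : ∃ e, ρ e = ∅
  · rw [if_pos hc, if_pos hc, if_pos hc, zero_smul, add_zero]
  · rw [if_neg hc, if_neg hc, if_neg hc, hφ ρ hρ s hs, smul_add]

end Pool.Agent.LibHD77.Comb
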