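import Pool.Agent.LibHD77.C2
import Pool.Agent.LibHD77.C4

/-!
[HD77 R1] the rank of the group generated by the classes of the patterns. Proof. For every set `T` of `D`
disjoint subsets (as in `nAtL`) choose an enumeration `τ_T : Fin D → Finset (Fin n)`. By `expand`, `Gt_perm`, `Gt_aff`
every `Φ δ` (`Cmp l δ V`, constants in `S`) is in the group generated by the `Gt τ_T o` and the images of the
groups generated by `j a '' S a` under the `φ` of `Gt_aff` for `τ_T`, `a ∉ ⋃ T` (for `a ∈ ⋃ T` and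
`c(δ, τ) ≠ 0` the constant is `o a`): the coefficient of `τ` vanishes unless the `τ e` are contained in the
blocks of `δ`, so that they are disjoint and have one label. The rank of a sum of subgroups is at most the
sum of the ranks, the rank of an image at most the rank.
-/

open scoped Classical

namespace Pool.Agent.LibHD77.Comb

variable {n D : ℕ} {A : Fin n → Type} {L : Type} {J : Fin n → Type} [∀ a, AddCommGroup (J a)]
  {G : Type} [AddCommGroup G] {l : Fin n → L} {o : ∀ a, A a} {j : ∀ a, A a → J a}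
  {S : ∀ a, Set (A a)} {Φ : Pat A (Fin D) → G}

noncomputable def nAtL (l : Fin n → L) (D : ℕ) (U : Finset (Fin n)) : ℕ :=
  ((Finset.univ : Finset (Finset (Finset (Fin n)))).filter fun T => T.card = D ∧
    (∀ t ∈ T, t ⊆ U ∧ (t.card = 1 ∨ t.card = 2) ∧ ∀ a ∈ t, ∀ b ∈ t, l a = l b) ∧
    ∀ t ∈ T, ∀ t' ∈ T, t ≠ t' → Disjoint t t').card

/-- the rank of a finite sum of submodules -/
theorem rank_iSup_le {ι : Type} (s : Finset ι) (N : ι → Submodule ℤ G) (b : ι → ℕ)
    (h : ∀ i ∈ s, Module.rank ℤ (N i) ≤ b i) :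
    Module.rank ℤ (⨆ i ∈ s, N i : Submodule ℤ G) ≤ ((∑ i ∈ s, b i : ℕ) : Cardinal) := by
  induction s using Finset.induction_on with
  | empty =>
    have h1 : (⨆ i ∈ (∅ : Finset ι), N i : Submodule ℤ G) = ⊥ := by simp
    rw [h1, rank_bot]
    simp
  | insert i s hi ih =>
    rw [Finset.iSup_insert, Finset.sum_insert hi]
    refine (Submodule.rank_add_le_rank_add_rank _ _).trans ?_
    rw [Nat.cast_add]
    exact add_le_add (h i (Finset.mem_insert_self _ _))
      (ih fun k hk => h k (Finset.mem_insert_of_mem hk))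

/-- the sets of atoms -/
noncomputable def ATs (l : Fin n → L) (D : ℕ) : Finset (Finset (Finset (Fin n))) :=
  (Finset.univ : Finset (Finset (Finset (Fin n)))).filter fun T => T.card = D ∧
    (∀ t ∈ T, (t.card = 1 ∨ t.card = 2) ∧ ∀ a ∈ t, ∀ b ∈ t, l a = l b) ∧
    ∀ t ∈ T, ∀ t' ∈ T, t ≠ t' → Disjoint t t'

theorem nAtL_univ (l : Fin n → L) (D : ℕ) : nAtL l D Finset.univ = (ATs l D).card := by
  unfold nAtL ATs
  congr 1
  refine Finset.filter_congr fun T _ => ?_
  constructor
  · rintro ⟨h1, h2, h3⟩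
    exact ⟨h1, fun t ht => (h2 t ht).2, h3⟩
  · rintro ⟨h1, h2, h3⟩
    exact ⟨h1, fun t ht => ⟨Finset.subset_univ _, h2 t ht⟩, h3⟩

theorem nAtL_erase (l : Fin n → L) (D : ℕ) (a : Fin n) : nAtL l D (Finset.univ.erase a) =
    ((ATs l D).filter fun T => ∀ t ∈ T, a ∉ t).card := by
  refine congrArg Finset.card (Finset.ext fun T => ?_)
  rw [Finset.mem_filter, Finset.mem_filter]
  unfold ATs
  rw [Finset.mem_filter]
  constructor
  · rintro ⟨-, h1, h2, h3⟩
    refine ⟨⟨Finset.mem_univ _, h1, fun t ht => (h2 t ht).2, h3⟩, fun t ht hat => ?_⟩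
    exact absurd rfl (Finset.mem_erase.1 ((h2 t ht).1 hat)).1
  · rintro ⟨⟨-, h1, h2, h3⟩, h4⟩
    refine ⟨Finset.mem_univ _, h1,
      fun t ht => ⟨fun b hb => Finset.mem_erase.2 ⟨?_, Finset.mem_univ _⟩, h2 t ht⟩, h3⟩
    rintro rfl
    exact h4 t ht hb

/-- an enumeration -/
noncomputable def enm (D : ℕ) (T : Finset (Finset (Fin n))) : Fin D → Finset (Fin n) := fun e =>
  if h : T.card = D then ((Finset.equivFinOfCardEq h).symm e : Finset (Fin n)) else ∅

theorem enm_mem {T : Finset (Finset (Fin n))} (h : T.card = D) (e : Fin D) : enm D T e ∈ T := by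
  unfold enm
  rw [dif_pos h]
  exact ((Finset.equivFinOfCardEq h).symm e).2

theorem enm_inj {T : Finset (Finset (Fin n))} (h : T.card = D) {e e' : Fin D}
    (he : enm D T e = enm D T e') : e = e' := by
  unfold enm at he
  rw [dif_pos h, dif_pos h] at he
  exact (Finset.equivFinOfCardEq h).symm.injective (Subtype.ext he)

theorem enm_Dj {T : Finset (Finset (Fin n))} (h : T ∈ ATs l D) : Dj (enm D T) := by
  obtain ⟨-, h1, -, h3⟩ := Finset.mem_filter.1 h
  intro e e' hee
  exact h3 _ (enm_mem h1 e) _ (enm_mem h1 e') fun h4 => hee (enm_inj h1 h4)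

/-- the atoms of a term of the expansion -/
theorem exists_AT (δ : Pat A (Fin D)) (V : Fin D → L) (hδ : Cmp l δ V)
    (τ : Fin D → Finset (Fin n)) (hc : ∏ e, cf (τ e) (vec δ e) ≠ 0) :
    ∃ T ∈ ATs l D, (∃ π : Equiv.Perm (Fin D), τ = fun e => enm D T (π e)) ∧
      ∀ a, (∃ t ∈ T, a ∈ t) → pts o δ a = o a := by
  have h0 : ∀ e, cf (τ e) (vec δ e) ≠ 0 := fun e => Finset.prod_ne_zero_iff.1 hc e
    (Finset.mem_univ e)
  have h1 : ∀ e a, a ∈ τ e → vec δ e a ≠ 0 := by
    intro e a ha h2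
    apply h0 e
    unfold cf
    split_ifs with h3 h4
    · exact Finset.prod_eq_zero ha (by rw [h2]; norm_num)
    · exact Finset.prod_eq_zero ha h2
    · rfl
  have h2 : ∀ e a, a ∈ τ e → ∃ ε, δ a = .inr (e, ε) := by
    intro e a ha
    have h3 := h1 e a ha
    unfold vec at h3
    cases hδ : δ a with
    | inl s => rw [hδ] at h3; exact absurd rfl h3
    | inr q =>
      rw [hδ] at h3
      have h4 : q.1 = e := by
        by_contra h5
        exact h3 (if_neg h5)
      exact ⟨q.2, by rw [← h4]⟩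
  have hcard : ∀ e, (τ e).card = 1 ∨ (τ e).card = 2 := by
    intro e
    by_contra h3
    rw [not_or] at h3
    apply h0 e
    unfold cf
    rw [if_neg h3.1, if_neg h3.2]
  have hdj : ∀ e e', e ≠ e' → Disjoint (τ e) (τ e') := by
    intro e e' hee
    rw [Finset.disjoint_left]
    intro a ha ha'
    obtain ⟨ε, h3⟩ := h2 e a ha
    obtain ⟨ε', h4⟩ := h2 e' a ha'
    rw [h3] at h4
    exact hee (congrArg Prod.fst (Sum.inr.inj h4))
  have hinj : Function.Injective τ := by
    intro e e' he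
    by_contra hee
    have h3 := hdj e e' hee
    rw [he, Finset.disjoint_self_iff_empty] at h3
    rcases hcard e' with h4 | h4 <;> rw [h3] at h4 <;> simp at h4
  have hT : (Finset.univ.image τ).card = D := by
    rw [Finset.card_image_of_injective _ hinj, Finset.card_univ, Fintype.card_fin]
  refine ⟨Finset.univ.image τ, Finset.mem_filter.2 ⟨Finset.mem_univ _, hT, ?_, ?_⟩, ?_, ?_⟩
  · intro t ht
    obtain ⟨e, -, rfl⟩ := Finset.mem_image.1 ht
    refine ⟨hcard e, fun a ha b hb => ?_⟩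
    obtain ⟨ε, h3⟩ := h2 e a ha
    obtain ⟨ε', h4⟩ := h2 e b hb
    rw [← hδ.2 _ _ _ h3, ← hδ.2 _ _ _ h4]
  · intro t ht t' ht' htt
    obtain ⟨e, -, rfl⟩ := Finset.mem_image.1 ht
    obtain ⟨e', -, rfl⟩ := Finset.mem_image.1 ht'
    exact hdj e e' fun h3 => htt (by rw [h3])
  · let f : Fin D → Fin D := fun e => Finset.equivFinOfCardEq hT
      ⟨τ e, Finset.mem_image_of_mem τ (Finset.mem_univ e)⟩
    have hf : Function.Injective f := by
      intro e e' he
      have h3 := (Finset.equivFinOfCardEq hT).injective he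
      exact hinj (congrArg Subtype.val h3)
    refine ⟨Equiv.ofBijective f (Finite.injective_iff_bijective.1 hf), ?_⟩
    funext e
    change τ e = enm D (Finset.univ.image τ) (f e)
    unfold enm
    rw [dif_pos hT, Equiv.symm_apply_apply]
  · rintro a ⟨t, ht, hat⟩
    obtain ⟨e, -, rfl⟩ := Finset.mem_image.1 ht
    obtain ⟨ε, h3⟩ := h2 e a hat
    unfold pts
    rw [h3]

theorem rank_le (h : Sys l o j S Φ) (r : Fin n → ℕ)
    (hr : ∀ a, Module.rank ℤ (AddSubgroup.closure (j a '' S a)) ≤ r a) :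
    Module.rank ℤ (AddSubgroup.closure {c | ∃ (δ : Pat A (Fin D)) (V : Fin D → L),
      Cmp l δ V ∧ (∀ a s, δ a = .inl s → s ∈ S a) ∧ c = Φ δ}) ≤
      (nAtL l D Finset.univ + ∑ a, r a * nAtL l D (Finset.univ.erase a) : ℕ) := by
  have hφ : ∀ T, ∃ φ : ∀ a, J a →+ G, T ∈ ATs l D → ∀ s : ∀ a, A a, (∀ a, s a ∈ S a) →
      Gt o Φ (enm D T) s = Gt o Φ (enm D T) o + ∑ a, φ a (j a (s a)) := by
    intro T
    by_cases hT : T ∈ ATs l D
    · obtain ⟨φ, h1⟩ := Gt_aff h (enm D T) (enm_Dj hT)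
      exact ⟨φ, fun _ => h1⟩
    · exact ⟨fun _ => 0, fun h1 => absurd h1 hT⟩
  choose φ hφ using hφ
  obtain ⟨F, hF⟩ : ∃ F : Finset (Finset (Fin n)) → Finset (Fin n), ∀ T a, a ∈ F T ↔
      ∀ t ∈ T, a ∉ t :=
    ⟨fun T => Finset.univ.filter fun a => ∀ t ∈ T, a ∉ t, fun T a => by simp⟩
  let R : Finset (Finset (Fin n)) → Fin n → Submodule ℤ G := fun T a =>
    LinearMap.range ((φ T a).comp (AddSubgroup.closure (j a '' S a)).subtype).toIntLinearMap
  let N : Finset (Finset (Fin n)) → Submodule ℤ G := fun T =>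
    Submodule.span ℤ {Gt o Φ (enm D T) o} ⊔ ⨆ a ∈ F T, R T a
  have hN : ∀ T ∈ ATs l D, Module.rank ℤ (N T) ≤ ((1 + ∑ a ∈ F T, r a : ℕ) : Cardinal) := by
    intro T _
    refine (Submodule.rank_add_le_rank_add_rank _ _).trans ?_
    rw [Nat.cast_add]
    refine add_le_add ?_ (rank_iSup_le (F T) (R T) r fun a _ => ?_)
    · refine (rank_span_le _).trans ?_
      rw [Cardinal.mk_singleton, Nat.cast_one]
    · exact (rank_range_le _).trans (hr a)
  have htot := rank_iSup_le (ATs l D) N (fun T => 1 + ∑ a ∈ F T, r a) hN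
  have hsum : ∑ T ∈ ATs l D, (1 + ∑ a ∈ F T, r a) =
      nAtL l D Finset.univ + ∑ a, r a * nAtL l D (Finset.univ.erase a) := by
    rw [Finset.sum_add_distrib, Finset.sum_const, smul_eq_mul, mul_one, nAtL_univ]
    congr 1
    rw [Finset.sum_comm' (t' := Finset.univ)
      (s' := fun a => (ATs l D).filter fun T => ∀ t ∈ T, a ∉ t) (by
        intro T a
        rw [Finset.mem_filter, hF]
        simp)]
    refine Finset.sum_congr rfl fun a _ => ?_
    rw [Finset.sum_const, smul_eq_mul, nAtL_erase, mul_comm]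
  rw [hsum] at htot
  refine le_trans ?_ htot
  -- the classes are in the submodule
  have hmem : ∀ x ∈ AddSubgroup.closure {c | ∃ (δ : Pat A (Fin D)) (V : Fin D → L),
      Cmp l δ V ∧ (∀ a s, δ a = .inl s → s ∈ S a) ∧ c = Φ δ},
      x ∈ (⨆ T ∈ ATs l D, N T : Submodule ℤ G) := by
    intro x hx
    have h1 : AddSubgroup.closure {c | ∃ (δ : Pat A (Fin D)) (V : Fin D → L),
        Cmp l δ V ∧ (∀ a s, δ a = .inl s → s ∈ S a) ∧ c = Φ δ} ≤
        (⨆ T ∈ ATs l D, N T : Submodule ℤ G).toAddSubgroup := by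
      rw [AddSubgroup.closure_le]
      rintro c ⟨δ, V, hδ, hS, rfl⟩
      change Φ δ ∈ (⨆ T ∈ ATs l D, N T : Submodule ℤ G)
      rw [expand h δ V hδ]
      refine Submodule.sum_mem _ fun τ _ => ?_
      by_cases hc : ∏ e, cf (τ e) (vec δ e) = 0
      · rw [hc, zero_smul]
        exact Submodule.zero_mem _
      refine Submodule.smul_mem _ _ ?_
      obtain ⟨T, hT, ⟨π, rfl⟩, ho⟩ := exists_AT (o := o) δ V hδ τ hc
      have hle : N T ≤ (⨆ T ∈ ATs l D, N T : Submodule ℤ G) := le_iSup₂_of_le T hT le_rfl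
      apply hle
      have hsS : ∀ a, pts o δ a ∈ S a := by
        intro a
        unfold pts
        cases hda : δ a with
        | inl s => exact hS a s hda
        | inr q => exact h.oS a
      rw [Gt_perm h _ (enm_Dj hT) π, hφ T hT _ hsS]
      refine Submodule.add_mem _ ?_ (Submodule.sum_mem _ fun a _ => ?_)
      · exact Submodule.mem_sup_left (Submodule.mem_span_singleton_self _)
      · by_cases ha : ∀ t ∈ T, a ∉ t
        · refine Submodule.mem_sup_right ?_
          have h2 : R T a ≤ ⨆ a ∈ F T, R T a := le_iSup₂_of_le a ((hF T a).2 ha) le_rfl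
          apply h2
          exact ⟨⟨j a (pts o δ a), AddSubgroup.subset_closure ⟨_, hsS a, rfl⟩⟩, rfl⟩
        · have h3 : ∃ t ∈ T, a ∈ t := by
            by_contra h4
            exact ha fun t ht hat => h4 ⟨t, ht, hat⟩
          rw [ho a h3, h.jo a, map_zero]
          exact Submodule.zero_mem _
    exact h1 hx
  obtain ⟨H, hH⟩ : ∃ H, H = AddSubgroup.closure {c | ∃ (δ : Pat A (Fin D)) (V : Fin D → L),
      Cmp l δ V ∧ (∀ a s, δ a = .inl s → s ∈ S a) ∧ c = Φ δ} := ⟨_, rfl⟩
  rw [← hH] at hmem ⊢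
  let f : H →ₗ[ℤ] G := H.subtype.toIntLinearMap
  exact LinearMap.rank_le_of_injective
    (f.codRestrict (⨆ T ∈ ATs l D, N T : Submodule ℤ G) fun x => hmem x.1 x.2) (by
      intro x y hxy
      have h5 := congrArg Subtype.val hxy
      exact Subtype.ext h5)

end Pool.Agent.LibHD77.Comb
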