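import Pool.Agent.LibHD77.Defs
import Pool.Agent.LibHC34.Mob
import Pool.Agent.LibLP34.Defs

/-!
The statements on diagonals of products of hyperelliptic curves.
-/

open scoped Classical
open Polynomial

namespace Pool.Agent.LibHD77

open Pool.Agent.LibHyp34 (Hyp Pt Pic jP)
open Pool.Agent.LibHC34 (BrAt Over)
open Pool.Agent.LibLP34 (sat)

variable {k : Type} [Field k] {I : Type}

/-- The sets `S i` of points of the curves `C_i` are orthogonal to each other and to themselves: for
`p` in `S i` and `q` in `S j` the zero-cycle `(p, q) - (p, ∞) - (∞, q) + (∞, ∞)` is torsion in the Chow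
group of `C_i × C_j`. -/
def Orth (f : I → k[X]) (S : ∀ i, Set (Pt (f i))) : Prop :=
  ∀ i j, ∀ p ∈ S i, ∀ q ∈ S j, IsOfFinAddOrder (sq p q)

section

variable {n D : ℕ} (ι : Fin n → I) (f : I → k[X])

/-- The curves of the product `C_(ι 1) × ... × C_(ι n)`. -/
abbrev Pr (a : Fin n) : k[X] := f (ι a)

/-- `u` is the generic point of the diagonal `δ` of the product of the curves `C_(ι a)`, with function
field `M`, and the fixed coordinates of `δ` are at infinity or in the sets `S`. -/
def IsSPt (S : ∀ i, Set (Pt (f i))) {M : Type} [Field M] [Algebra k M] (δ : Dia (Pr ι f) D)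
    (u : Pnt (Pr ι f) M) : Prop :=
  IsPt δ u ∧ ∀ a s, δ a = .inl s → s = .inf ∨ s ∈ S (ι a)

/-- The group generated by the classes of the diagonals of dimension `D` with fixed coordinates in the
sets `S`. -/
noncomputable def DG (S : ∀ i, Set (Pt (f i))) (D : ℕ) : AddSubgroup (CH (Pr ι f) D) :=
  AddSubgroup.closure {c | ∃ (δ : Dia (Pr ι f) D) (M : Type) (_ : Field M) (_ : Algebra k M)
    (u : Pnt (Pr ι f) M), IsSPt ι f S δ u ∧ c = cls D u}

/-- The number of sets of `D` disjoint subsets of `U` with one or two elements, the latter of the form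
`{a, b}` with `l a = l b`. -/
noncomputable def nAt {L : Type} (l : Fin n → L) (D : ℕ) (U : Finset (Fin n)) : ℕ :=
  ((Finset.univ : Finset (Finset (Finset (Fin n)))).filter fun T => T.card = D ∧
    (∀ t ∈ T, t ⊆ U ∧ (t.card = 1 ∨ t.card = 2) ∧ ∀ a ∈ t, ∀ b ∈ t, l a = l b) ∧
    ∀ t ∈ T, ∀ t' ∈ T, t ≠ t' → Disjoint t t').card

end

/-- The numbers of the combination `∑ m_j δ_j` of diagonals vanish: for all integral quadratic forms
`q` in `n` variables the sum of the `m_j ∏_e q(v_(j,e))` is zero, where `v_(j,e)` is the vector of signs of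
the `e`-th free point of `δ_j`, and for every coordinate `a` the sum of the
`m_j ∏_e q(v_(j,e)) (s_(j,a) - ∞)` is torsion in the Jacobian of `C_a`, where `s_(j,a)` is the fixed
coordinate `a` of `δ_j` (`∞` if the coordinate `a` is not fixed). -/
def Vanish {n D : ℕ} {F : Fin n → k[X]} [∀ a, Hyp (F a)] {J : Type} [Fintype J] (m : J → ℤ)
    (δ : J → Dia F D) : Prop :=
  ∀ q : QuadraticMap ℤ (Fin n → ℤ) ℤ, ∑ j, m j * ∏ e, q (vec (δ j) e) = 0 ∧
    ∀ a, IsOfFinAddOrder (∑ j, (m j * ∏ e, q (vec (δ j) e)) • fx (δ j) a)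

/-- Combinations of diagonals whose numbers vanish are torsion. -/
def ByNumbers (f : I → k[X]) [∀ i, Hyp (f i)] (S : ∀ i, Set (Pt (f i))) : Prop :=
  ∀ (n : ℕ) (ι : Fin n → I) (D : ℕ) (J : Type) (_ : Fintype J) (m : J → ℤ)
    (δ : J → Dia (Pr ι f) D) (M : J → Type) (_ : ∀ j, Field (M j)) (_ : ∀ j, Algebra k (M j))
    (u : ∀ j, Pnt (Pr ι f) (M j)), (∀ j, IsSPt ι f S (δ j) (u j)) → Vanish m δ →
    IsOfFinAddOrder (∑ j, m j • cls D (u j))

/-- If the classes of the points in `S i` generate a group of rank at most `r i` then the classes of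
the diagonals of dimension `D` of `C_(ι 1) × ... × C_(ι n)` with fixed coordinates in the sets `S`
generate a group of rank at most `N + ∑_a r_(ι a) N_a`, where `N` (`N_a`) is the number of sets of `D`
disjoint subsets of the set of all coordinates (without `a`) which consist of one coordinate or of two
coordinates which belong to the same curve. -/
def RankLe (f : I → k[X]) [∀ i, Hyp (f i)] (S : ∀ i, Set (Pt (f i))) : Prop :=
  ∀ r : I → ℕ, (∀ i, Module.rank ℤ (AddSubgroup.closure (jP '' S i)) ≤ r i) →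
    ∀ (n : ℕ) (ι : Fin n → I) (D : ℕ), Module.rank ℤ (DG ι f S D) ≤
      (nAt (Pr ι f) D Finset.univ +
        ∑ a, r (ι a) * nAt (Pr ι f) D (Finset.univ.erase a) : ℕ)

/-- Any two of the sets `(g i a)⁻¹ B_i` differ by at most two points. -/
def Close {J : Type} (f : I → k[X]) (g : I → J → GL (Fin 2) k) : Prop :=
  ∀ i i' a a', (symmDiff (BrAt (f i) (g i a)) (BrAt (f i') (g i' a'))).ncard ≤ 2

/-- The points of `C_i` whose classes are in the saturation `M_i` of the group generated by the classes
of the points `R i a`. -/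
def Sat {J : Type} (f : I → k[X]) [∀ i, Hyp (f i)] (R : ∀ i, J → Pt (f i)) (i : I) :
    Set (Pt (f i)) :=
  {s | jP s ∈ sat (Set.range fun a => jP (R i a))}

end Pool.Agent.LibHD77
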