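import Pool.Agent.LibHD77.T1

/-!
[HD77 T2a] permutations of the free points and signs. Proof. If `δ` is realised (`Cmp F δ V`, `exists_gen`), then for
`Gen V x y` also `Gen` of the permuted points with signs (the same generators up to sign); the two `pnt` are
equal; `cl_eq`. Otherwise both are zero (`cl_zero`).
-/

open scoped Classical
open Polynomial

namespace Pool.Agent.LibHD77

open Pool.Agent.LibBH2
open Pool.Agent.LibCHd (VR RF Red FunF)
open Pool.Agent.LibHyp34 (Hyp Pt Pic jP Sp KC DCf)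
open Pool.Agent.LibHD77.Comb (Pat sub Cmp t1 t2 t3 t4)

variable {k : Type} [Field k] {n : ℕ} {F : Fin n → k[X]} {D : ℕ}

private theorem t2a_sub_inl (π : Equiv.Perm (Fin D)) (η : Fin D → ℤˣ) (δ : Dia F D) {a : Fin n}
    {s : Pt (F a)} (h : δ a = .inl s) :
    (sub (og F) (fun b => some (π b, η b)) δ : Dia F D) a = .inl s := by
  unfold sub
  rw [h]

private theorem t2a_sub_inr (π : Equiv.Perm (Fin D)) (η : Fin D → ℤˣ) (δ : Dia F D) {a : Fin n}
    {q : Fin D × ℤˣ} (h : δ a = .inr q) :
    (sub (og F) (fun b => some (π b, η b)) δ : Dia F D) a = .inr (π q.1, η q.1 * q.2) := by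
  unfold sub
  rw [h]

private theorem t2a_cmp (π : Equiv.Perm (Fin D)) (η : Fin D → ℤˣ) (δ : Dia F D)
    (V : Fin D → k[X]) (h : Cmp F δ V) :
    Cmp F (sub (og F) (fun b => some (π b, η b)) δ : Dia F D) (fun e => V (π.symm e)) := by
  refine ⟨fun b => ?_, fun a b ε hab => ?_⟩
  · obtain ⟨a, ε, ha⟩ := h.1 (π.symm b)
    refine ⟨a, η (π.symm b) * ε, ?_⟩
    rw [t2a_sub_inr π η δ ha]
    simp
  · rcases hδ : δ a with s | q
    · rw [t2a_sub_inl π η δ hδ] at hab
      cases hab
    · rw [t2a_sub_inr π η δ hδ] at hab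
      have h1 := Sum.inr.inj hab
      have h2 : π q.1 = b := congrArg Prod.fst h1
      have h3 := h.2 a q.1 q.2 hδ
      show V (π.symm b) = F a
      rw [← h2, Equiv.symm_apply_apply]
      exact h3

private theorem t2a_cmp' (π : Equiv.Perm (Fin D)) (η : Fin D → ℤˣ) (δ : Dia F D)
    (V : Fin D → k[X]) (h : Cmp F (sub (og F) (fun b => some (π b, η b)) δ : Dia F D) V) :
    Cmp F δ (fun e => V (π e)) := by
  refine ⟨fun b => ?_, fun a b ε hab => ?_⟩
  · obtain ⟨a, ε, ha⟩ := h.1 (π b)
    rcases hδ : δ a with s | q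
    · rw [t2a_sub_inl π η δ hδ] at ha
      cases ha
    · rw [t2a_sub_inr π η δ hδ] at ha
      have h1 := Sum.inr.inj ha
      have h2 : π q.1 = π b := congrArg Prod.fst h1
      have h3 : q.1 = b := π.injective h2
      exact ⟨a, q.2, by rw [hδ, ← h3]⟩
  · exact h.2 a (π b) (η b * ε) (by rw [t2a_sub_inr π η δ hab])

theorem cl_perm [CharZero k] [IsAlgClosed k] (hF : ∀ a, Hyp (F a)) (π : Equiv.Perm (Fin D))
    (η : Fin D → ℤˣ) (δ : Dia F D) :
    cl (sub (og F) (fun b => some (π b, η b)) δ : Dia F D) = cl δ := by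
  by_cases hex : ∃ V : Fin D → k[X], Cmp F δ V
  · obtain ⟨V, hV⟩ := hex
    have hHyp : ∀ e, Hyp (V e) := by
      intro e
      obtain ⟨a, ε, ha⟩ := hV.1 e
      rw [hV.2 a e ε ha]
      exact hF a
    obtain ⟨M, _, _, x, y, hg⟩ := exists_gen V hHyp
    have hu : ∀ u : ℤˣ, (((u : ℤ) : M)) * ((u : ℤ) : M) = 1 := by
      intro u
      rcases Int.units_eq_one_or u with rfl | rfl <;> simp
    have hg' : Gen (fun e => V (π.symm e)) (fun e => x (π.symm e))
        (fun e => ((η (π.symm e) : ℤ) : M) * y (π.symm e)) := by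
      refine ⟨hg.dim, fun e => ?_, ?_⟩
      · rw [mul_pow, pow_two (((η (π.symm e) : ℤ) : M)), hu, one_mul]
        exact hg.eq _
      · rw [eq_top_iff, ← hg.gen, IntermediateField.adjoin_le_iff]
        rintro z (⟨e, rfl⟩ | ⟨e, rfl⟩)
        · apply IntermediateField.subset_adjoin
          left
          exact ⟨π e, by simp⟩
        · have h1 : ((η e : ℤ) : M) * y e ∈ IntermediateField.adjoin k
              (Set.range (fun e => x (π.symm e)) ∪
                Set.range (fun e => ((η (π.symm e) : ℤ) : M) * y (π.symm e))) := by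
            apply IntermediateField.subset_adjoin
            right
            exact ⟨π e, by simp⟩
          have h2 := mul_mem (intCast_mem (IntermediateField.adjoin k
              (Set.range (fun e => x (π.symm e)) ∪
                Set.range (fun e => ((η (π.symm e) : ℤ) : M) * y (π.symm e)))) (η e : ℤ)) h1
          rw [← mul_assoc, hu, one_mul] at h2
          exact h2
    rw [cl_eq hF δ V x y hV hg, cl_eq hF _ _ _ _ (t2a_cmp π η δ V hV) hg']
    congr 1
    funext a
    rcases hδ : δ a with s | q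
    · have h1 := t2a_sub_inl π η δ hδ
      unfold pnt
      rw [h1, hδ]
    · have h1 := t2a_sub_inr π η δ hδ
      unfold pnt
      rw [h1, hδ]
      simp only [Equiv.symm_apply_apply, Units.val_mul, Int.cast_mul]
      congr 1
      calc ((η q.1 : ℤ) : M) * ((q.2 : ℤ) : M) * (((η q.1 : ℤ) : M) * y q.1)
          = (((η q.1 : ℤ) : M) * ((η q.1 : ℤ) : M)) * (((q.2 : ℤ) : M) * y q.1) := by ring
        _ = ((q.2 : ℤ) : M) * y q.1 := by rw [hu, one_mul]
  · rw [cl_zero δ hex, cl_zero]
    rintro ⟨V, hV⟩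
    exact hex ⟨_, t2a_cmp' π η δ V hV⟩

end Pool.Agent.LibHD77
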