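import Pool.Agent.LibHD77.T1

/-!
[HD77 T2b] the relation `par` for diagonals. Proof. `D` is not zero (`e`), `Gen V x y` on `M` for the curves
`fun b => V (some b)` (`exists_gen`), `gen_base` for `e` gives `M₀` and `Gen1 i (V e) (x e) (y e)`, then `par` with
`T a` = `inl` of the constant (`mpt i (cst M₀ s) = cst M s`) or of the point `mk' (F a) (x₀ b) (± y₀ b)` over `M₀`,
`inr (false, ε)` for `δ a = inr (none, ε)` and `inr (true, ε)` for `δ a = inr (some e, ε)`; the four cycles are
the cycles of `pnt` of the four patterns (`cl_eq`; they are realised, with the same curves; in the last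
pattern the free point `e` is played by `none`).
-/

open scoped Classical
open Polynomial

namespace Pool.Agent.LibHD77

open Pool.Agent.LibBH2
open Pool.Agent.LibCHd (VR RF Red FunF)
open Pool.Agent.LibHyp34 (Hyp Pt Pic jP Sp KC DCf)
open Pool.Agent.LibHD77.Comb (Pat sub Cmp t1 t2 t3 t4)

variable {k : Type} [Field k] {n : ℕ} {F : Fin n → k[X]} {D : ℕ}

/-- `mk'` is compatible with base change -/
private theorem T2b_mk {M₀ M : Type} [Field M₀] [Algebra k M₀] [Field M] [Algebra k M]
    (i : M₀ →ₐ[k] M) (f : k[X]) (x y : M₀) : mpt i (mk' f x y) = mk' f (i x) (i y) := by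
  have hiff : y ^ 2 = (f.map (algebraMap k M₀)).eval x ↔
      i y ^ 2 = (f.map (algebraMap k M)).eval (i x) := by
    rw [← map_pow, eval_map_algebraMap, eval_map_algebraMap, aeval_algHom_apply]
    exact i.injective.eq_iff.symm
  unfold mk'
  by_cases h : y ^ 2 = (f.map (algebraMap k M₀)).eval x
  · rw [dif_pos h, dif_pos (hiff.1 h)]
    rfl
  · rw [dif_neg h, dif_neg fun h' => h (hiff.2 h')]
    rfl

/-- the coordinates of the points, those over `M₀` and the two free points -/
private noncomputable def T2b_T {d : ℕ} {M₀ : Type} [Field M₀] [Algebra k M₀]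
    (δ : Pat (fun a => Pt (F a)) (Option (Fin (d + 1)))) (e : Fin (d + 1))
    (g : ∀ b : Fin (d + 1), b ≠ e → Fin d) (x₀ y₀ : Fin d → M₀) (a : Fin n) :
    MPt (F a) M₀ ⊕ (Bool × ℤˣ) :=
  match δ a with
  | .inl s => .inl (cst M₀ s)
  | .inr (none, ε) => .inr (false, ε)
  | .inr (some b, ε) => if hb : b = e then .inr (true, ε) else
      .inl (mk' (F a) (x₀ (g b hb)) (((ε : ℤˣ) : ℤ) * y₀ (g b hb)))

/-- the coordinates of a free point -/
private noncomputable def T2b_P {d : ℕ} {M : Type} [Field M] (x y : Fin (d + 1) → M)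
    (o : Option (Fin (d + 1) × ℤˣ)) : Option (M × M) :=
  o.map fun q => (x q.1, ((q.2 : ℤ) : M) * y q.1)

private theorem T2b_ev {d : ℕ} {M₀ M : Type} [Field M₀] [Algebra k M₀] [Field M] [Algebra k M]
    (δ : Pat (fun a => Pt (F a)) (Option (Fin (d + 1)))) (e : Fin (d + 1))
    (g : ∀ b : Fin (d + 1), b ≠ e → Fin d) (hg : ∀ b hb, e.succAbove (g b hb) = b)
    (x₀ y₀ : Fin d → M₀) (i : M₀ →ₐ[k] M) (x y : Fin (d + 1) → M)
    (hx : ∀ b, i (x₀ b) = x (e.succAbove b)) (hy : ∀ b, i (y₀ b) = y (e.succAbove b))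
    (t : Option (Fin (d + 1)) → Option (Fin (d + 1) × ℤˣ))
    (ht : ∀ b, b ≠ e → t (some b) = some (b, 1)) :
    ev (F := F) (T2b_T δ e g x₀ y₀) i (T2b_P x y (t none)) (T2b_P x y (t (some e))) =
      pnt (sub (og F) t δ : Dia F (d + 1)) x y := by
  have hsg : ∀ (f : k[X]) (ε : ℤˣ) (o : Option (Fin (d + 1) × ℤˣ)),
      sg f ε (T2b_P x y o) = (match o with
        | none => (.inf : MPt f M)
        | some q => mk' f (x q.1) (((q.2 * ε : ℤˣ) : ℤ) * y q.1)) := by
    intro f ε o
    rcases o with _ | ⟨b, η⟩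
    · rfl
    · show mk' f (x b) (((ε : ℤ) : M) * (((η : ℤ) : M) * y b)) = _
      congr 1
      push_cast
      ring
  funext a
  rcases hδ : δ a with s | ⟨_ | b, ε⟩
  · simp only [ev, pnt, sub, T2b_T, hδ]
    exact mpt_cst i s
  · simp only [ev, pnt, sub, T2b_T, hδ]
    rw [if_neg (by decide), hsg]
    rcases t none with _ | ⟨b, η⟩
    · rfl
    · rfl
  · by_cases hb : b = e
    · subst hb
      simp only [ev, pnt, sub, T2b_T, hδ, dif_pos]
      rw [if_pos trivial, hsg]
      rcases t (some b) with _ | ⟨c, η⟩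
      · rfl
      · rfl
    · simp only [ev, pnt, sub, T2b_T, hδ, dif_neg hb, ht b hb]
      rw [T2b_mk, hx, map_mul, hy, hg b hb, map_intCast, one_mul]

private theorem T2b_cmp {d : ℕ} {δ : Pat (fun a => Pt (F a)) (Option (Fin (d + 1)))}
    {V : Option (Fin (d + 1)) → k[X]} (h : Cmp F δ V) {e : Fin (d + 1)}
    (he : V none = V (some e)) (t : Option (Fin (d + 1)) → Option (Fin (d + 1) × ℤˣ))
    (ht : ∀ b, b ≠ e → t (some b) = some (b, 1))
    (ht1 : ∀ q, t none = some q → q.1 = e) (ht2 : ∀ q, t (some e) = some q → q.1 = e)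
    (ht3 : t none ≠ none ∨ t (some e) ≠ none) :
    Cmp F (sub (og F) t δ) fun b => V (some b) := by
  constructor
  · intro b
    by_cases hb : b = e
    · subst hb
      rcases ht3 with h3 | h3
      · obtain ⟨a, ε, ha⟩ := h.1 none
        obtain ⟨q, hq⟩ := Option.ne_none_iff_exists'.1 h3
        refine ⟨a, q.2 * ε, ?_⟩
        simp only [sub, ha, hq]
        rw [ht1 q hq]
      · obtain ⟨a, ε, ha⟩ := h.1 (some b)
        obtain ⟨q, hq⟩ := Option.ne_none_iff_exists'.1 h3
        refine ⟨a, q.2 * ε, ?_⟩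
        simp only [sub, ha, hq]
        rw [ht2 q hq]
    · obtain ⟨a, ε, ha⟩ := h.1 (some b)
      refine ⟨a, 1 * ε, ?_⟩
      simp only [sub, ha, ht b hb]
  · intro a b ε hab
    show V (some b) = F a
    rcases hδ : δ a with s | ⟨o, ε'⟩
    · simp only [sub, hδ] at hab
      exact absurd hab (by simp)
    · have hVo : V o = F a := h.2 a o ε' hδ
      rcases hto : t o with _ | q
      · simp only [sub, hδ, hto] at hab
        exact absurd hab (by simp)
      · simp only [sub, hδ, hto, Sum.inr.injEq, Prod.mk.injEq] at hab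
        rw [← hVo, ← hab.1]
        rcases o with _ | c
        · rw [ht1 q hto, he]
        · by_cases hc : c = e
          · subst hc
            rw [ht2 q hto]
          · rw [ht c hc, Option.some.injEq] at hto
            rw [← hto]

theorem cl_par [CharZero k] [IsAlgClosed k] (hF : ∀ a, Hyp (F a))
    (δ : Pat (fun a => Pt (F a)) (Option (Fin D))) (V : Option (Fin D) → k[X]) (h : Cmp F δ V)
    (e : Fin D) (he : V none = V (some e)) :
    cl (sub (og F) (t1 e) δ : Dia F D) + cl (sub (og F) (t2 e) δ : Dia F D) =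
      2 • cl (sub (og F) t3 δ : Dia F D) + 2 • cl (sub (og F) (t4 e) δ : Dia F D) := by
  rcases D with _ | d
  · exact e.elim0
  have hV : ∀ b, Hyp (V (some b)) := by
    intro b
    obtain ⟨a, ε, ha⟩ := h.1 (some b)
    rw [h.2 a (some b) ε ha]
    exact hF a
  obtain ⟨M, _, _, x, y, hG⟩ := exists_gen (fun b => V (some b)) hV
  obtain ⟨M₀, _, _, i, x₀, y₀, -, hx, hy, hG1⟩ := gen_base hV hG e
  choose g hg using fun (b : Fin (d + 1)) (hb : b ≠ e) => Fin.exists_succAbove_eq hb
  have _he := hV e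
  have hT : ∀ a q, T2b_T (F := F) δ e g x₀ y₀ a = .inr q → F a = V (some e) := by
    intro a q hq
    rcases hδ : δ a with s | ⟨_ | b, ε⟩
    · simp only [T2b_T, hδ] at hq
      exact absurd hq (by simp)
    · rw [← he]
      exact (h.2 a none ε hδ).symm
    · by_cases hb : b = e
      · subst hb
        exact (h.2 a (some b) ε hδ).symm
      · simp only [T2b_T, hδ, dif_neg hb] at hq
        exact absurd hq (by simp)
  have hp := par (V (some e)) hG1 hG.dim (T2b_T (F := F) δ e g x₀ y₀) hT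
  have hP1 : T2b_P x y (some (e, 1)) = some (x e, y e) := by
    simp [T2b_P]
  have hP2 : T2b_P x y (some (e, -1)) = some (x e, -y e) := by
    simp [T2b_P]
  have e1 := T2b_ev (F := F) δ e g hg x₀ y₀ i x y hx hy (t1 e) (fun b _ => rfl)
  have e2 := T2b_ev (F := F) δ e g hg x₀ y₀ i x y hx hy (t2 e) (fun b _ => rfl)
  have e3 := T2b_ev (F := F) δ e g hg x₀ y₀ i x y hx hy t3 (fun b _ => rfl)
  have e4 := T2b_ev (F := F) δ e g hg x₀ y₀ i x y hx hy (t4 e) (fun b hb => by
    simp only [t4, if_neg hb])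
  have f1 : t1 e none = some (e, 1) := rfl
  have f1' : t1 e (some e) = some (e, 1) := rfl
  have f2 : t2 e none = some (e, -1) := rfl
  have f2' : t2 e (some e) = some (e, 1) := rfl
  have f3 : (t3 : Option (Fin (d + 1)) → _) none = none := rfl
  have f3' : (t3 : Option (Fin (d + 1)) → _) (some e) = some (e, 1) := rfl
  have f4 : t4 e none = some (e, 1) := rfl
  have f4' : t4 e (some e) = none := by simp [t4]
  have hP3 : T2b_P x y none = none := rfl
  rw [f1, f1', hP1] at e1
  rw [f2, f2', hP1, hP2] at e2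
  rw [f3, f3', hP1, hP3] at e3
  rw [f4, f4', hP1, hP3] at e4
  rw [e1, e2, e3, e4] at hp
  have c1 : Cmp F (sub (og F) (t1 e) δ) fun b => V (some b) :=
    T2b_cmp h he (t1 e) (fun b _ => rfl) (by rw [f1]; rintro q ⟨⟩; rfl)
      (by rw [f1']; rintro q ⟨⟩; rfl) (Or.inl (by rw [f1]; exact Option.some_ne_none _))
  have c2 : Cmp F (sub (og F) (t2 e) δ) fun b => V (some b) :=
    T2b_cmp h he (t2 e) (fun b _ => rfl) (by rw [f2]; rintro q ⟨⟩; rfl)
      (by rw [f2']; rintro q ⟨⟩; rfl) (Or.inl (by rw [f2]; exact Option.some_ne_none _))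
  have c3 : Cmp F (sub (og F) t3 δ) fun b => V (some b) :=
    T2b_cmp h he t3 (fun b _ => rfl) (by rw [f3]; rintro q ⟨⟩)
      (by rw [f3']; rintro q ⟨⟩; rfl) (Or.inr (by rw [f3']; exact Option.some_ne_none _))
  have c4 : Cmp F (sub (og F) (t4 e) δ) fun b => V (some b) :=
    T2b_cmp h he (t4 e) (fun b hb => by simp only [t4, if_neg hb])
      (by rw [f4]; rintro q ⟨⟩; rfl) (by rw [f4']; rintro q ⟨⟩)
      (Or.inl (by rw [f4]; exact Option.some_ne_none _))
  rw [cl_eq hF _ _ x y c1 hG, cl_eq hF _ _ x y c2 hG, cl_eq hF _ _ x y c3 hG,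
    cl_eq hF _ _ x y c4 hG]
  have h0 := (QuotientAddGroup.eq_zero_iff (N := RatEq F (d + 1)) _).2 hp
  rw [QuotientAddGroup.mk_sub, QuotientAddGroup.mk_sub, QuotientAddGroup.mk_add,
    QuotientAddGroup.mk_nsmul, QuotientAddGroup.mk_nsmul] at h0
  rw [sub_sub, sub_eq_zero] at h0
  exact h0

end Pool.Agent.LibHD77
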