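import Pool.Agent.LibHD77.T1
import Pool.Agent.LibHyp34.A9

/-!
[HD77 T3a] dependence on a constant coordinate. Proof. If the pattern is not realised all classes are zero
(`cl_zero`). Otherwise fix `M, V, x, y` (`exists_gen`, `Gen V x y`, `cl_eq`). The homomorphism
`(Pt (F a) →₀ ℤ) → CH F D`, `s ↦ cl (δ with s at a)`, vanishes on the divisors of functions (`IsDiv` in
LibHyp34/Defs.lean) by `ext_H` with `H = KC (F a)`, `T a = inl (generic point)`, `T b = inr (pnt δ x y b)` for `b ≠ a`;
so it factors over `Pic (F a)`; `jP s = mk (s - ∞)`.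
-/

open scoped Classical
open Polynomial

namespace Pool.Agent.LibHD77

open Pool.Agent.LibBH2
open Pool.Agent.LibCHd (VR RF Red FunF)
open Pool.Agent.LibHyp34 (Hyp Pt Pic jP Sp KC DCf)
open Pool.Agent.LibHD77.Comb (Pat sub Cmp t1 t2 t3 t4)

variable {k : Type} [Field k] {n : ℕ} {F : Fin n → k[X]} {D : ℕ}

theorem t3a_cmp (δ : Dia F D) (a : Fin n) (h : (δ a).isLeft) (s : Pt (F a)) (V : Fin D → k[X]) :
    Cmp F (Function.update δ a (.inl s) : Dia F D) V ↔ Cmp F δ V := by
  have h0 : ∀ b ε, δ a ≠ .inr (b, ε) := by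
    intro b ε h1
    rw [h1] at h
    exact absurd h (by simp)
  constructor
  · rintro ⟨h1, h2⟩
    refine ⟨fun b => ?_, fun c b ε hc => ?_⟩
    · obtain ⟨c, ε, hc⟩ := h1 b
      by_cases hca : c = a
      · subst hca
        rw [Function.update_self] at hc
        exact absurd hc (by simp)
      · rw [Function.update_of_ne hca] at hc
        exact ⟨c, ε, hc⟩
    · have hca : c ≠ a := by
        rintro rfl
        exact h0 b ε hc
      refine h2 c b ε ?_
      rw [Function.update_of_ne hca]
      exact hc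
  · rintro ⟨h1, h2⟩
    refine ⟨fun b => ?_, fun c b ε hc => ?_⟩
    · obtain ⟨c, ε, hc⟩ := h1 b
      have hca : c ≠ a := by
        rintro rfl
        exact h0 b ε hc
      refine ⟨c, ε, ?_⟩
      rw [Function.update_of_ne hca]
      exact hc
    · by_cases hca : c = a
      · subst hca
        rw [Function.update_self] at hc
        exact absurd hc (by simp)
      · rw [Function.update_of_ne hca] at hc
        exact h2 c b ε hc

theorem t3a_pnt {M : Type} [Field M] [Algebra k M] (δ : Dia F D) (x y : Fin D → M) (a : Fin n)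
    (s : Pt (F a)) :
    pnt (Function.update δ a (.inl s) : Dia F D) x y = Function.update (pnt δ x y) a (cst M s) := by
  funext b
  by_cases hb : b = a
  · subst hb
    rw [Function.update_self]
    unfold pnt
    rw [Function.update_self]
  · rw [Function.update_of_ne hb]
    unfold pnt
    rw [Function.update_of_ne hb]

/-- the homomorphism on divisors -/
noncomputable def t3a_psi {M : Type} [Field M] [Algebra k M] (δ : Dia F D) (x y : Fin D → M)
    (a : Fin n) : (Pt (F a) →₀ ℤ) →+ CH F D :=
  Finsupp.liftAddHom fun s => (zmultiplesHom (CH F D))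
    (cls D (pnt (Function.update δ a (.inl s) : Dia F D) x y))

theorem t3a_psi_single {M : Type} [Field M] [Algebra k M] (δ : Dia F D) (x y : Fin D → M)
    (a : Fin n) (s : Pt (F a)) (m : ℤ) :
    t3a_psi δ x y a (Finsupp.single s m) =
      m • cls D (pnt (Function.update δ a (.inl s) : Dia F D) x y) := by
  unfold t3a_psi
  rw [Finsupp.liftAddHom_apply_single]
  rfl

theorem t3a_div [IsAlgClosed k] [hF : ∀ a, Hyp (F a)] {M : Type} [Field M] [Algebra k M]
    (hM : FunF k D M) (δ : Dia F D) (x y : Fin D → M) (a : Fin n) (c : Pt (F a) →₀ ℤ)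
    (hc : Pool.Agent.LibHyp34.IsDiv (F a) c) : t3a_psi δ x y a c = 0 := by
  obtain ⟨h, S, p, hh, hS, hp, rfl⟩ := hc
  rw [map_sum]
  simp only [t3a_psi_single]
  have hmem : ∑ v ∈ S, v.ord h • cyc (pnt (Function.update δ a (.inl (p v)) : Dia F D) x y) ∈
      RatEq F D := by
    have key := ext_H (funF_KC (F a)) hM
      (Function.update (fun b => (.inr (pnt δ x y b) : MPt (F b) (KC (F a)) ⊕ MPt (F b) M)) a
        (.inl (Pool.Agent.LibHyp34.gen (F a)))) h hh S hS
      (fun v => Function.update (fun b => (.inf : Pt (F b))) a (p v)) (by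
        intro v hv b t ht
        by_cases hb : b = a
        · subst hb
          rw [Function.update_self] at ht
          rw [Function.update_self]
          have ht' := Sum.inl_injective ht
          rw [← ht']
          exact hp v hv
        · rw [Function.update_of_ne hb] at ht
          exact absurd ht (by simp))
    convert key using 4 with v hv
    rw [t3a_pnt]
    funext b
    by_cases hb : b = a
    · subst hb
      simp
    · simp [Function.update_of_ne hb]
  have hq : (QuotientAddGroup.mk (∑ v ∈ S, v.ord h •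
      cyc (pnt (Function.update δ a (.inl (p v)) : Dia F D) x y)) : CH F D) = 0 :=
    (QuotientAddGroup.eq_zero_iff _).2 hmem
  rw [← hq]
  change _ = QuotientAddGroup.mk' (RatEq F D) _
  rw [map_sum]
  refine Finset.sum_congr rfl fun v _ => ?_
  rw [map_zsmul]
  rfl

theorem t3a_lift {G : Type} [AddCommGroup G] (f : k[X]) [Hyp f] (ψ : (Pt f →₀ ℤ) →+ G)
    (h : ∀ c, Pool.Agent.LibHyp34.IsDiv f c → ψ c = 0) :
    ∃ φ : Pic f →+ G, ∀ c, φ (Pool.Agent.LibHyp34.mk f c) = ψ c := by
  have hle : AddSubgroup.closure {c | Pool.Agent.LibHyp34.IsDiv f c} ≤ ψ.ker := by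
    rw [AddSubgroup.closure_le]
    intro c hc
    exact h c hc
  exact ⟨QuotientAddGroup.lift _ ψ hle, fun c => rfl⟩

theorem cl_lin [CharZero k] [IsAlgClosed k] [hF : ∀ a, Hyp (F a)] (δ : Dia F D) (a : Fin n)
    (h : (δ a).isLeft) : ∃ φ : Pic (F a) →+ CH F D, ∀ s : Pt (F a),
      cl (Function.update δ a (.inl s) : Dia F D) =
        cl (Function.update δ a (.inl .inf) : Dia F D) + φ (jP s) := by
  by_cases hV : ∃ V : Fin D → k[X], Cmp F δ V
  · obtain ⟨V, hV⟩ := hV
    have hHyp : ∀ e, Hyp (V e) := by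
      intro e
      obtain ⟨c, ε, hc⟩ := hV.1 e
      rw [hV.2 c e ε hc]
      exact hF c
    obtain ⟨M, _, _, x, y, hg⟩ := exists_gen V hHyp
    have hcl : ∀ s : Pt (F a), cl (Function.update δ a (.inl s) : Dia F D) =
        cls D (pnt (Function.update δ a (.inl s) : Dia F D) x y) := fun s =>
      cl_eq hF _ V x y ((t3a_cmp δ a h s V).2 hV) hg
    obtain ⟨φ, hφ⟩ := t3a_lift (F a) (t3a_psi δ x y a)
      (fun c hc => t3a_div hg.dim δ x y a c hc)
    refine ⟨φ, fun s => ?_⟩
    rw [hcl s, hcl .inf]
    have h1 : φ (jP s) = t3a_psi δ x y a (Finsupp.single s 1 - Finsupp.single .inf 1) := hφ _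
    rw [h1, map_sub, t3a_psi_single, t3a_psi_single, one_zsmul, one_zsmul]
    abel
  · have h0 : ∀ s : Pt (F a), cl (Function.update δ a (.inl s) : Dia F D) = 0 := by
      intro s
      refine cl_zero _ ?_
      rintro ⟨V, hV'⟩
      exact hV ⟨V, (t3a_cmp δ a h s V).1 hV'⟩
    refine ⟨0, fun s => ?_⟩
    rw [h0 s, h0 .inf, AddMonoidHom.zero_apply, add_zero]

end Pool.Agent.LibHD77
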