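import Pool.Agent.LibHD77.T1

/-!
[HD77 T3b] two constant coordinates. Proof. If the pattern is not realised all classes are zero (`cl_zero`).
Otherwise fix `M, V, x, y` (`cl_eq`). The homomorphism `Cyc k 2 → CH F D`, sending the cycle of the point
`(p, q)` (`Finsupp.single (eqs _) 1`; `eqs` determines `p, q`) to `cl (δ with p at a, q at b)` and the other keys to `0`,
vanishes on `RatEq ![F a, F b] 0`: for the data `(K, u, g, S, C)` of `IsDiv` with `d = 0` the residue fields are
`k` (`rat_of_funF`, `k` algebraically closed), so the specialisations are constant points with cycle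
`single _ 1` (`finrank = 1`), `S` contains all places with `v.ord g ≠ 0` (a point has a non-zero cycle), and `ext_H`
applies with `T a = inl (u 0)`, `T b = inl (u 1)`, `T c = inr (pnt δ x y c)`.
-/

open scoped Classical
open Polynomial

namespace Pool.Agent.LibHD77

open Pool.Agent.LibBH2
open Pool.Agent.LibCHd (VR RF Red FunF)
open Pool.Agent.LibHyp34 (Hyp Pt Pic jP Sp KC DCf)
open Pool.Agent.LibHD77.Comb (Pat sub Cmp t1 t2 t3 t4)

variable {k : Type} [Field k] {n : ℕ} {F : Fin n → k[X]} {D : ℕ}

private theorem T3b_surj {K : Type} [Field K] [Algebra k K] (v : Place k K)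
    (h : Pool.Agent.LibCHd.Rat v) : Function.Surjective (algebraMap k (RF v)) := by
  intro c
  obtain ⟨f, hf⟩ := Pool.Agent.LibCHd.exists_rep c
  obtain ⟨c0, h0⟩ := h f hf.reg
  exact ⟨c0, (Pool.Agent.LibCHd.red_iff_val.2 h0).unique hf⟩

private theorem T3b_cst {M : Type} [Field M] [Algebra k M]
    (hs : Function.Surjective (algebraMap k M)) {f : k[X]} (q : MPt f M) :
    ∃ s : Pt f, q = cst M s := by
  match q with
  | .inf => exact ⟨.inf, rfl⟩
  | .aff x y h =>
    obtain ⟨x0, rfl⟩ := hs x
    obtain ⟨y0, rfl⟩ := hs y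
    refine ⟨.aff x0 y0 ?_, rfl⟩
    apply (algebraMap k M).injective
    rw [map_pow, h, eval_map_algebraMap, aeval_algebraMap_apply, coe_aeval_eq_eval]

private theorem T3b_Sp {K : Type} [Field K] [Algebra k K] (v : Place k K) {f : k[X]}
    (T : MPt f K) (s : Pt f) (h : SpR v T (cst (RF v) s)) : Sp v T s := by
  match T, s, h with
  | .inf, .inf, _ => rfl
  | .inf, .aff x y e, h => cases (show (Pt.aff _ _ _ : MPt f (RF v)) = .inf from h)
  | .aff x y e, .inf, h => exact h
  | .aff x y e, .aff x0 y0 e0, h =>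
    exact ⟨Pool.Agent.LibCHd.red_iff_val.1 h.1, Pool.Agent.LibCHd.red_iff_val.1 h.2⟩

/-- the point of the product of two curves -/
private noncomputable def T3b_pp {f g : k[X]} (p : Pt f) (q : Pt g) : Pnt ![f, g] k :=
  fun a => match a with
    | 0 => (cst k p : MPt f k)
    | 1 => (cst k q : MPt g k)

private theorem T3b_eqs {m : ℕ} {F' : Fin m → k[X]} (u u' : Pnt F' k) (h : eqs u = eqs u') :
    u = u' := by
  have h1 : {a | u a = .inf} = {a | u' a = .inf} := congrArg Prod.fst h
  have h2 : {G | MvPolynomial.aeval (co u) G = 0} = {G | MvPolynomial.aeval (co u') G = 0} :=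
    congrArg Prod.snd h
  funext a
  refine mpt_ext ?_ fun c => ?_
  · exact Set.ext_iff.1 h1 a
  · have h3 := (Set.ext_iff.1 h2 (MvPolynomial.X (a, c) - MvPolynomial.C (xy (u a) c))).1 (by
      show MvPolynomial.aeval (co u) _ = 0
      rw [map_sub, MvPolynomial.aeval_X, MvPolynomial.aeval_C]
      show xy (u a) c - xy (u a) c = 0
      rw [sub_self])
    have h4 : MvPolynomial.aeval (co u')
        (MvPolynomial.X (a, c) - MvPolynomial.C (xy (u a) c)) = 0 := h3
    rw [map_sub, MvPolynomial.aeval_X, MvPolynomial.aeval_C] at h4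
    exact (sub_eq_zero.1 h4).symm

private theorem T3b_inj {f : k[X]} {s t : Pt f} (h : (cst k s : MPt f k) = cst k t) : s = t := by
  match s, t, h with
  | .inf, .inf, _ => rfl
  | .inf, .aff x y e, h => cases (show (Pt.inf : MPt f k) = .aff _ _ _ from h)
  | .aff x y e, .inf, h => cases (show (Pt.aff _ _ _ : MPt f k) = .inf from h)
  | .aff x y e, .aff x0 y0 e0, h =>
    have h1 : (Pt.aff (algebraMap k k x) (algebraMap k k y) _ : MPt f k) =
      .aff (algebraMap k k x0) (algebraMap k k y0) _ := h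
    injection h1 with h2 h3
    have h4 : x = x0 := h2
    have h5 : y = y0 := h3
    subst h4
    subst h5
    rfl

private theorem T3b_pp_inj {f g : k[X]} {p p' : Pt f} {q q' : Pt g}
    (h : eqs (T3b_pp p q) = eqs (T3b_pp p' q')) : p = p' ∧ q = q' := by
  have h1 := T3b_eqs _ _ h
  exact ⟨T3b_inj (congrFun h1 0), T3b_inj (congrFun h1 1)⟩

private theorem T3b_cyc {m : ℕ} {F' : Fin m → k[X]} (u : Pnt F' k) :
    cyc u = Finsupp.single (eqs u) 1 := by
  have h1 : fld u = ⊤ := by
    rw [eq_top_iff]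
    intro c _
    exact (fld u).algebraMap_mem c
  have h2 : Module.finrank (fld u) k = 1 := by
    rw [h1]
    exact IntermediateField.finrank_top
  rw [cyc, h2, Nat.cast_one]

/-- the substitution of two constants -/
private noncomputable def T3b_up (δ : Dia F D) (a b : Fin n) (p : Pt (F a)) (q : Pt (F b)) :
    Dia F D := Function.update (Function.update δ a (.inl p)) b (.inl q)

private noncomputable def T3b_ka (δ : Dia F D) (a b : Fin n)
    (e : Set (Fin 2) × Set (MvPolynomial (Fin 2 × Fin 2) k)) : CH F D :=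
  if h : ∃ s : Pt (F a) × Pt (F b), e = eqs (T3b_pp s.1 s.2) then
    cl (T3b_up δ a b h.choose.1 h.choose.2) else 0

private theorem T3b_ka_eqs (δ : Dia F D) (a b : Fin n) (p : Pt (F a)) (q : Pt (F b)) :
    T3b_ka δ a b (eqs (T3b_pp p q)) = cl (T3b_up δ a b p q) := by
  have h : ∃ s : Pt (F a) × Pt (F b), eqs (T3b_pp p q) = eqs (T3b_pp s.1 s.2) := ⟨(p, q), rfl⟩
  rw [T3b_ka, dif_pos h]
  obtain ⟨h1, h2⟩ := T3b_pp_inj h.choose_spec
  rw [← h1, ← h2]

private noncomputable def T3b_Ps (δ : Dia F D) (a b : Fin n) : Cyc k 2 →+ CH F D :=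
  Finsupp.liftAddHom fun e => zmultiplesHom _ (T3b_ka δ a b e)

private theorem T3b_Ps_pp (δ : Dia F D) (a b : Fin n) (p : Pt (F a)) (q : Pt (F b)) :
    T3b_Ps δ a b (cyc (T3b_pp p q)) = cl (T3b_up δ a b p q) := by
  rw [T3b_cyc, T3b_Ps, Finsupp.liftAddHom_apply_single, zmultiplesHom_apply, one_smul,
    T3b_ka_eqs]

/-- the patterns with constants at `a` and `b` -/
private theorem T3b_cmp {δ : Dia F D} {a b : Fin n} (ha : (δ a).isLeft) (hb : (δ b).isLeft)
    (p : Pt (F a)) (q : Pt (F b)) (V : Fin D → k[X]) :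
    Cmp F (T3b_up δ a b p q) V ↔ Cmp F δ V := by
  have key : ∀ c e (ε : ℤˣ), T3b_up δ a b p q c = .inr (e, ε) ↔ δ c = .inr (e, ε) := by
    intro c e ε
    unfold T3b_up
    by_cases hcb : c = b
    · subst hcb
      rw [Function.update_self]
      constructor
      · intro h
        cases h
      · intro h
        rw [h] at hb
        cases hb
    · rw [Function.update_of_ne hcb]
      by_cases hca : c = a
      · subst hca
        rw [Function.update_self]
        constructor
        · intro h
          cases h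
        · intro h
          rw [h] at ha
          cases ha
      · rw [Function.update_of_ne hca]
  constructor
  · rintro ⟨h1, h2⟩
    refine ⟨fun e => ?_, fun c e ε h => h2 c e ε ((key c e ε).2 h)⟩
    obtain ⟨c, ε, h⟩ := h1 e
    exact ⟨c, ε, (key c e ε).1 h⟩
  · rintro ⟨h1, h2⟩
    refine ⟨fun e => ?_, fun c e ε h => h2 c e ε ((key c e ε).1 h)⟩
    obtain ⟨c, ε, h⟩ := h1 e
    exact ⟨c, ε, (key c e ε).2 h⟩

/-- the homomorphism vanishes on the divisors of functions -/
private theorem T3b_zero [CharZero k] [IsAlgClosed k] (hF : ∀ a, Hyp (F a)) (δ : Dia F D)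
    (a b : Fin n) (hab : a ≠ b) (ha : (δ a).isLeft) (hb : (δ b).isLeft) {M : Type} [Field M]
    [Algebra k M] (V : Fin D → k[X]) (x y : Fin D → M) (hV : Cmp F δ V) (hg : Gen V x y)
    (c : Cyc k 2) (hc : IsDiv ![F a, F b] 0 c) : T3b_Ps δ a b c = 0 := by
  obtain ⟨K, _, _, u, g, S, C, hK, hg0, hS, hS', rfl⟩ := hc
  have hK1 : FunF k 1 K := hK
  have hrat : ∀ v : Place k K, Pool.Agent.LibCHd.Rat v := fun v =>
    Pool.Agent.LibCHd.rat_of_funF hK1 v
  let ε : ∀ v : Place k K, k ≃ₐ[k] RF v := fun v =>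
    AlgEquiv.ofBijective (Algebra.ofId k (RF v)) ⟨(algebraMap k (RF v)).injective,
      T3b_surj v (hrat v)⟩
  -- the specialisations
  have hq : ∀ (v : Place k K) (q : Pnt ![F a, F b] (RF v)), (∀ i, SpR v (u i) (q i)) →
      ∃ (s : Pt (F a)) (t : Pt (F b)), Sp v (f := F a) (u 0) s ∧ Sp v (f := F b) (u 1) t ∧
        cyc q = cyc (T3b_pp s t) := by
    intro v q hq
    obtain ⟨s, hs⟩ := T3b_cst (f := F a) (T3b_surj v (hrat v)) (q 0)
    obtain ⟨t, ht⟩ := T3b_cst (f := F b) (T3b_surj v (hrat v)) (q 1)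
    have h0 : SpR v (f := F a) (u 0) (q 0) := hq 0
    have h1 : SpR v (f := F b) (u 1) (q 1) := hq 1
    rw [hs] at h0
    rw [ht] at h1
    refine ⟨s, t, T3b_Sp v _ s h0, T3b_Sp v _ t h1, ?_⟩
    have h2 : q = fun i => mpt (ε v : k →ₐ[k] RF v) (T3b_pp s t i) := by
      refine funext (Fin.forall_fin_two.2 ⟨?_, ?_⟩)
      · exact hs.trans (mpt_cst (ε v : k →ₐ[k] RF v) s).symm
      · exact ht.trans (mpt_cst (ε v : k →ₐ[k] RF v) t).symm
    rw [h2, cyc_mpt]
  have hex : ∀ v : Place k K, ∃ (s : Pt (F a)) (t : Pt (F b)), Sp v (f := F a) (u 0) s ∧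
      Sp v (f := F b) (u 1) t := by
    intro v
    choose q hq0 using fun i => SpR_exists v (u i)
    obtain ⟨s, t, h1, h2, -⟩ := hq v q hq0
    exact ⟨s, t, h1, h2⟩
  have hfun : ∀ v : Place k K, FunF k 0 (RF v) := by
    intro v
    refine Pool.Agent.LibCHd.FunF.congr (ε v) ⟨Fin.elim0, ?_, ?_⟩
    · exact algebraicIndependent_empty_type
    · exact Module.Finite.of_restrictScalars_finite k _ _
  have hne : ∀ (v : Place k K) (q : Pnt ![F a, F b] (RF v)), (∀ i, SpR v (u i) (q i)) →
      cyc q ≠ 0 := by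
    intro v q hq0
    obtain ⟨s, t, -, -, h3⟩ := hq v q hq0
    rw [h3, T3b_cyc]
    intro h
    exact one_ne_zero (Finsupp.single_eq_zero.1 h)
  have hSS : ∀ v : Place k K, v.ord g ≠ 0 → v ∈ S := by
    intro v hv
    by_contra hvS
    choose q hq0 using fun i => SpR_exists v (u i)
    exact hne v q hq0 (hS' v hvS hv (hfun v) q hq0)
  -- the cycles of the specialisations
  have hpick : ∀ v : Place k K, ∃ (s : Pt (F a)) (t : Pt (F b)),
      (v ∈ S → Sp v (f := F a) (u 0) s ∧ Sp v (f := F b) (u 1) t ∧ C v = cyc (T3b_pp s t)) := by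
    intro v
    by_cases hv : v ∈ S
    · obtain ⟨-, q, h1, h2⟩ := hS v hv
      obtain ⟨s, t, h3, h4, h5⟩ := hq v q h1
      exact ⟨s, t, fun _ => ⟨h3, h4, h2.trans h5⟩⟩
    · exact ⟨.inf, .inf, fun h => absurd h hv⟩
  choose s t hst using hpick
  have h1 : ∀ v ∈ S, T3b_Ps δ a b (v.ord g • C v) =
      v.ord g • cls D (pnt (T3b_up δ a b (s v) (t v)) x y) := by
    intro v hv
    rw [map_zsmul, (hst v hv).2.2, T3b_Ps_pp,
      cl_eq hF _ V x y ((T3b_cmp ha hb (s v) (t v) V).2 hV) hg]
  rw [map_sum, Finset.sum_congr rfl h1]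
  -- the external product
  let T : ∀ c, MPt (F c) K ⊕ MPt (F c) M :=
    Function.update (Function.update (fun c => Sum.inr (pnt δ x y c)) a (Sum.inl (u 0))) b
      (Sum.inl (u 1))
  let P : Place k K → ∀ c, Pt (F c) := fun v =>
    Function.update (Function.update (fun c => (.inf : Pt (F c))) a (s v)) b (t v)
  have hTP : ∀ v : Place k K, (fun c => Sum.elim (fun _ => cst M (P v c)) id (T c)) =
      (pnt (T3b_up δ a b (s v) (t v)) x y : Pnt F M) := by
    intro v
    funext c
    show Sum.elim (fun _ => cst M (P v c)) id (T c) = pnt (T3b_up δ a b (s v) (t v)) x y c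
    by_cases hcb : c = b
    · subst hcb
      have e1 : T c = Sum.inl (u 1) := Function.update_self _ _ _
      have e2 : P v c = t v := Function.update_self _ _ _
      have e3 : T3b_up δ a c (s v) (t v) c = .inl (t v) := Function.update_self _ _ _
      rw [e1, e2]
      unfold pnt
      rw [e3]
      rfl
    · by_cases hca : c = a
      · subst hca
        have e1 : T c = Sum.inl (u 0) :=
          (Function.update_of_ne hcb _ _).trans (Function.update_self _ _ _)
        have e2 : P v c = s v :=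
          (Function.update_of_ne hcb _ _).trans (Function.update_self _ _ _)
        have e3 : T3b_up δ c b (s v) (t v) c = .inl (s v) :=
          (Function.update_of_ne hcb _ _).trans (Function.update_self _ _ _)
        rw [e1, e2]
        unfold pnt
        rw [e3]
        rfl
      · have e1 : T c = Sum.inr (pnt δ x y c) :=
          (Function.update_of_ne hcb _ _).trans (Function.update_of_ne hca _ _)
        have e3 : T3b_up δ a b (s v) (t v) c = δ c :=
          (Function.update_of_ne hcb _ _).trans (Function.update_of_ne hca _ _)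
        rw [e1]
        unfold pnt
        rw [e3]
        rfl
  have h2 := ext_H (F := F) hK1 hg.dim T g hg0 S hSS P (by
    intro v hv c t' ht'
    by_cases hcb : c = b
    · subst hcb
      have e1 : T c = Sum.inl (u 1) := Function.update_self _ _ _
      have e2 : P v c = t v := Function.update_self _ _ _
      rw [e1] at ht'
      rw [e2, ← Sum.inl.inj ht']
      exact (hst v hv).2.1
    · by_cases hca : c = a
      · subst hca
        have e1 : T c = Sum.inl (u 0) :=
          (Function.update_of_ne hcb _ _).trans (Function.update_self _ _ _)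
        have e2 : P v c = s v :=
          (Function.update_of_ne hcb _ _).trans (Function.update_self _ _ _)
        rw [e1] at ht'
        rw [e2, ← Sum.inl.inj ht']
        exact (hst v hv).1
      · have e1 : T c = Sum.inr (pnt δ x y c) :=
          (Function.update_of_ne hcb _ _).trans (Function.update_of_ne hca _ _)
        rw [e1] at ht'
        cases ht')
  have h3 : (QuotientAddGroup.mk (∑ v ∈ S, v.ord g •
      cyc (fun c => Sum.elim (fun _ => cst M (P v c)) id (T c))) : CH F D) = 0 :=
    (QuotientAddGroup.eq_zero_iff _).2 h2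
  rw [← h3]
  change _ = QuotientAddGroup.mk' (RatEq F D) _
  rw [map_sum]
  refine Finset.sum_congr rfl fun v _ => ?_
  rw [map_zsmul, hTP]
  rfl

theorem cl_orth [CharZero k] [IsAlgClosed k] (hF : ∀ a, Hyp (F a)) (δ : Dia F D) (a b : Fin n)
    (hab : a ≠ b) (ha : (δ a).isLeft) (hb : (δ b).isLeft) (p : Pt (F a)) (q : Pt (F b))
    (h : IsOfFinAddOrder (sq p q)) :
    IsOfFinAddOrder (cl (Function.update (Function.update δ a (.inl p)) b (.inl q) : Dia F D) -
      cl (Function.update (Function.update δ a (.inl p)) b (.inl .inf) : Dia F D) -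
      cl (Function.update (Function.update δ a (.inl .inf)) b (.inl q) : Dia F D) +
      cl (Function.update (Function.update δ a (.inl .inf)) b (.inl .inf) : Dia F D)) := by
  by_cases hV : ∃ V : Fin D → k[X], Cmp F δ V
  · obtain ⟨V, hV⟩ := hV
    have hVH : ∀ e, Hyp (V e) := by
      intro e
      obtain ⟨c, ε, hc⟩ := hV.1 e
      rw [hV.2 c e ε hc]
      exact hF c
    obtain ⟨M, _, _, x, y, hg⟩ := exists_gen V hVH
    let Ψ : CH ![F a, F b] 0 →+ CH F D := QuotientAddGroup.lift _ (T3b_Ps δ a b) (by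
      rw [RatEq, AddSubgroup.closure_le]
      intro c hc
      exact T3b_zero hF δ a b hab ha hb V x y hV hg c hc)
    have hΨ : ∀ (p' : Pt (F a)) (q' : Pt (F b)), Ψ (pt2 p' q') =
        cl (T3b_up δ a b p' q') := fun p' q' => T3b_Ps_pp δ a b p' q'
    have h1 := Ψ.isOfFinAddOrder h
    rw [sq, map_add, map_sub, map_sub, hΨ, hΨ, hΨ, hΨ] at h1
    exact h1
  · have h0 : ∀ (p' : Pt (F a)) (q' : Pt (F b)), cl (T3b_up δ a b p' q') = 0 := by
      intro p' q'
      refine cl_zero _ ?_
      rintro ⟨V, h1⟩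
      exact hV ⟨V, (T3b_cmp ha hb p' q' V).1 h1⟩
    have e1 := h0 p q
    have e2 := h0 p .inf
    have e3 := h0 .inf q
    have e4 := h0 .inf .inf
    unfold T3b_up at e1 e2 e3 e4
    rw [e1, e2, e3, e4, sub_self, sub_self, add_zero]
    exact IsOfFinAddOrder.zero

end Pool.Agent.LibHD77
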