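import Pool.Agent.LibHD77.T4a
import Pool.Agent.LibHC34.PairG

/-!
[HD77 T4b] orthogonal points from functions on a curve. Proof. `Data P Q` (LibHC34/Data.lean) gives a curve `H` with maps to
`C_f`, `C_g` and a function `φ`; `ext_H` with `d = 0`, `n = 2`, `M = k`, `F = ![f, g]` gives
`∑ ord_v φ (p v, q v) = 0`, and the same with constant components (one or both coordinates `inr` of the point at
infinity), so `∑ ord_v φ • sq (p v) (q v) = 0` (`Spec v (.inr j) (vp (p v))` gives `Sp v (image of the generic point)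
(p v)`); at the poles `neg (p v) = p v` or `neg (q v) = q v` (`sq_weier`), at the zeros `(p v, q v) = ± (P, Q)` and
`sq (neg P) (neg Q) = sq P Q` (`sq_bilin`, `jP_neg`); there is a zero. Compare `vU_zero`, `pairU_of_data` in
LibHC34/FamPush.lean.
-/

open scoped Classical
open Polynomial

namespace Pool.Agent.LibHD77

open Pool.Agent.LibBH2
open Pool.Agent.LibCHd (VR RF Red FunF)
open Pool.Agent.LibHyp34 (Hyp Pt Pic jP Sp KC DCf neg)
open Pool.Agent.LibHC34 (Data)
open Pool.Agent.LibLP34 (sat)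

variable {k : Type} [Field k] [CharZero k] [IsAlgClosed k] {f g : k[X]} [Hyp f] [Hyp g]

section aux

omit [CharZero k] [IsAlgClosed k] in
theorem t4b_funF_one {H : Type} [Field H] [Algebra k H]
    (hH : Pool.Agent.LibQC8.IsFunctionField k H) : FunF k 1 H := by
  obtain ⟨s, hs, hf⟩ := hH
  refine ⟨fun _ => s, ?_, ?_⟩
  · rw [algebraicIndependent_unique_type_iff]
    exact hs
  · have h1 : (Set.range fun _ : Fin 1 => s) = {s} := Set.range_const
    rw [h1]
    exact hf

omit [CharZero k] [IsAlgClosed k] in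
theorem t4b_funF_zero : FunF k 0 k := by
  refine ⟨fun i => i.elim0, ?_, ?_⟩
  · exact algebraicIndependent_empty_type_iff.2 (FaithfulSMul.algebraMap_injective k k)
  · exact inferInstance

omit [CharZero k] [Hyp f] [Hyp g] in
/-- a principal zero-cycle given by two coordinates, each of which is given by a map from the curve of `H` or
is constant -/
theorem t4b_sum_pt2 {H : Type} [Field H] [Algebra k H] (hH : FunF k 1 H)
    (T₀ : MPt f H ⊕ MPt f k) (T₁ : MPt g H ⊕ MPt g k) {φ : H} (hφ : φ ≠ 0)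
    (S : Finset (Place k H)) (hS : ∀ v, v.ord φ ≠ 0 → v ∈ S) (p : Place k H → Pt f)
    (q : Place k H → Pt g)
    (hp : ∀ v ∈ S, ∀ t, T₀ = .inl t → Sp v t (p v))
    (hq : ∀ v ∈ S, ∀ t, T₁ = .inl t → Sp v t (q v))
    (hp' : ∀ v ∈ S, ∀ t, T₀ = .inr t → t = cst k (p v))
    (hq' : ∀ v ∈ S, ∀ t, T₁ = .inr t → t = cst k (q v)) :
    ∑ v ∈ S, v.ord φ • pt2 (p v) (q v) = 0 := by
  have h1 := ext_H (F := ![f, g]) (d := 0) (M := k) hH t4b_funF_zero
    (fun a => match a with
      | 0 => (T₀ : MPt f H ⊕ MPt f k)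
      | 1 => (T₁ : MPt g H ⊕ MPt g k)) φ hφ S hS
    (fun v a => match a with
      | 0 => (p v : Pt f)
      | 1 => (q v : Pt g)) (by
        intro v hv a
        fin_cases a
        · intro t ht
          exact hp v hv t ht
        · intro t ht
          exact hq v hv t ht)
  have h2 := (QuotientAddGroup.eq_zero_iff (N := RatEq ![f, g] 0) _).2 h1
  rw [← h2]
  rw [← QuotientAddGroup.mk'_apply, map_sum]
  refine Finset.sum_congr rfl fun v hv => ?_
  rw [map_zsmul]
  congr 1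
  rw [pt2, cls]
  rw [QuotientAddGroup.mk'_apply]
  congr 2
  funext a
  fin_cases a
  · show cst k (p v) = Sum.elim (fun _ => cst k (p v)) id T₀
    rcases h : T₀ with t | t
    · rfl
    · exact (hp' v hv t h).symm
  · show cst k (q v) = Sum.elim (fun _ => cst k (q v)) id T₁
    rcases h : T₁ with t | t
    · rfl
    · exact (hq' v hv t h).symm

omit [CharZero k] [Hyp f] [Hyp g] in
theorem t4b_sum_sq {H : Type} [Field H] [Algebra k H] (hH : FunF k 1 H)
    (T₀ : MPt f H) (T₁ : MPt g H) {φ : H} (hφ : φ ≠ 0)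
    (S : Finset (Place k H)) (hS : ∀ v, v.ord φ ≠ 0 → v ∈ S) (p : Place k H → Pt f)
    (q : Place k H → Pt g)
    (hp : ∀ v ∈ S, Sp v T₀ (p v)) (hq : ∀ v ∈ S, Sp v T₁ (q v)) :
    ∑ v ∈ S, v.ord φ • sq (p v) (q v) = 0 := by
  have h1 := t4b_sum_pt2 hH (.inl T₀) (.inl T₁) hφ S hS p q
    (fun v hv t ht => by cases ht; exact hp v hv) (fun v hv t ht => by cases ht; exact hq v hv)
    (fun v hv t ht => by cases ht) (fun v hv t ht => by cases ht)
  have h2 := t4b_sum_pt2 (g := g) hH (.inl T₀) (.inr (cst k .inf)) hφ S hS p (fun _ => .inf)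
    (fun v hv t ht => by cases ht; exact hp v hv) (fun v hv t ht => by cases ht)
    (fun v hv t ht => by cases ht) (fun v hv t ht => by cases ht; rfl)
  have h3 := t4b_sum_pt2 (f := f) hH (.inr (cst k .inf)) (.inl T₁) hφ S hS (fun _ => .inf) q
    (fun v hv t ht => by cases ht) (fun v hv t ht => by cases ht; exact hq v hv)
    (fun v hv t ht => by cases ht; rfl) (fun v hv t ht => by cases ht)
  have h4 := t4b_sum_pt2 (f := f) (g := g) hH (.inr (cst k .inf)) (.inr (cst k .inf)) hφ S hS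
    (fun _ => .inf) (fun _ => .inf)
    (fun v hv t ht => by cases ht) (fun v hv t ht => by cases ht)
    (fun v hv t ht => by cases ht; rfl) (fun v hv t ht => by cases ht; rfl)
  have h5 : ∀ v : Place k H, v.ord φ • sq (p v) (q v) =
      v.ord φ • pt2 (p v) (q v) - v.ord φ • pt2 (p v) (.inf : Pt g) -
        v.ord φ • pt2 (.inf : Pt f) (q v) + v.ord φ • pt2 (.inf : Pt f) (.inf : Pt g) := by
    intro v
    rw [sq, zsmul_add, zsmul_sub, zsmul_sub]
  rw [Finset.sum_congr rfl fun v _ => h5 v, Finset.sum_add_distrib, Finset.sum_sub_distrib,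
    Finset.sum_sub_distrib, h1, h2, h3, h4]
  simp

/-- the generic point of the curve, seen on the curve of `H` -/
theorem t4b_Sp {H : Type} [Field H] [Algebra k H] (j : KC f →ₐ[k] H) (v : Place k H) (P : Pt f)
    (h : Pool.Agent.LibQC8.Spec v (.inr j) (Pool.Agent.LibHyp34.vp P)) :
    Sp v (mpt j (Pool.Agent.LibHyp34.gen f)) P := by
  have hsp := Pool.Agent.LibHyp34.sp_vp P
  have h' : ∀ g : KC f, 0 < (Pool.Agent.LibHyp34.vp P).ord g → 0 < v.ord (j g) := h
  have hz : ∀ g : KC f, (Pool.Agent.LibHyp34.vp P).Zer g → v.Zer (j g) := by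
    rintro g (rfl | hg)
    · left; rw [map_zero]
    · right; exact h' g hg
  match P, hsp, h', hz with
  | .inf, hsp, h', hz =>
    show v.ord (j (DCf f).s) < 0
    have h1 : (Pool.Agent.LibHyp34.vp (.inf : Pt f)).ord (DCf f).s < 0 := hsp
    have h2 := h' (DCf f).s⁻¹ (by rw [Place.ord_inv]; omega)
    rw [map_inv₀, Place.ord_inv] at h2
    omega
  | .aff ξ η h0, hsp, h', hz =>
    refine ⟨?_, ?_⟩
    · have := hz _ hsp.1
      rwa [map_sub, j.commutes] at this
    · have := hz _ hsp.2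
      rwa [map_sub, j.commutes] at this

theorem t4b_sq_neg (P : Pt f) (Q : Pt g) : sq (neg P) (neg Q) = sq P Q := by
  obtain ⟨β, hβ⟩ := sq_bilin (f := f) (g := g)
  rw [← hβ, ← hβ, Pool.Agent.LibHyp34.jP_neg, Pool.Agent.LibHyp34.jP_neg, map_neg, map_neg,
    AddMonoidHom.neg_apply, neg_neg]

end aux

theorem sq_data {P : Pt f} {Q : Pt g} (h : Data P Q) : IsOfFinAddOrder (sq P Q) := by
  obtain ⟨H, _, _, j, j', φ, p, q, hH, hφ, hp, hq, h0, h1⟩ := h
  obtain ⟨hfin, -⟩ := Pool.Agent.LibEnd77.Val8.sum_formula hH φ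
  have hφ0 : φ ≠ 0 := by
    rintro rfl
    exact hφ isAlgebraic_zero
  have h2 := t4b_sum_sq (t4b_funF_one hH) (mpt j (Pool.Agent.LibHyp34.gen f))
    (mpt j' (Pool.Agent.LibHyp34.gen g)) hφ0 hfin.toFinset (fun v hv => hfin.mem_toFinset.2 hv) p q
    (fun v _ => t4b_Sp j v (p v) (hp v)) (fun v _ => t4b_Sp j' v (q v) (hq v))
  -- modulo torsion
  obtain ⟨π, hπ⟩ : ∃ π : CH ![f, g] 0 →+ CH ![f, g] 0 ⧸ AddCommGroup.torsion (CH ![f, g] 0),
    π = QuotientAddGroup.mk' (AddCommGroup.torsion (CH ![f, g] 0)) := ⟨_, rfl⟩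
  have hπ0 : ∀ x, π x = 0 ↔ IsOfFinAddOrder x := by
    intro x
    rw [hπ, QuotientAddGroup.mk'_apply, QuotientAddGroup.eq_zero_iff]
    rfl
  have h3 := congrArg π h2
  rw [map_sum, map_zero] at h3
  have h4 : ∀ v ∈ hfin.toFinset, π (v.ord φ • sq (p v) (q v)) = (max (v.ord φ) 0) • π (sq P Q) := by
    intro v hv
    have hv : v.ord φ ≠ 0 := hfin.mem_toFinset.1 hv
    rw [map_zsmul]
    rcases lt_or_gt_of_ne hv with h | h
    · rw [(hπ0 _).2 (sq_weier (h1 v h)), max_eq_right h.le, smul_zero, zero_smul]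
    · rw [max_eq_left h.le]
      rcases h0 v h with ⟨e1, e2⟩ | ⟨e1, e2⟩
      · rw [e1, e2]
      · rw [e1, e2, t4b_sq_neg]
  rw [Finset.sum_congr rfl h4, ← Finset.sum_smul] at h3
  obtain ⟨v, hv⟩ := Pool.Agent.LibEnd77.Val8.exists_zero hH hφ
  have h5 : 0 < ∑ v ∈ hfin.toFinset, max (v.ord φ) 0 := by
    refine Finset.sum_pos' (fun v _ => le_max_right _ _) ⟨v, ?_, ?_⟩
    · exact hfin.mem_toFinset.2 hv.ne'
    · exact lt_of_lt_of_le hv (le_max_left _ _)
  obtain ⟨n, hn⟩ := Int.eq_ofNat_of_zero_le h5.le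
  have hn0 : 0 < n := by omega
  rw [hn, natCast_zsmul, ← map_nsmul, hπ0] at h3
  obtain ⟨m, hm, hm'⟩ := h3.exists_nsmul_eq_zero
  rw [← mul_nsmul] at hm'
  exact isOfFinAddOrder_iff_nsmul_eq_zero.2 ⟨n * m, Nat.mul_pos hn0 hm, hm'⟩

end Pool.Agent.LibHD77
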