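import Pool.Agent.LibHD77.C5
import Pool.Agent.LibHD77.R1
import Pool.Agent.LibHD77.T2a
import Pool.Agent.LibHD77.T2b
import Pool.Agent.LibHD77.T3a
import Pool.Agent.LibHD77.T3b
import Pool.Agent.LibHD77.T4b
import Pool.Agent.LibHD77.Stmt

/-!
[HD77 F1] the theorems. Proofs. `G = CH ⧸ torsion` has no torsion; `Φ δ` the class of `cl δ`; `sys`: `Sys` with
`l = ι`?? the labels are the polynomials `f (ι a)` (`Cmp (Pr ι f)`), `A a = Pt (f (ι a))`, `o = og`, `j = jP`,
`S a = {inf} ∪ S (ι a)`: `cl_perm`, `cl_par`, `cl_lin`, `cl_orth` (`sq` with a point at infinity is zero).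
`by_numbers`: `comb` and `cl_isPt`, `isPt_pnt` (the definitions `vec`, `fx` agree).
`orth_close`: `pairG` (LibHC34), `sq_weier`, `sq_data`, `sq_sat`.
-/

open scoped Classical
open Polynomial

namespace Pool.Agent.LibHD77

open Pool.Agent.LibBH2
open Pool.Agent.LibCHd (VR RF Red FunF)
open Pool.Agent.LibHyp34 (Hyp Pt Pic jP Sp KC DCf)
open Pool.Agent.LibHD77.Comb (Pat sub Cmp t1 t2 t3 t4 Sys)
open Pool.Agent.LibHC34 (BrAt Over)

variable {k : Type} [Field k] [CharZero k] [IsAlgClosed k] {I : Type}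

theorem mk_eq_zero_iff {G : Type} [AddCommGroup G] (x : G) :
    (QuotientAddGroup.mk x : G ⧸ AddCommGroup.torsion G) = 0 ↔ IsOfFinAddOrder x := by
  rw [QuotientAddGroup.eq_zero_iff]
  rfl

theorem tf_quot {G : Type} [AddCommGroup G] (m : ℕ) (g : G ⧸ AddCommGroup.torsion G) (hm : m ≠ 0)
    (h : m • g = 0) : g = 0 := by
  obtain ⟨x, rfl⟩ := QuotientAddGroup.mk_surjective g
  rw [← QuotientAddGroup.mk_nsmul, mk_eq_zero_iff, isOfFinAddOrder_iff_nsmul_eq_zero] at h
  obtain ⟨n, hn, h1⟩ := h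
  rw [mk_eq_zero_iff, isOfFinAddOrder_iff_nsmul_eq_zero]
  exact ⟨n * m, Nat.mul_pos hn (Nat.pos_of_ne_zero hm), by rw [mul_nsmul', h1]⟩

theorem sys (f : I → k[X]) [∀ i, Hyp (f i)] (S : ∀ i, Set (Pt (f i))) (hS : Orth f S) {n D : ℕ}
    (ι : Fin n → I) :
    Sys (Pr ι f) (og (Pr ι f)) (fun a s => jP s) (fun a => {s | s = .inf ∨ s ∈ S (ι a)})
      (fun δ : Dia (Pr ι f) D =>
        (QuotientAddGroup.mk (cl δ) : CH (Pr ι f) D ⧸ AddCommGroup.torsion (CH (Pr ι f) D))) := by
  have hH : ∀ a, Hyp (Pr ι f a) := fun a => inferInstanceAs (Hyp (f (ι a)))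
  refine ⟨tf_quot, fun a => Pool.Agent.LibHyp34.jP_inf (Pr ι f a), fun a => Or.inl rfl, ?_, ?_, ?_, ?_⟩
  · intro π η δ
    exact congrArg _ (cl_perm hH π η δ)
  · intro δ V h e he
    have h1 := cl_par hH δ V h e he
    have h2 := congrArg (QuotientAddGroup.mk' (AddCommGroup.torsion (CH (Pr ι f) D))) h1
    rw [map_add, map_add, map_nsmul, map_nsmul] at h2
    exact h2
  · intro δ a h
    obtain ⟨φ, hφ⟩ := cl_lin δ a h
    refine ⟨(QuotientAddGroup.mk' (AddCommGroup.torsion (CH (Pr ι f) D))).comp φ, fun s => ?_⟩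
    have h2 := congrArg (QuotientAddGroup.mk' (AddCommGroup.torsion (CH (Pr ι f) D))) (hφ s)
    rw [map_add] at h2
    exact h2
  · intro δ a b hab ha hb p hp q hq
    have hsq : IsOfFinAddOrder (sq p q) := by
      rcases hp with rfl | hp
      · have h0 : sq (.inf : Pt (Pr ι f a)) q = 0 := by
          unfold sq
          abel
        rw [h0]
        exact IsOfFinAddOrder.zero
      · rcases hq with rfl | hq
        · have h0 : sq p (.inf : Pt (Pr ι f b)) = 0 := by
            unfold sq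
            abel
          rw [h0]
          exact IsOfFinAddOrder.zero
        · exact hS (ι a) (ι b) p hp q hq
    have h1 := (mk_eq_zero_iff _).2 (cl_orth hH δ a b hab ha hb p q hsq)
    exact h1

theorem vec_eq {n D : ℕ} {F : Fin n → k[X]} (δ : Dia F D) (e : Fin D) :
    Comb.vec δ e = vec δ e := by
  ext a
  unfold Comb.vec vec
  rcases h : δ a with s | q
  · simp only []
  · simp only []

theorem fx_eq {n D : ℕ} {F : Fin n → k[X]} [∀ a, Hyp (F a)] (δ : Dia F D) (a : Fin n) :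
    Comb.fx (fun a (s : Pt (F a)) => jP s) δ a = fx δ a := by
  unfold Comb.fx fx
  rcases h : δ a with s | q
  · simp only []
  · simp only []

theorem by_numbers (f : I → k[X]) [∀ i, Hyp (f i)] (S : ∀ i, Set (Pt (f i))) (hS : Orth f S) :
    ByNumbers f S := by
  intro n ι D J _ m δ M _ _ u hu hv
  have hH : ∀ a, Hyp (Pr ι f a) := fun a => inferInstanceAs (Hyp (f (ι a)))
  have h1 := Comb.comb (sys f S hS ι (D := D)) m δ (fun i => by
    obtain ⟨V, x, y, h, -, -⟩ := isPt_pnt hH (δ i) (u i) (hu i).1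
    exact ⟨V, h⟩) (fun i a s h => (hu i).2 a s h) (fun q => by
      simp only [vec_eq]
      exact (hv q).1) (fun q a => by
      simp only [vec_eq, fx_eq]
      exact (hv q).2 a)
  rw [← mk_eq_zero_iff, ← h1]
  have h2 : ∀ j, cls D (u j) = cl (δ j) := fun j => (cl_isPt hH (δ j) (u j) (hu j).1).symm
  simp only [h2]
  exact map_sum (QuotientAddGroup.mk' (AddCommGroup.torsion (CH (Pr ι f) D))) _ _

theorem orth_close {J : Type} (f : I → k[X]) [∀ i, Hyp (f i)] (g : I → J → GL (Fin 2) k)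
    (hg : Close f g) (z : OnePoint k) (R : ∀ i, J → Pt (f i)) (hR : Over g z R) :
    Orth f (Sat f R) := by
  intro i j p hp q hq
  refine sq_sat (S := Set.range (R i)) (T := Set.range (R j)) ?_ p q ?_ ?_
  · rintro _ ⟨a, rfl⟩ _ ⟨b, rfl⟩
    rcases Pool.Agent.LibHC34.pairG (hg i j a b) z (hR i a) (hR j b) with h | h | h
    · exact sq_weier (Or.inl h)
    · exact sq_weier (Or.inr h)
    · exact sq_data h
  · rw [← Set.range_comp]
    exact hp
  · rw [← Set.range_comp]
    exact hq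

end Pool.Agent.LibHD77
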