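import Pool.Agent.LibHD77.F1

/-!
[HD77 F2] the rank. Proof. `Comb.rank_le` for `sys` with `r a = r (ι a)` (the closure of the `jP s`, `s = inf` or
`s ∈ S (ι a)`, is that of `jP '' S (ι a)`, because `jP inf = 0`); `DG` maps onto a subgroup of the group there
(`isPt_pnt`, `cl_isPt`), and dividing by the torsion subgroup does not change the rank.
-/

open scoped Classical
open Polynomial

namespace Pool.Agent.LibHD77

open Pool.Agent.LibHyp34 (Hyp Pt Pic jP)

variable {k : Type} [Field k] [CharZero k] [IsAlgClosed k] {I : Type}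

/-- a subgroup whose image modulo torsion is in `H` has at most the rank of `H` -/
theorem F2_rank_le {A : Type} [AddCommGroup A] (U : AddSubgroup A)
    (H : AddSubgroup (A ⧸ AddCommGroup.torsion A))
    (h : U ≤ H.comap (QuotientAddGroup.mk' (AddCommGroup.torsion A))) :
    Module.rank ℤ U ≤ Module.rank ℤ H := by
  let φ : U →+ H := ((QuotientAddGroup.mk' (AddCommGroup.torsion A)).comp U.subtype).codRestrict H
    (fun u => h u.2)
  have h1 := LinearMap.rank_range_add_rank_ker φ.toIntLinearMap
  have h2 : Module.rank ℤ (LinearMap.ker φ.toIntLinearMap) = 0 := by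
    rw [rank_eq_zero_iff]
    rintro ⟨u, hu⟩
    rw [LinearMap.mem_ker] at hu
    have h3 : (QuotientAddGroup.mk (u : A) : A ⧸ AddCommGroup.torsion A) = 0 :=
      congrArg Subtype.val hu
    rw [QuotientAddGroup.eq_zero_iff] at h3
    obtain ⟨m, hm, hm'⟩ := isOfFinAddOrder_iff_nsmul_eq_zero.1 h3
    refine ⟨m, by exact_mod_cast hm.ne', ?_⟩
    apply Subtype.ext
    apply Subtype.ext
    rw [natCast_zsmul]
    exact hm'
  rw [h2, add_zero] at h1
  rw [← h1]
  exact Submodule.rank_le _

theorem rank_dia (f : I → k[X]) [∀ i, Hyp (f i)] (S : ∀ i, Set (Pt (f i))) (hS : Orth f S) :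
    RankLe f S := by
  intro r hr n ι D
  have h := sys f S hS (D := D) ι
  have hr' : ∀ a, Module.rank ℤ (AddSubgroup.closure
      ((fun s : Pt (Pr ι f a) => jP s) '' {s | s = .inf ∨ s ∈ S (ι a)})) ≤ r (ι a) := by
    intro a
    have h1 : AddSubgroup.closure
      ((fun s : Pt (Pr ι f a) => jP s) '' {s | s = .inf ∨ s ∈ S (ι a)}) =
      AddSubgroup.closure (jP '' S (ι a)) := by
      apply le_antisymm
      · rw [AddSubgroup.closure_le]
        rintro _ ⟨s, hs | hs, rfl⟩
        · subst hs
          have : jP (.inf : Pt (f (ι a))) = 0 := Pool.Agent.LibHyp34.jP_inf _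
          simp only [SetLike.mem_coe]
          rw [this]
          exact zero_mem _
        · exact AddSubgroup.subset_closure ⟨s, hs, rfl⟩
      · apply AddSubgroup.closure_mono
        rintro _ ⟨s, hs, rfl⟩
        exact ⟨s, Or.inr hs, rfl⟩
    rw [h1]
    exact hr (ι a)
  have h2 := Comb.rank_le h (fun a => r (ι a)) hr'
  refine (F2_rank_le _ _ ?_).trans h2
  rw [DG, AddSubgroup.closure_le]
  rintro _ ⟨δ, M, _, _, u, ⟨hu, hs⟩, rfl⟩
  apply AddSubgroup.subset_closure
  obtain ⟨V, x, y, hV, -, -⟩ := isPt_pnt (fun a => inferInstance) δ u hu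
  refine ⟨δ, V, hV, hs, ?_⟩
  rw [← cl_isPt (fun a => inferInstance) δ u hu]
  rfl

end Pool.Agent.LibHD77
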