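import Mathlib

/-!
Combinatorics of the diagonals: definitions. (Patterns as in T0; this file does not depend on the geometry.)
-/

open scoped Classical

namespace Pool.Agent.LibHD77.Comb

/-- patterns: every coordinate is a constant or, up to sign, one of the free points, which are
indexed by `B` -/
abbrev Pat {n : ℕ} (A : Fin n → Type) (B : Type) : Type := ∀ a : Fin n, A a ⊕ (B × ℤˣ)

/-- substitution: the free point `b` is replaced by the constant `o` (`none`) or by `±` the free point
`b'` -/
def sub {n : ℕ} {A : Fin n → Type} (o : ∀ a, A a) {B B' : Type} (t : B → Option (B' × ℤˣ))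
    (δ : Pat A B) : Pat A B' := fun a =>
  match δ a with
  | .inl s => .inl s
  | .inr q => match t q.1 with
    | none => .inl (o a)
    | some q' => .inr (q'.1, q'.2 * q.2)

/-- every free point occurs, and the free points have the labels `V` -/
def Cmp {n : ℕ} {A : Fin n → Type} {B L : Type} (l : Fin n → L) (δ : Pat A B) (V : B → L) :
    Prop :=
  (∀ b, ∃ a ε, δ a = .inr (b, ε)) ∧ ∀ a b ε, δ a = .inr (b, ε) → V b = l a

variable {n D : ℕ} {A : Fin n → Type} {L : Type} {J : Fin n → Type} [∀ a, AddCommGroup (J a)]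
  {G : Type} [AddCommGroup G]

/-- the four substitutions of the relation `par` -/
def t1 (e : Fin D) : Option (Fin D) → Option (Fin D × ℤˣ)
  | none => some (e, 1)
  | some b => some (b, 1)

def t2 (e : Fin D) : Option (Fin D) → Option (Fin D × ℤˣ)
  | none => some (e, -1)
  | some b => some (b, 1)

def t3 : Option (Fin D) → Option (Fin D × ℤˣ)
  | none => none
  | some b => some (b, 1)

def t4 (e : Fin D) : Option (Fin D) → Option (Fin D × ℤˣ)
  | none => some (e, 1)
  | some b => if b = e then none else some (b, 1)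

/-- The properties of the classes of the diagonals (in a group without torsion): `Φ δ` is the class of
the pattern `δ`, `l` are the curves, `o` the origins, `j` the classes of the points, `S` the sets of
points which are orthogonal to each other. -/
structure Sys (l : Fin n → L) (o : ∀ a, A a) (j : ∀ a, A a → J a) (S : ∀ a, Set (A a))
    (Φ : Pat A (Fin D) → G) : Prop where
  tf : ∀ (m : ℕ) (g : G), m ≠ 0 → m • g = 0 → g = 0
  jo : ∀ a, j a (o a) = 0
  oS : ∀ a, o a ∈ S a
  perm : ∀ (π : Equiv.Perm (Fin D)) (η : Fin D → ℤˣ) (δ : Pat A (Fin D)),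
    Φ (sub o (fun b => some (π b, η b)) δ) = Φ δ
  par : ∀ (δ : Pat A (Option (Fin D))) (V : Option (Fin D) → L), Cmp l δ V → ∀ e,
    V none = V (some e) → Φ (sub o (t1 e) δ) + Φ (sub o (t2 e) δ) =
      2 • Φ (sub o t3 δ) + 2 • Φ (sub o (t4 e) δ)
  lin : ∀ (δ : Pat A (Fin D)) (a : Fin n), (δ a).isLeft → ∃ φ : J a →+ G, ∀ s : A a,
    Φ (Function.update δ a (.inl s)) = Φ (Function.update δ a (.inl (o a))) + φ (j a s)
  orth : ∀ (δ : Pat A (Fin D)) (a b : Fin n), a ≠ b → (δ a).isLeft → (δ b).isLeft →
    ∀ p ∈ S a, ∀ q ∈ S b,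
      Φ (Function.update (Function.update δ a (.inl p)) b (.inl q)) -
      Φ (Function.update (Function.update δ a (.inl p)) b (.inl (o b))) -
      Φ (Function.update (Function.update δ a (.inl (o a))) b (.inl q)) +
      Φ (Function.update (Function.update δ a (.inl (o a))) b (.inl (o b))) = 0

/-- the vector of the signs of the free point `e` -/
def vec (δ : Pat A (Fin D)) (e : Fin D) (a : Fin n) : ℤ :=
  match δ a with
  | .inl _ => 0
  | .inr q => if q.1 = e then (q.2 : ℤ) else 0

/-- the classes of the constants -/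
def fx (j : ∀ a, A a → J a) (δ : Pat A (Fin D)) (a : Fin n) : J a :=
  match δ a with
  | .inl s => j a s
  | .inr _ => 0

/-- the constants (the origin if the coordinate is not constant) -/
def pts (o : ∀ a, A a) (δ : Pat A (Fin D)) (a : Fin n) : A a :=
  match δ a with
  | .inl s => s
  | .inr _ => o a

/-- a vector of signs supported in `U` -/
def IsSgn (U : Finset (Fin n)) (v : Fin n → ℤ) : Prop :=
  ∀ a, (v a = 0 ∨ v a = 1 ∨ v a = -1) ∧ (v a ≠ 0 → a ∈ U)

/-- the quadratic form `v_a ^ 2` if `t = {a}`, `v_a v_b` if `t = {a, b}` -/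
def cf (t : Finset (Fin n)) (v : Fin n → ℤ) : ℤ :=
  if t.card = 1 then ∏ a ∈ t, v a ^ 2 else if t.card = 2 then ∏ a ∈ t, v a else 0

/-- the indicator function -/
def ind (r : Finset (Fin n)) (a : Fin n) : ℤ := if a ∈ r then 1 else 0

/-- the values of the quadratic function `Q` at the atoms: `Q(e_a)` if `t = {a}`,
`Q(e_a + e_b) - Q(e_a) - Q(e_b)` if `t = {a, b}` -/
noncomputable def at1 (Q : (Fin n → ℤ) → G) (t : Finset (Fin n)) : G :=
  ∑ r ∈ t.powerset, if r = ∅ then 0 else ((-1 : ℤ) ^ (t.card - r.card)) • Q (ind r)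

/-- the pattern with the blocks `ρ e` (signs `1`), the origin at the other points of the `τ e`, and the
constants `s` elsewhere -/
noncomputable def pat (o : ∀ a, A a) (τ ρ : Fin D → Finset (Fin n)) (s : ∀ a, A a) :
    Pat A (Fin D) := fun a =>
  if h : ∃ e, a ∈ ρ e then .inr (h.choose, 1) else if ∃ e, a ∈ τ e then .inl (o a) else .inl (s a)

/-- the class belonging to the atoms `τ e` and the constants `s` -/
noncomputable def Gt (o : ∀ a, A a) (Φ : Pat A (Fin D) → G) (τ : Fin D → Finset (Fin n))
    (s : ∀ a, A a) : G :=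
  ∑ ρ ∈ Fintype.piFinset fun e => (τ e).powerset,
    if ∃ e, ρ e = ∅ then 0 else (∏ e, (-1 : ℤ) ^ ((τ e).card - (ρ e).card)) • Φ (pat o τ ρ s)

/-- `τ` consists of disjoint sets -/
def Dj (τ : Fin D → Finset (Fin n)) : Prop := ∀ e e', e ≠ e' → Disjoint (τ e) (τ e')

end Pool.Agent.LibHD77.Comb
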