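import Pool.Agent.LibHD77.C0

/-!
[HD77 C1] functions of sign vectors which satisfy the parallelogram law for disjoint vectors are quadratic.
Proof. For pairwise disjoint non-zero sign vectors `a, b, c`: write `B = Q`. From
`B(a+b+c) + B(a+b-c)`, `B(a+b+c) + B(a-b+c)`, and `B(a+b-c) + B(a-b+c)` (`= B(a+(b-c)) + B(a-(b-c))`) one gets
`2 B(a+b+c) = 2 (B(a+b) + B(a+c) + B(b+c) - B(a) - B(b) - B(c))` (use `B(b-c) = 2 B(b) + 2 B(c) - B(b+c)`).
So `Q` is quadratic: induction on the size of the support of `v`: `v = v_a e_a + v_b e_b + v'`; for supports of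
size one `Q(± e_a) = Q(e_a)`, size two `Q(e_a - e_b) = 2 Q(e_a) + 2 Q(e_b) - Q(e_a + e_b)`. The right side
is `∑_a v_a ^ 2 Q(e_a) + ∑_{a<b} v_a v_b (Q(e_a + e_b) - Q(e_a) - Q(e_b))` (`cf` vanishes for the other `t`).
-/

open scoped Classical

namespace Pool.Agent.LibHD77.Comb

variable {n D : ℕ} {G : Type} [AddCommGroup G]

private theorem C1_add {U : Finset (Fin n)} {v v' : Fin n → ℤ} (hv : IsSgn U v)
    (hv' : IsSgn U v') (hd : ∀ a, v a = 0 ∨ v' a = 0) : IsSgn U (v + v') := by
  intro a
  rcases hd a with h | h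
  · have := hv' a
    rw [Pi.add_apply, h, zero_add]
    exact this
  · have := hv a
    rw [Pi.add_apply, h, add_zero]
    exact this

private theorem C1_neg {U : Finset (Fin n)} {v : Fin n → ℤ} (hv : IsSgn U v) :
    IsSgn U (-v) := by
  intro a
  obtain ⟨h1, h2⟩ := hv a
  rw [Pi.neg_apply]
  refine ⟨?_, fun h => h2 fun h' => h (by rw [h', neg_zero])⟩
  rcases h1 with h | h | h <;> rw [h] <;> simp

private theorem C1_three (tf : ∀ (m : ℕ) (g : G), m ≠ 0 → m • g = 0 → g = 0)
    (U : Finset (Fin n)) (F : (Fin n → ℤ) → G)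
    (hpar : ∀ v v', IsSgn U v → IsSgn U v' → (∀ a, v a = 0 ∨ v' a = 0) →
      F (v + v') + F (v - v') = 2 • F v + 2 • F v')
    (x y z : Fin n → ℤ) (hx : IsSgn U x) (hy : IsSgn U y) (hz : IsSgn U z)
    (hxy : ∀ a, x a = 0 ∨ y a = 0) (hxz : ∀ a, x a = 0 ∨ z a = 0)
    (hyz : ∀ a, y a = 0 ∨ z a = 0) :
    F (x + y + z) = F (x + y) + F (x + z) + F (y + z) - F x - F y - F z := by
  have hxy' := C1_add hx hy hxy
  have hxz' := C1_add hx hz hxz
  have hyz' : IsSgn U (y - z) := by
    rw [sub_eq_add_neg]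
    refine C1_add hy (C1_neg hz) fun a => ?_
    rcases hyz a with h | h
    · exact Or.inl h
    · right
      rw [Pi.neg_apply, h, neg_zero]
  have h1 := hpar (x + y) z hxy' hz (fun a => by
    rcases hxz a with h | h
    · rcases hyz a with h' | h'
      · left
        rw [Pi.add_apply, h, h', add_zero]
      · exact Or.inr h'
    · exact Or.inr h)
  have h2 := hpar (x + z) y hxz' hy (fun a => by
    rcases hxy a with h | h
    · rcases hyz a with h' | h'
      · exact Or.inr h'
      · left
        rw [Pi.add_apply, h, h', add_zero]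
    · exact Or.inr h)
  have h3 := hpar x (y - z) hx hyz' (fun a => by
    rcases hxy a with h | h
    · exact Or.inl h
    · rcases hxz a with h' | h'
      · exact Or.inl h'
      · right
        rw [Pi.sub_apply, h, h', sub_zero])
  have h4 := hpar y z hy hz hyz
  rw [show x + z + y = x + y + z by abel, show x + z - y = x - (y - z) by abel] at h2
  rw [show x + y - z = x + (y - z) by abel] at h1
  have h5 : 2 • (F (x + y + z) -
      (F (x + y) + F (x + z) + F (y + z) - F x - F y - F z)) = 0 := by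
    have h6 : F (x + y + z) = 2 • F (x + y) + 2 • F z - F (x + (y - z)) := by
      rw [← h1]; abel
    have h7 : F (x + y + z) = 2 • F (x + z) + 2 • F y - F (x - (y - z)) := by
      rw [← h2]; abel
    have h8 : F (x - (y - z)) = 2 • F x + 2 • F (y - z) - F (x + (y - z)) := by
      rw [← h3]; abel
    have h9 : F (y - z) = 2 • F y + 2 • F z - F (y + z) := by
      rw [← h4]; abel
    have h10 : 2 • F (x + y + z) = F (x + y + z) + F (x + y + z) := two_nsmul _
    rw [smul_sub, h10]
    nth_rw 1 [h6]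
    rw [h7, h8, h9]
    abel
  exact sub_eq_zero.1 (tf 2 _ two_ne_zero h5)

private theorem C1_single {U : Finset (Fin n)} {v : Fin n → ℤ} (hv : IsSgn U v) (a : Fin n) :
    IsSgn U (Pi.single a (v a)) := by
  intro b
  by_cases h : b = a
  · subst h
    rw [Pi.single_eq_same]
    exact hv b
  · rw [Pi.single_eq_of_ne h]
    exact ⟨Or.inl rfl, fun h => absurd rfl h⟩

private theorem C1_core (tf : ∀ (m : ℕ) (g : G), m ≠ 0 → m • g = 0 → g = 0)
    (U : Finset (Fin n)) (F : (Fin n → ℤ) → G) (h0 : F 0 = 0)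
    (hneg : ∀ v, IsSgn U v → F (-v) = F v)
    (hpar : ∀ v v', IsSgn U v → IsSgn U v' → (∀ a, v a = 0 ∨ v' a = 0) →
      F (v + v') + F (v - v') = 2 • F v + 2 • F v')
    (h1 : ∀ a ∈ U, F (Pi.single a 1) = 0)
    (h2 : ∀ a ∈ U, ∀ b ∈ U, a ≠ b → F (Pi.single a 1 + Pi.single b 1) = 0) (k : ℕ) :
    ∀ v, IsSgn U v → (Finset.univ.filter fun a => v a ≠ 0).card = k → F v = 0 := by
  have hs1 : ∀ a ∈ U, IsSgn U (Pi.single a (1 : ℤ)) := by
    intro a ha b
    by_cases h : b = a
    · subst h
      rw [Pi.single_eq_same]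
      exact ⟨Or.inr (Or.inl rfl), fun _ => ha⟩
    · rw [Pi.single_eq_of_ne h]
      exact ⟨Or.inl rfl, fun h => absurd rfl h⟩
  have hdis : ∀ (a b : Fin n) (p q : ℤ), a ≠ b → ∀ c : Fin n,
      (Pi.single a p : Fin n → ℤ) c = 0 ∨ (Pi.single b q : Fin n → ℤ) c = 0 := by
    intro a b p q hab c
    by_cases h : c = a
    · right
      exact Pi.single_eq_of_ne (by rw [h]; exact hab) _
    · left
      exact Pi.single_eq_of_ne h _
  -- supports of size one
  have hone : ∀ v : Fin n → ℤ, IsSgn U v → ∀ a, F (Pi.single a (v a)) = 0 := by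
    intro v hv a
    obtain ⟨h3, h4⟩ := hv a
    rcases h3 with h | h | h
    · rw [h, Pi.single_zero, h0]
    · rw [h]
      exact h1 a (h4 (by rw [h]; exact one_ne_zero))
    · have ha : a ∈ U := h4 (by rw [h]; decide)
      rw [h, Pi.single_neg, hneg _ (hs1 a ha)]
      exact h1 a ha
  -- supports of size two
  have htwo : ∀ v : Fin n → ℤ, IsSgn U v → ∀ a b, a ≠ b →
      F (Pi.single a (v a) + Pi.single b (v b)) = 0 := by
    intro v hv a b hab
    obtain ⟨h3, h4⟩ := hv a
    obtain ⟨h5, h6⟩ := hv b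
    by_cases ha0 : v a = 0
    · rw [ha0, Pi.single_zero, zero_add]
      exact hone v hv b
    by_cases hb0 : v b = 0
    · rw [hb0, Pi.single_zero, add_zero]
      exact hone v hv a
    have ha := h4 ha0
    have hb := h6 hb0
    have hp := hpar _ _ (hs1 a ha) (hs1 b hb) (hdis a b 1 1 hab)
    rw [h1 a ha, h1 b hb, h2 a ha b hb hab, smul_zero, add_zero, zero_add] at hp
    have hsub : IsSgn U (Pi.single a (1 : ℤ) - Pi.single b 1) := by
      rw [sub_eq_add_neg]
      refine C1_add (hs1 a ha) (C1_neg (hs1 b hb)) fun c => ?_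
      rcases hdis a b 1 1 hab c with h | h
      · exact Or.inl h
      · right
        rw [Pi.neg_apply, h, neg_zero]
    rcases h3 with h | h | h
    · exact absurd h ha0
    · rcases h5 with h' | h' | h'
      · exact absurd h' hb0
      · rw [h, h']
        exact h2 a ha b hb hab
      · rw [h, h', Pi.single_neg, ← sub_eq_add_neg]
        exact hp
    · rcases h5 with h' | h' | h'
      · exact absurd h' hb0
      · rw [h, h', Pi.single_neg, show -(Pi.single a (1 : ℤ) : Fin n → ℤ) + Pi.single b 1 =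
          -(Pi.single a 1 - Pi.single b 1) by abel, hneg _ hsub]
        exact hp
      · rw [h, h', Pi.single_neg, Pi.single_neg, show -(Pi.single a (1 : ℤ) : Fin n → ℤ) +
          -Pi.single b 1 = -(Pi.single a 1 + Pi.single b 1) by abel,
          hneg _ (C1_add (hs1 a ha) (hs1 b hb) (hdis a b 1 1 hab))]
        exact h2 a ha b hb hab
  induction k using Nat.strong_induction_on with
  | _ k ih =>
    intro v hv hk
    by_cases hv0 : v = 0
    · rw [hv0, h0]
    obtain ⟨a, ha⟩ : ∃ a, v a ≠ 0 := by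
      by_contra hc
      push Not at hc
      exact hv0 (funext hc)
    by_cases hb : ∃ b, b ≠ a ∧ v b ≠ 0
    · obtain ⟨b, hba, hb⟩ := hb
      obtain ⟨w, hw⟩ : ∃ w : Fin n → ℤ, w = fun c => if c = a ∨ c = b then 0 else v c := ⟨_, rfl⟩
      have hwa : w a = 0 := by rw [hw]; simp
      have hwb : w b = 0 := by rw [hw]; simp
      have hwc : ∀ c, c ≠ a → c ≠ b → w c = v c := by
        intro c h3 h4
        rw [hw]
        simp [h3, h4]
      have hwS : IsSgn U w := by
        intro c
        by_cases h3 : c = a ∨ c = b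
        · have : w c = 0 := by
            rcases h3 with h3 | h3
            · rw [h3, hwa]
            · rw [h3, hwb]
          rw [this]
          exact ⟨Or.inl rfl, fun h => absurd rfl h⟩
        · push Not at h3
          rw [hwc c h3.1 h3.2]
          exact hv c
      have hvs : v = Pi.single a (v a) + Pi.single b (v b) + w := by
        funext c
        rw [Pi.add_apply, Pi.add_apply]
        by_cases h3 : c = a
        · subst h3
          rw [Pi.single_eq_same, Pi.single_eq_of_ne hba.symm, hwa, add_zero, add_zero]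
        · by_cases h4 : c = b
          · subst h4
            rw [Pi.single_eq_same, Pi.single_eq_of_ne h3, hwb, add_zero, zero_add]
          · rw [Pi.single_eq_of_ne h3, Pi.single_eq_of_ne h4, hwc c h3 h4, add_zero, zero_add]
      have hda : ∀ c, (Pi.single a (v a) : Fin n → ℤ) c = 0 ∨ w c = 0 := by
        intro c
        by_cases h3 : c = a
        · exact Or.inr (by rw [h3, hwa])
        · exact Or.inl (Pi.single_eq_of_ne h3 _)
      have hdb : ∀ c, (Pi.single b (v b) : Fin n → ℤ) c = 0 ∨ w c = 0 := by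
        intro c
        by_cases h3 : c = b
        · exact Or.inr (by rw [h3, hwb])
        · exact Or.inl (Pi.single_eq_of_ne h3 _)
      have h3 := C1_three tf U F hpar _ _ _ (C1_single hv a) (C1_single hv b) hwS
        (hdis a b _ _ hba.symm) hda hdb
      rw [← hvs, hone v hv a, hone v hv b, htwo v hv a b hba.symm] at h3
      have hlt : ∀ u : Fin n → ℤ, (∀ c, u c ≠ 0 → v c ≠ 0) → (∃ c, u c = 0 ∧ v c ≠ 0) →
          (Finset.univ.filter fun c => u c ≠ 0).card < k := by
        intro u h4 h5
        obtain ⟨c, h5, h6⟩ := h5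
        rw [← hk]
        apply Finset.card_lt_card
        rw [Finset.ssubset_iff_of_subset]
        · exact ⟨c, by simp [h6], by simp [h5]⟩
        · intro d hd
          rw [Finset.mem_filter] at hd ⊢
          exact ⟨hd.1, h4 d hd.2⟩
      have hwne : ∀ c, w c ≠ 0 → v c ≠ 0 := by
        intro c h4
        have h5 : c ≠ a := fun h => h4 (by rw [h, hwa])
        have h6 : c ≠ b := fun h => h4 (by rw [h, hwb])
        rwa [← hwc c h5 h6]
      have e1 : F w = 0 := ih _ (hlt w hwne ⟨a, hwa, ha⟩) w hwS rfl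
      have e2 : F (Pi.single a (v a) + w) = 0 := by
        refine ih _ (hlt _ (fun c h4 => ?_) ⟨b, ?_, hb⟩) _ (C1_add (C1_single hv a) hwS hda) rfl
        · by_cases h5 : c = a
          · rw [h5]; exact ha
          · rw [Pi.add_apply, Pi.single_eq_of_ne h5, zero_add] at h4
            exact hwne c h4
        · rw [Pi.add_apply, Pi.single_eq_of_ne hba, hwb, add_zero]
      have e3 : F (Pi.single b (v b) + w) = 0 := by
        refine ih _ (hlt _ (fun c h4 => ?_) ⟨a, ?_, ha⟩) _ (C1_add (C1_single hv b) hwS hdb) rfl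
        · by_cases h5 : c = b
          · rw [h5]; exact hb
          · rw [Pi.add_apply, Pi.single_eq_of_ne h5, zero_add] at h4
            exact hwne c h4
        · rw [Pi.add_apply, Pi.single_eq_of_ne hba.symm, hwa, add_zero]
      rw [e1, e2, e3] at h3
      rw [h3]
      simp
    · push Not at hb
      have hvs : v = Pi.single a (v a) := by
        funext c
        by_cases h3 : c = a
        · subst h3
          rw [Pi.single_eq_same]
        · rw [Pi.single_eq_of_ne h3, hb c h3]
      rw [hvs]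
      exact hone v hv a

/-! The right side. -/

private theorem C1_cf_par (t : Finset (Fin n)) (v v' : Fin n → ℤ) :
    cf t (v + v') + cf t (v - v') = 2 * cf t v + 2 * cf t v' := by
  unfold cf
  by_cases h1 : t.card = 1
  · obtain ⟨a, rfl⟩ := Finset.card_eq_one.1 h1
    simp only [if_pos h1, Finset.prod_singleton, Pi.add_apply, Pi.sub_apply]
    ring
  · by_cases h2 : t.card = 2
    · obtain ⟨a, b, hab, rfl⟩ := Finset.card_eq_two.1 h2
      simp only [if_neg h1, if_pos h2, Finset.prod_pair hab, Pi.add_apply, Pi.sub_apply]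
      ring
    · simp only [if_neg h1, if_neg h2]
      ring

private theorem C1_cf_neg (t : Finset (Fin n)) (v : Fin n → ℤ) : cf t (-v) = cf t v := by
  unfold cf
  by_cases h1 : t.card = 1
  · obtain ⟨a, rfl⟩ := Finset.card_eq_one.1 h1
    simp only [if_pos h1, Finset.prod_singleton, Pi.neg_apply]
    ring
  · by_cases h2 : t.card = 2
    · obtain ⟨a, b, hab, rfl⟩ := Finset.card_eq_two.1 h2
      simp only [if_neg h1, if_pos h2, Finset.prod_pair hab, Pi.neg_apply]
      ring
    · simp only [if_neg h1, if_neg h2]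

private theorem C1_cf_sub (t : Finset (Fin n)) (v : Fin n → ℤ) (c : Fin n) (hc : c ∈ t)
    (hv : v c = 0) : cf t v = 0 := by
  unfold cf
  by_cases h1 : t.card = 1
  · rw [if_pos h1]
    exact Finset.prod_eq_zero hc (by rw [hv]; ring)
  · by_cases h2 : t.card = 2
    · rw [if_neg h1, if_pos h2]
      exact Finset.prod_eq_zero hc hv
    · rw [if_neg h1, if_neg h2]

private theorem C1_cf_empty (v : Fin n → ℤ) : cf ∅ v = 0 := by
  unfold cf
  simp

private theorem C1_cf_zero (t : Finset (Fin n)) : cf t (0 : Fin n → ℤ) = 0 := by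
  rcases Finset.eq_empty_or_nonempty t with h | ⟨c, hc⟩
  · rw [h]
    exact C1_cf_empty 0
  · exact C1_cf_sub t 0 c hc rfl

private theorem C1_ind1 (a : Fin n) : ind ({a} : Finset (Fin n)) = Pi.single a 1 := by
  funext c
  unfold ind
  by_cases h : c = a
  · subst h
    simp
  · rw [Pi.single_eq_of_ne h]
    simp [h]

private theorem C1_ind2 (a b : Fin n) (hab : a ≠ b) :
    ind ({a, b} : Finset (Fin n)) = Pi.single a 1 + Pi.single b 1 := by
  funext c
  unfold ind
  rw [Pi.add_apply]
  by_cases h : c = a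
  · subst h
    rw [Pi.single_eq_same, Pi.single_eq_of_ne hab]
    simp
  · by_cases h' : c = b
    · subst h'
      rw [Pi.single_eq_same, Pi.single_eq_of_ne h]
      simp
    · rw [Pi.single_eq_of_ne h, Pi.single_eq_of_ne h']
      simp [h, h']

private theorem C1_pow1 (a : Fin n) (f : Finset (Fin n) → G) :
    ∑ r ∈ ({a} : Finset (Fin n)).powerset, f r = f ∅ + f {a} := by
  rw [← insert_empty_eq a, Finset.sum_powerset_insert (Finset.notMem_empty a)]
  simp

private theorem C1_pow2 (a b : Fin n) (hab : a ≠ b) (f : Finset (Fin n) → G) :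
    ∑ r ∈ ({a, b} : Finset (Fin n)).powerset, f r = f ∅ + f {b} + (f {a} + f {a, b}) := by
  rw [Finset.sum_powerset_insert (by simpa using hab), C1_pow1 b, C1_pow1 b]
  simp

private theorem C1_at1 (Q : (Fin n → ℤ) → G) (a : Fin n) :
    at1 Q {a} = Q (Pi.single a 1) := by
  unfold at1
  rw [C1_pow1 a, if_pos rfl, if_neg (Finset.singleton_ne_empty a), C1_ind1]
  simp

private theorem C1_at2 (Q : (Fin n → ℤ) → G) (a b : Fin n) (hab : a ≠ b) :
    at1 Q {a, b} = Q (Pi.single a 1 + Pi.single b 1) - Q (Pi.single a 1) -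
      Q (Pi.single b 1) := by
  unfold at1
  rw [C1_pow2 a b hab, if_pos rfl, if_neg (Finset.singleton_ne_empty a),
    if_neg (Finset.singleton_ne_empty b), if_neg (Finset.insert_ne_empty a {b}), C1_ind1,
    C1_ind1, C1_ind2 a b hab, Finset.card_pair hab, Finset.card_singleton,
    Finset.card_singleton]
  simp
  abel

private theorem C1_R1 (Q : (Fin n → ℤ) → G) (a : Fin n) :
    ∑ t : Finset (Fin n), cf t (Pi.single a 1) • at1 Q t = Q (Pi.single a 1) := by
  rw [← Finset.sum_subset (Finset.subset_univ ({a} : Finset (Fin n)).powerset), C1_pow1 a,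
    C1_cf_empty, zero_smul, zero_add, C1_at1]
  · unfold cf
    simp
  · intro t _ ht
    rw [Finset.mem_powerset, Finset.not_subset] at ht
    obtain ⟨c, hc, hc'⟩ := ht
    rw [C1_cf_sub t _ c hc, zero_smul]
    exact Pi.single_eq_of_ne (by simpa using hc') _

private theorem C1_R2 (Q : (Fin n → ℤ) → G) (a b : Fin n) (hab : a ≠ b) :
    ∑ t : Finset (Fin n), cf t (Pi.single a 1 + Pi.single b 1) • at1 Q t =
      Q (Pi.single a 1 + Pi.single b 1) := by
  have ha : (Pi.single a 1 + Pi.single b 1 : Fin n → ℤ) a = 1 := by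
    rw [Pi.add_apply, Pi.single_eq_same, Pi.single_eq_of_ne hab, add_zero]
  have hb : (Pi.single a 1 + Pi.single b 1 : Fin n → ℤ) b = 1 := by
    rw [Pi.add_apply, Pi.single_eq_same, Pi.single_eq_of_ne hab.symm, zero_add]
  have c1 : cf {a} (Pi.single a 1 + Pi.single b 1 : Fin n → ℤ) = 1 := by
    unfold cf
    rw [Finset.card_singleton, if_pos rfl, Finset.prod_singleton, ha, one_pow]
  have c2 : cf {b} (Pi.single a 1 + Pi.single b 1 : Fin n → ℤ) = 1 := by
    unfold cf
    rw [Finset.card_singleton, if_pos rfl, Finset.prod_singleton, hb, one_pow]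
  have c3 : cf {a, b} (Pi.single a 1 + Pi.single b 1 : Fin n → ℤ) = 1 := by
    unfold cf
    rw [Finset.card_pair hab, if_neg (by decide), if_pos rfl, Finset.prod_pair hab, ha, hb,
      one_mul]
  rw [← Finset.sum_subset (Finset.subset_univ ({a, b} : Finset (Fin n)).powerset),
    C1_pow2 a b hab, C1_cf_empty, zero_smul, zero_add, C1_at1, C1_at1, C1_at2 Q a b hab, c1,
    c2, c3, one_smul, one_smul, one_smul]
  · abel
  · intro t _ ht
    rw [Finset.mem_powerset, Finset.not_subset] at ht
    obtain ⟨c, hc, hc'⟩ := ht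
    rw [C1_cf_sub t _ c hc, zero_smul]
    simp only [Finset.mem_insert, Finset.mem_singleton, not_or] at hc'
    rw [Pi.add_apply, Pi.single_eq_of_ne hc'.1, Pi.single_eq_of_ne hc'.2, add_zero]

theorem quad (tf : ∀ (m : ℕ) (g : G), m ≠ 0 → m • g = 0 → g = 0) (U : Finset (Fin n))
    (Q : (Fin n → ℤ) → G) (hneg : ∀ v, IsSgn U v → v ≠ 0 → Q (-v) = Q v)
    (hpar : ∀ v v', IsSgn U v → IsSgn U v' → v ≠ 0 → v' ≠ 0 → (∀ a, v a = 0 ∨ v' a = 0) →
      Q (v + v') + Q (v - v') = 2 • Q v + 2 • Q v')
    (v : Fin n → ℤ) (hv : IsSgn U v) (hv0 : v ≠ 0) :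
    Q v = ∑ t : Finset (Fin n), cf t v • at1 Q t := by
  obtain ⟨R, hR⟩ : ∃ R : (Fin n → ℤ) → G, R = fun v => ∑ t : Finset (Fin n),
    cf t v • at1 Q t := ⟨_, rfl⟩
  have hR0 : R 0 = 0 := by
    rw [hR]
    exact Finset.sum_eq_zero fun t _ => by rw [C1_cf_zero, zero_smul]
  have hRneg : ∀ v, R (-v) = R v := by
    intro v
    rw [hR]
    exact Finset.sum_congr rfl fun t _ => by rw [C1_cf_neg]
  have hRpar : ∀ v v', R (v + v') + R (v - v') = 2 • R v + 2 • R v' := by
    intro v v'
    rw [hR]
    simp only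
    rw [Finset.smul_sum, Finset.smul_sum, ← Finset.sum_add_distrib, ← Finset.sum_add_distrib]
    refine Finset.sum_congr rfl fun t _ => ?_
    rw [← add_smul, C1_cf_par, add_smul, mul_smul, mul_smul, ofNat_zsmul, ofNat_zsmul]
  obtain ⟨F, hF⟩ : ∃ F : (Fin n → ℤ) → G, F = fun v => if v = 0 then 0 else Q v - R v :=
    ⟨_, rfl⟩
  have hF0 : F 0 = 0 := by rw [hF]; simp
  have hF1 : ∀ v, v ≠ 0 → F v = Q v - R v := by
    intro v h
    rw [hF]
    simp [h]
  have hFneg : ∀ v, IsSgn U v → F (-v) = F v := by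
    intro v h
    by_cases h0 : v = 0
    · rw [h0, neg_zero]
    · rw [hF1 v h0, hF1 (-v) (neg_ne_zero.2 h0), hneg v h h0, hRneg]
  have hFpar : ∀ v v', IsSgn U v → IsSgn U v' → (∀ a, v a = 0 ∨ v' a = 0) →
      F (v + v') + F (v - v') = 2 • F v + 2 • F v' := by
    intro v v' h h' hd
    by_cases h0 : v = 0
    · rw [h0, zero_add, zero_sub, hFneg v' h', hF0, smul_zero, zero_add, two_nsmul]
    by_cases h0' : v' = 0
    · rw [h0', add_zero, sub_zero, hF0, smul_zero, add_zero, two_nsmul]
    have hs : v + v' ≠ 0 := by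
      intro hc
      apply h0
      funext a
      have h1 := congrFun hc a
      rw [Pi.add_apply] at h1
      rcases hd a with h2 | h2
      · exact h2
      · rw [h2, add_zero] at h1
        exact h1
    have hs' : v - v' ≠ 0 := by
      intro hc
      apply h0
      funext a
      have h1 := congrFun hc a
      rw [Pi.sub_apply] at h1
      rcases hd a with h2 | h2
      · exact h2
      · rw [h2, sub_zero] at h1
        exact h1
    rw [hF1 _ hs, hF1 _ hs', hF1 _ h0, hF1 _ h0', smul_sub, smul_sub]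
    have e1 := hpar v v' h h' h0 h0' hd
    have e2 := hRpar v v'
    rw [show Q (v + v') - R (v + v') + (Q (v - v') - R (v - v')) =
      (Q (v + v') + Q (v - v')) - (R (v + v') + R (v - v')) by abel, e1, e2]
    abel
  have hs1 : ∀ a : Fin n, (Pi.single a (1 : ℤ) : Fin n → ℤ) ≠ 0 := by
    intro a hc
    have := congrFun hc a
    rw [Pi.single_eq_same] at this
    exact one_ne_zero this
  have key := C1_core tf U F hF0 hFneg hFpar
    (fun a _ => by
      rw [hF1 _ (hs1 a), hR]
      simp only
      rw [C1_R1, sub_self])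
    (fun a _ b _ hab => by
      have h2 : (Pi.single a 1 + Pi.single b 1 : Fin n → ℤ) ≠ 0 := by
        intro hc
        have := congrFun hc a
        rw [Pi.add_apply, Pi.single_eq_same, Pi.single_eq_of_ne hab, add_zero] at this
        exact one_ne_zero this
      rw [hF1 _ h2, hR]
      simp only
      rw [C1_R2 Q a b hab, sub_self])
    _ v hv rfl
  rw [hF1 v hv0, hR] at key
  exact sub_eq_zero.1 key

end Pool.Agent.LibHD77.Comb
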