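import Pool.Agent.LibHD77.C1

/-!
[HD77 C2] the expansion of the class of a pattern. Proof. For a pattern `δ` (`Cmp l δ V`) and a free point `e` with
the block `U = {a | δ a = inr (e, _)}` let `Q v` be `Φ` of the pattern in which the coordinate `a ∈ U` is
`inl (o a)` if `v a = 0` and `inr (e, ±1)` if `v a = ±1`; `Sys.perm` (identity permutation, sign at `e`) and
`Sys.par` (`v` at `some e`, `v'` at `none`) give the hypotheses of `quad`, and `Φ δ = Q (vec δ e)`. Expand one
free point after the other (induction on a set of free points already expanded; in a mixed state the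
blocks in `E` are replaced by `ρ e ⊆ τ e ⊆ block` with signs one, the others are as in `δ`). The product
of the `cf (τ e) (vec δ e)` vanishes unless all `τ e` are contained in the blocks.
-/

open scoped Classical

namespace Pool.Agent.LibHD77.Comb

variable {n D : ℕ} {A : Fin n → Type} {L : Type} {J : Fin n → Type} [∀ a, AddCommGroup (J a)]
  {G : Type} [AddCommGroup G]

/-- the block of `e` -/
private noncomputable def c2_blk (δ : Pat A (Fin D)) (e : Fin D) : Finset (Fin n) :=
  Finset.univ.filter fun a => ∃ ε, δ a = .inr (e, ε)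

/-- the pattern with the signs `v` in the block of `e` -/
private def c2_pe (o : ∀ a, A a) (δ : Pat A (Fin D)) (e : Fin D) (v : Fin n → ℤ) :
    Pat A (Fin D) := fun a =>
  match δ a with
  | .inl s => .inl s
  | .inr q => if q.1 = e then (if v a = 0 then .inl (o a) else if v a = 1 then .inr (e, 1)
      else .inr (e, -1)) else .inr q

/-- the pattern with `v` at `some e` and `v'` at `none` -/
private def c2_po (o : ∀ a, A a) (δ : Pat A (Fin D)) (e : Fin D) (v v' : Fin n → ℤ) :
    Pat A (Option (Fin D)) := fun a =>
  match δ a with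
  | .inl s => .inl s
  | .inr q => if q.1 = e then
      (if v a = 1 then .inr (some e, 1) else if v a = -1 then .inr (some e, -1) else
        if v' a = 1 then .inr (none, 1) else if v' a = -1 then .inr (none, -1) else .inl (o a))
      else .inr (some q.1, q.2)

private theorem c2_neg {l : Fin n → L} {o : ∀ a, A a} {j : ∀ a, A a → J a} {S : ∀ a, Set (A a)}
    {Φ : Pat A (Fin D) → G} (h : Sys l o j S Φ) (δ : Pat A (Fin D)) (e : Fin D)
    (v : Fin n → ℤ) (hv : IsSgn (c2_blk δ e) v) :
    Φ (c2_pe o δ e (-v)) = Φ (c2_pe o δ e v) := by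
  rw [← h.perm 1 (fun b => if b = e then -1 else 1) (c2_pe o δ e v)]
  congr 1
  funext a
  unfold sub c2_pe
  rcases hd : δ a with s | q
  · simp
  · by_cases hq : q.1 = e
    · simp only [hq, if_true, Pi.neg_apply]
      rcases (hv a).1 with h0 | h0 | h0 <;> simp [h0]
    · simp [hq]

private theorem c2_par {l : Fin n → L} {o : ∀ a, A a} {j : ∀ a, A a → J a} {S : ∀ a, Set (A a)}
    {Φ : Pat A (Fin D) → G} (h : Sys l o j S Φ) (δ : Pat A (Fin D)) (V : Fin D → L)
    (hδ : Cmp l δ V) (e : Fin D) (v v' : Fin n → ℤ) (hv : IsSgn (c2_blk δ e) v)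
    (hv' : IsSgn (c2_blk δ e) v') (hv0 : v ≠ 0) (hv'0 : v' ≠ 0) (hd : ∀ a, v a = 0 ∨ v' a = 0) :
    Φ (c2_pe o δ e (v + v')) + Φ (c2_pe o δ e (v - v')) =
      2 • Φ (c2_pe o δ e v) + 2 • Φ (c2_pe o δ e v') := by
  have hcmp : Cmp l (c2_po o δ e v v') (fun b => match b with
      | none => V e
      | some b => V b) := by
    constructor
    · intro b
      rcases b with _ | b
      · obtain ⟨a, ha⟩ := Function.ne_iff.1 hv'0
        rw [Pi.zero_apply] at ha
        have hva : v a = 0 := by
          rcases hd a with h1 | h1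
          · exact h1
          · exact absurd h1 ha
        have hU := (hv' a).2 ha
        unfold c2_blk at hU
        rw [Finset.mem_filter] at hU
        obtain ⟨_, ε, hε⟩ := hU
        refine ⟨a, if v' a = 1 then 1 else -1, ?_⟩
        unfold c2_po
        rcases (hv' a).1 with h0 | h0 | h0
        · exact absurd h0 ha
        · simp [hε, hva, h0]
        · simp [hε, hva, h0]
      · by_cases hb : b = e
        · subst hb
          obtain ⟨a, ha⟩ := Function.ne_iff.1 hv0
          rw [Pi.zero_apply] at ha
          have hU := (hv a).2 ha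
          unfold c2_blk at hU
          rw [Finset.mem_filter] at hU
          obtain ⟨_, ε, hε⟩ := hU
          refine ⟨a, if v a = 1 then 1 else -1, ?_⟩
          unfold c2_po
          rcases (hv a).1 with h0 | h0 | h0
          · exact absurd h0 ha
          · simp [hε, h0]
          · simp [hε, h0]
        · obtain ⟨a, ε, hε⟩ := hδ.1 b
          refine ⟨a, ε, ?_⟩
          unfold c2_po
          simp [hε, hb]
    · intro a b ε hb
      unfold c2_po at hb
      rcases hda : δ a with s | q
      · simp [hda] at hb
      · have hV := hδ.2 a q.1 q.2 hda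
        by_cases hq : q.1 = e
        · have hVe : V e = l a := by rw [← hq]; exact hV
          simp only [hda, hq, if_true] at hb
          split_ifs at hb
          all_goals
            (simp only [Sum.inr.injEq, Prod.mk.injEq] at hb
             obtain ⟨rfl, _⟩ := hb
             exact hVe)
        · simp only [hda, hq, if_false, Sum.inr.injEq, Prod.mk.injEq] at hb
          obtain ⟨rfl, _⟩ := hb
          exact hV
  have hp := h.par (c2_po o δ e v v') _ hcmp e rfl
  have e1 : sub o (t1 e) (c2_po o δ e v v') = c2_pe o δ e (v + v') := by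
    funext a
    unfold sub c2_po c2_pe
    rcases hda : δ a with s | q
    · simp
    · by_cases hq : q.1 = e
      · simp only [hq, if_true, Pi.add_apply]
        rcases (hv a).1 with h0 | h0 | h0
        · rcases (hv' a).1 with h1 | h1 | h1 <;> simp [h0, h1, t1]
        · have h1 : v' a = 0 := by
            rcases hd a with h1 | h1
            · rw [h0] at h1
              norm_num at h1
            · exact h1
          simp [h0, h1, t1]
        · have h1 : v' a = 0 := by
            rcases hd a with h1 | h1
            · rw [h0] at h1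
              norm_num at h1
            · exact h1
          simp [h0, h1, t1]
      · simp [hq, t1]
  have e2 : sub o (t2 e) (c2_po o δ e v v') = c2_pe o δ e (v - v') := by
    funext a
    unfold sub c2_po c2_pe
    rcases hda : δ a with s | q
    · simp
    · by_cases hq : q.1 = e
      · simp only [hq, if_true, Pi.sub_apply]
        rcases (hv a).1 with h0 | h0 | h0
        · rcases (hv' a).1 with h1 | h1 | h1 <;> simp [h0, h1, t2]
        · have h1 : v' a = 0 := by
            rcases hd a with h1 | h1
            · rw [h0] at h1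
              norm_num at h1
            · exact h1
          simp [h0, h1, t2]
        · have h1 : v' a = 0 := by
            rcases hd a with h1 | h1
            · rw [h0] at h1
              norm_num at h1
            · exact h1
          simp [h0, h1, t2]
      · simp [hq, t2]
  have e3 : sub o t3 (c2_po o δ e v v') = c2_pe o δ e v := by
    funext a
    unfold sub c2_po c2_pe
    rcases hda : δ a with s | q
    · simp
    · by_cases hq : q.1 = e
      · simp only [hq, if_true]
        rcases (hv a).1 with h0 | h0 | h0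
        · rcases (hv' a).1 with h1 | h1 | h1 <;> simp [h0, h1, t3]
        · simp [h0, t3]
        · simp [h0, t3]
      · simp [hq, t3]
  have e4 : sub o (t4 e) (c2_po o δ e v v') = c2_pe o δ e v' := by
    funext a
    unfold sub c2_po c2_pe
    rcases hda : δ a with s | q
    · simp
    · by_cases hq : q.1 = e
      · simp only [hq, if_true]
        rcases (hv a).1 with h0 | h0 | h0
        · rcases (hv' a).1 with h1 | h1 | h1 <;> simp [h0, h1, t4]
        · have h1 : v' a = 0 := by
            rcases hd a with h1 | h1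
            · rw [h0] at h1
              norm_num at h1
            · exact h1
          simp [h0, h1, t4]
        · have h1 : v' a = 0 := by
            rcases hd a with h1 | h1
            · rw [h0] at h1
              norm_num at h1
            · exact h1
          simp [h0, h1, t4]
      · simp [hq, t4]
  rw [e1, e2, e3, e4] at hp
  exact hp

private theorem c2_vec_sgn (δ : Pat A (Fin D)) (e : Fin D) : IsSgn (c2_blk δ e) (vec δ e) := by
  intro a
  unfold vec c2_blk
  rcases hd : δ a with s | q
  · simp
  · by_cases hq : q.1 = e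
    · simp only [hq, if_true]
      constructor
      · rcases Int.units_eq_one_or q.2 with h0 | h0 <;> simp [h0]
      · intro _
        rw [Finset.mem_filter]
        refine ⟨Finset.mem_univ _, q.2, ?_⟩
        rw [hd, ← hq]
    · simp [hq]

private theorem c2_vec_ne {l : Fin n → L} (δ : Pat A (Fin D)) (V : Fin D → L)
    (hδ : Cmp l δ V) (e : Fin D) : vec δ e ≠ 0 := by
  obtain ⟨a, ε, hε⟩ := hδ.1 e
  intro h0
  have := congrFun h0 a
  unfold vec at this
  rw [hε] at this
  simp at this

private theorem c2_pe_vec (o : ∀ a, A a) (δ : Pat A (Fin D)) (e : Fin D) :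
    c2_pe o δ e (vec δ e) = δ := by
  funext a
  unfold c2_pe vec
  rcases hd : δ a with s | q
  · simp
  · by_cases hq : q.1 = e
    · simp only [hq, if_true]
      obtain ⟨q1, q2⟩ := q
      simp only at hq ⊢
      subst hq
      rcases Int.units_eq_one_or q2 with h0 | h0 <;> simp [h0]
    · simp [hq]

/-- one block -/
theorem expand_one {l : Fin n → L} {o : ∀ a, A a} {j : ∀ a, A a → J a} {S : ∀ a, Set (A a)}
    {Φ : Pat A (Fin D) → G} (h : Sys l o j S Φ) (δ : Pat A (Fin D)) (V : Fin D → L)
    (hδ : Cmp l δ V) (e : Fin D) (Q : (Fin n → ℤ) → G)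
    (hQ : ∀ v, Q v = Φ (fun a => match δ a with
      | .inl s => .inl s
      | .inr q => if q.1 = e then (if v a = 0 then .inl (o a) else if v a = 1 then .inr (e, 1)
          else .inr (e, -1)) else .inr q)) :
    Φ δ = ∑ t : Finset (Fin n), cf t (vec δ e) • at1 Q t := by
  have hQ' : ∀ v, Q v = Φ (c2_pe o δ e v) := hQ
  have h1 : Φ δ = Q (vec δ e) := by
    rw [hQ', c2_pe_vec]
  rw [h1]
  refine quad h.tf (c2_blk δ e) Q ?_ ?_ (vec δ e) (c2_vec_sgn δ e) (c2_vec_ne δ V hδ e)
  · intro v hv _
    rw [hQ', hQ']
    exact c2_neg h δ e v hv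
  · intro v v' hv hv' hv0 hv'0 hd
    rw [hQ', hQ', hQ', hQ']
    exact c2_par h δ V hδ e v v' hv hv' hv0 hv'0 hd

/-- the pattern with the signs `w` in the blocks -/
private def c2_pw (o : ∀ a, A a) (δ : Pat A (Fin D)) (w : Fin D → Fin n → ℤ) :
    Pat A (Fin D) := fun a =>
  match δ a with
  | .inl s => .inl s
  | .inr q => if w q.1 a = 0 then .inl (o a) else if w q.1 a = 1 then .inr (q.1, 1)
      else .inr (q.1, -1)

/-- the coefficients -/
private noncomputable def c2_c (u : Fin n → ℤ) (x : Finset (Fin n) × Finset (Fin n)) : ℤ :=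
  cf x.1 u * (if x.2 ⊆ x.1 ∧ x.2 ≠ ∅ then (-1) ^ (x.1.card - x.2.card) else 0)

private theorem c2_cf_supp {t : Finset (Fin n)} {u : Fin n → ℤ} (h : cf t u ≠ 0) :
    ∀ a ∈ t, u a ≠ 0 := by
  intro a ha h0
  apply h
  unfold cf
  split_ifs
  · exact Finset.prod_eq_zero ha (by rw [h0]; norm_num)
  · exact Finset.prod_eq_zero ha h0
  · rfl

private theorem c2_cf_empty (u : Fin n → ℤ) : cf (∅ : Finset (Fin n)) u = 0 := by
  unfold cf
  simp

/-- all vectors are non-zero sign vectors of the blocks -/
private def c2_ok (δ : Pat A (Fin D)) (w : Fin D → Fin n → ℤ) : Prop :=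
  ∀ e, IsSgn (c2_blk δ e) (w e) ∧ w e ≠ 0

private theorem c2_ind_ok {U r : Finset (Fin n)} (hr : r ⊆ U) (h0 : r ≠ ∅) :
    IsSgn U (ind r) ∧ ind r ≠ 0 := by
  constructor
  · intro a
    unfold ind
    by_cases ha : a ∈ r
    · simp [ha, hr ha]
    · simp [ha]
  · intro h
    obtain ⟨a, ha⟩ := Finset.nonempty_iff_ne_empty.2 h0
    have := congrFun h a
    unfold ind at this
    simp [ha] at this

private theorem c2_step {l : Fin n → L} {o : ∀ a, A a} {j : ∀ a, A a → J a} {S : ∀ a, Set (A a)}
    {Φ : Pat A (Fin D) → G} (h : Sys l o j S Φ) (δ : Pat A (Fin D)) (V : Fin D → L)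
    (hδ : Cmp l δ V) (w : Fin D → Fin n → ℤ) (hw : c2_ok δ w) (e : Fin D) :
    Φ (c2_pw o δ w) = ∑ x : Finset (Fin n) × Finset (Fin n),
      c2_c (w e) x • Φ (c2_pw o δ (Function.update w e (ind x.2))) := by
  have hblk : ∀ a b, w b a ≠ 0 → ∃ ε, δ a = .inr (b, ε) := by
    intro a b hb
    have := ((hw b).1 a).2 hb
    unfold c2_blk at this
    rw [Finset.mem_filter] at this
    exact this.2
  have hcmp : Cmp l (c2_pw o δ w) V := by
    constructor
    · intro b
      obtain ⟨a, ha⟩ := Function.ne_iff.1 (hw b).2
      rw [Pi.zero_apply] at ha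
      obtain ⟨ε, hε⟩ := hblk a b ha
      refine ⟨a, if w b a = 1 then 1 else -1, ?_⟩
      unfold c2_pw
      rcases ((hw b).1 a).1 with h0 | h0 | h0
      · exact absurd h0 ha
      · simp [hε, h0]
      · simp [hε, h0]
    · intro a b ε hb
      unfold c2_pw at hb
      rcases hda : δ a with s | q
      · simp [hda] at hb
      · have hV := hδ.2 a q.1 q.2 hda
        simp only [hda] at hb
        split_ifs at hb
        all_goals first
          | (simp only [Sum.inr.injEq, Prod.mk.injEq] at hb
             obtain ⟨rfl, _⟩ := hb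
             exact hV)
          | (simp at hb)
  have hvec : vec (c2_pw o δ w) e = w e := by
    funext a
    unfold vec c2_pw
    rcases hda : δ a with s | q
    · have : w e a = 0 := by
        by_contra hne
        obtain ⟨ε, hε⟩ := hblk a e hne
        rw [hda] at hε
        simp at hε
      simp [this]
    · by_cases hq : q.1 = e
      · rw [← hq]
        rcases ((hw q.1).1 a).1 with h0 | h0 | h0 <;> simp [h0]
      · have : w e a = 0 := by
          by_contra hne
          obtain ⟨ε, hε⟩ := hblk a e hne
          rw [hda] at hε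
          simp only [Sum.inr.injEq] at hε
          apply hq
          rw [hε]
        rw [this]
        rcases ((hw q.1).1 a).1 with h0 | h0 | h0 <;> simp [h0, hq]
  rw [expand_one h (c2_pw o δ w) V hcmp e (fun v => Φ (c2_pe o (c2_pw o δ w) e v))
    (fun v => rfl), hvec, Fintype.sum_prod_type]
  apply Finset.sum_congr rfl
  intro t _
  by_cases ht : cf t (w e) = 0
  · rw [ht, zero_smul]
    symm
    apply Finset.sum_eq_zero
    intro r _
    unfold c2_c
    simp [ht]
  · unfold at1
    rw [Finset.smul_sum]
    rw [← Finset.sum_subset (Finset.subset_univ t.powerset) (by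
      intro r _ hr
      rw [Finset.mem_powerset] at hr
      unfold c2_c
      simp [hr])]
    apply Finset.sum_congr rfl
    intro r hr
    rw [Finset.mem_powerset] at hr
    by_cases hr0 : r = ∅
    · unfold c2_c
      simp [hr0]
    · rw [if_neg hr0]
      have hpat : c2_pe o (c2_pw o δ w) e (ind r) =
          c2_pw o δ (Function.update w e (ind r)) := by
        funext a
        unfold c2_pe c2_pw
        rcases hda : δ a with s | q
        · simp
        · by_cases hq : q.1 = e
          · simp only [hq, Function.update_self]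
            by_cases h0 : w e a = 0
            · have h1 : ind r a = 0 := by
                unfold ind
                rw [if_neg]
                intro har
                exact c2_cf_supp ht a (hr har) h0
              simp [h0, h1]
            · rcases ((hw e).1 a).1 with h1 | h1 | h1
              · exact absurd h1 h0
              · simp [h1]
              · simp [h1]
          · simp only [Function.update_of_ne hq]
            by_cases h0 : w q.1 a = 0
            · simp [h0]
            · by_cases h1 : w q.1 a = 1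
              · simp [h1, hq]
              · simp [h0, h1, hq]
      dsimp only
      rw [hpat]
      unfold c2_c
      rw [if_pos ⟨hr, hr0⟩, mul_smul]

/-- the first `m` vectors replaced by indicator functions -/
private def c2_wk (w : Fin D → Fin n → ℤ) (m : ℕ) (κ : Fin m → Finset (Fin n) × Finset (Fin n)) :
    Fin D → Fin n → ℤ := fun e => if h : (e : ℕ) < m then ind (κ ⟨e, h⟩).2 else w e

private theorem c2_iter {l : Fin n → L} {o : ∀ a, A a} {j : ∀ a, A a → J a} {S : ∀ a, Set (A a)}
    {Φ : Pat A (Fin D) → G} (h : Sys l o j S Φ) (δ : Pat A (Fin D)) (V : Fin D → L)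
    (hδ : Cmp l δ V) (w : Fin D → Fin n → ℤ) (hw : c2_ok δ w) (m : ℕ) (hm : m ≤ D) :
    Φ (c2_pw o δ w) = ∑ κ : Fin m → Finset (Fin n) × Finset (Fin n),
      (∏ i : Fin m, c2_c (w (Fin.castLE hm i)) (κ i)) • Φ (c2_pw o δ (c2_wk w m κ)) := by
  induction m with
  | zero =>
    have : ∀ κ : Fin 0 → Finset (Fin n) × Finset (Fin n), c2_wk w 0 κ = w := by
      intro κ
      funext e
      unfold c2_wk
      simp
    simp [this]
  | succ m ih =>
    rw [ih (by omega), ← Equiv.sum_comp (Fin.snocEquiv
      (fun _ => Finset (Fin n) × Finset (Fin n))), Fintype.sum_prod_type_right]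
    apply Finset.sum_congr rfl
    intro κ _
    have hsn : ∀ x, (Fin.snocEquiv (fun _ : Fin (m + 1) => Finset (Fin n) × Finset (Fin n)))
        (x, κ) = Fin.snoc κ x := fun x => rfl
    have hprod : ∀ x : Finset (Fin n) × Finset (Fin n), (∏ i : Fin (m + 1),
        c2_c (w (Fin.castLE hm i)) ((Fin.snoc κ x : Fin (m + 1) → _) i)) =
        (∏ i : Fin m, c2_c (w (Fin.castLE (by omega) i)) (κ i)) * c2_c (w ⟨m, by omega⟩) x := by
      intro x
      rw [Fin.prod_univ_castSucc]
      congr 1
      · apply Finset.prod_congr rfl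
        intro i _
        rw [Fin.snoc_castSucc]
        rfl
      · rw [Fin.snoc_last]
        rfl
    have hwk : ∀ x : Finset (Fin n) × Finset (Fin n),
        c2_wk w (m + 1) (Fin.snoc κ x : Fin (m + 1) → _) =
        Function.update (c2_wk w m κ) ⟨m, by omega⟩ (ind x.2) := by
      intro x
      funext e
      unfold c2_wk
      by_cases h1 : (e : ℕ) < m
      · have h2 : e ≠ ⟨m, by omega⟩ := by
          intro h3
          rw [h3] at h1
          simp at h1
        rw [Function.update_of_ne h2, dif_pos h1, dif_pos (by omega)]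
        have h3 : (⟨(e : ℕ), by omega⟩ : Fin (m + 1)) = Fin.castSucc ⟨e, h1⟩ := rfl
        rw [h3, Fin.snoc_castSucc]
      · by_cases h2 : (e : ℕ) = m
        · have h3 : e = ⟨m, by omega⟩ := Fin.ext h2
          rw [h3, Function.update_self, dif_pos (by simp)]
          have h4 : (⟨m, by omega⟩ : Fin (m + 1)) = Fin.last m := rfl
          simp only [h4, Fin.snoc_last]
        · have h3 : e ≠ ⟨m, by omega⟩ := by
            intro h3
            rw [h3] at h2
            exact h2 rfl
          rw [Function.update_of_ne h3, dif_neg h1, dif_neg (by omega)]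
    simp_rw [hsn, hprod, hwk]
    by_cases h0 : (∏ i : Fin m, c2_c (w (Fin.castLE (by omega) i)) (κ i)) = 0
    · rw [h0]
      simp
    · have hok : c2_ok δ (c2_wk w m κ) := by
        intro e
        unfold c2_wk
        by_cases h1 : (e : ℕ) < m
        · rw [dif_pos h1]
          have h2 := (Finset.prod_ne_zero_iff.1 h0) ⟨e, h1⟩ (Finset.mem_univ _)
          have h3 : Fin.castLE (by omega : m ≤ D) ⟨(e : ℕ), h1⟩ = e := rfl
          rw [h3] at h2
          unfold c2_c at h2
          have h4 := left_ne_zero_of_mul h2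
          have h5 := right_ne_zero_of_mul h2
          have h6 : (κ ⟨e, h1⟩).2 ⊆ (κ ⟨e, h1⟩).1 ∧ (κ ⟨e, h1⟩).2 ≠ ∅ := by
            by_contra hne
            rw [if_neg hne] at h5
            exact h5 rfl
          refine c2_ind_ok ?_ h6.2
          intro a ha
          exact ((hw e).1 a).2 (c2_cf_supp h4 a (h6.1 ha))
        · rw [dif_neg h1]
          exact hw e
      rw [c2_step h δ V hδ (c2_wk w m κ) hok ⟨m, by omega⟩, Finset.smul_sum]
      apply Finset.sum_congr rfl
      intro x _
      have h2 : c2_wk w m κ ⟨m, by omega⟩ = w ⟨m, by omega⟩ := by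
        unfold c2_wk
        rw [dif_neg (by simp)]
      rw [h2, mul_smul]

theorem expand {l : Fin n → L} {o : ∀ a, A a} {j : ∀ a, A a → J a} {S : ∀ a, Set (A a)}
    {Φ : Pat A (Fin D) → G} (h : Sys l o j S Φ) (δ : Pat A (Fin D)) (V : Fin D → L)
    (hδ : Cmp l δ V) :
    Φ δ = ∑ τ : Fin D → Finset (Fin n), (∏ e, cf (τ e) (vec δ e)) • Gt o Φ τ (pts o δ) := by
  have hok : c2_ok δ (vec δ) := fun e => ⟨c2_vec_sgn δ e, c2_vec_ne δ V hδ e⟩
  have hself : c2_pw o δ (vec δ) = δ := by
    funext a
    unfold c2_pw vec
    rcases hd : δ a with s | q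
    · simp
    · obtain ⟨q1, q2⟩ := q
      rcases Int.units_eq_one_or q2 with h0 | h0 <;> simp [h0]
  have h1 := c2_iter h δ V hδ (vec δ) hok D le_rfl
  rw [hself] at h1
  rw [h1, ← Equiv.sum_comp (Equiv.arrowProdEquivProdArrow (Fin D) (fun _ => Finset (Fin n))
    (fun _ => Finset (Fin n))).symm, Fintype.sum_prod_type]
  apply Finset.sum_congr rfl
  intro τ _
  have hk : ∀ ρ : Fin D → Finset (Fin n), (Equiv.arrowProdEquivProdArrow (Fin D)
      (fun _ => Finset (Fin n)) (fun _ => Finset (Fin n))).symm (τ, ρ) = fun e => (τ e, ρ e) :=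
    fun ρ => rfl
  simp_rw [hk]
  have hc : ∀ ρ : Fin D → Finset (Fin n),
      (∏ i : Fin D, c2_c (vec δ (Fin.castLE le_rfl i)) (τ i, ρ i)) =
      (∏ e, cf (τ e) (vec δ e)) * ∏ e, (if ρ e ⊆ τ e ∧ ρ e ≠ ∅ then
        (-1 : ℤ) ^ ((τ e).card - (ρ e).card) else 0) := by
    intro ρ
    rw [← Finset.prod_mul_distrib]
    rfl
  simp_rw [hc]
  by_cases h0 : (∏ e, cf (τ e) (vec δ e)) = 0
  · rw [h0]
    simp
  unfold Gt
  rw [Finset.smul_sum, ← Finset.sum_subset (Finset.subset_univ
    (Fintype.piFinset fun e => (τ e).powerset)) (by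
    intro ρ _ hρ
    rw [Fintype.mem_piFinset] at hρ
    push Not at hρ
    obtain ⟨e, he⟩ := hρ
    rw [Finset.mem_powerset] at he
    rw [Finset.prod_eq_zero (i := e) (f := fun e => if ρ e ⊆ τ e ∧ ρ e ≠ ∅ then
        (-1 : ℤ) ^ ((τ e).card - (ρ e).card) else 0) (Finset.mem_univ _)
        (if_neg fun hh => he hh.1), mul_zero, zero_smul])]
  apply Finset.sum_congr rfl
  intro ρ hρ
  rw [Fintype.mem_piFinset] at hρ
  have hρ' : ∀ e, ρ e ⊆ τ e := fun e => Finset.mem_powerset.1 (hρ e)
  by_cases hem : ∃ e, ρ e = ∅
  · rw [if_pos hem, smul_zero]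
    obtain ⟨e, he⟩ := hem
    rw [Finset.prod_eq_zero (i := e) (f := fun e => if ρ e ⊆ τ e ∧ ρ e ≠ ∅ then
        (-1 : ℤ) ^ ((τ e).card - (ρ e).card) else 0) (Finset.mem_univ _)
        (if_neg fun hh => hh.2 he), mul_zero, zero_smul]
  · rw [if_neg hem]
    push Not at hem
    have hpr : (∏ e, (if ρ e ⊆ τ e ∧ ρ e ≠ ∅ then
        (-1 : ℤ) ^ ((τ e).card - (ρ e).card) else 0)) =
        ∏ e, (-1 : ℤ) ^ ((τ e).card - (ρ e).card) :=
      Finset.prod_congr rfl fun e _ => if_pos ⟨hρ' e, Finset.nonempty_iff_ne_empty.1 (hem e)⟩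
    rw [hpr, mul_smul]
    congr 3
    have hblk : ∀ e a, a ∈ τ e → ∃ ε, δ a = .inr (e, ε) := by
      intro e a ha
      have h2 := (Finset.prod_ne_zero_iff.1 h0) e (Finset.mem_univ _)
      have h3 := (c2_vec_sgn δ e a).2 (c2_cf_supp h2 a ha)
      unfold c2_blk at h3
      rw [Finset.mem_filter] at h3
      exact h3.2
    funext a
    unfold c2_pw pat pts c2_wk
    rcases hda : δ a with s | q
    · have hn1 : ¬ ∃ e, a ∈ ρ e := by
        rintro ⟨e, he⟩
        obtain ⟨ε, hε⟩ := hblk e a (hρ' e he)
        rw [hda] at hε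
        simp at hε
      have hn2 : ¬ ∃ e, a ∈ τ e := by
        rintro ⟨e, he⟩
        obtain ⟨ε, hε⟩ := hblk e a he
        rw [hda] at hε
        simp at hε
      rw [dif_neg hn1, if_neg hn2]
    · have huniq : ∀ e, a ∈ τ e → e = q.1 := by
        intro e he
        obtain ⟨ε, hε⟩ := hblk e a he
        rw [hda] at hε
        simp only [Sum.inr.injEq] at hε
        rw [hε]
      simp only [Fin.is_lt, dif_pos]
      by_cases har : a ∈ ρ q.1
      · have hex : ∃ e, a ∈ ρ e := ⟨q.1, har⟩
        rw [dif_pos hex]
        have h3 := huniq _ (hρ' _ hex.choose_spec)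
        rw [h3]
        unfold ind
        simp [har]
      · have hex : ¬ ∃ e, a ∈ ρ e := by
          rintro ⟨e, he⟩
          have h3 := huniq _ (hρ' _ he)
          rw [h3] at he
          exact har he
        rw [dif_neg hex]
        unfold ind
        simp [har]

end Pool.Agent.LibHD77.Comb
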