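import Pool.Agent.LibHD77.C0

/-!
[HD77 C3] Ryser's formula for permanents and its application. Proofs. `ryser`: expand the product
(`Finset.prod_univ_sum`): the sum over all maps `i : Fin D → Fin D` of `∏ c (i e) e` times
`∑_{S ⊇ range i} (-1) ^ (D - |S|)`, which is `1` if `i` is surjective (bijective) and `0` otherwise.
`exists_qf`: `v ↦ v_a ^ 2`, `v_a v_b` are quadratic forms (`LinearMap.BilinMap.toQuadraticMap` or
`QuadraticMap.linMulLin (LinearMap.proj a) (LinearMap.proj b)`), sums. `perm_zero`, `perm_tors`: the sum over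
`π` is a combination of the sums for the quadratic forms `q_S = ∑_{i ∈ S} cf (τ i)`.
-/

open scoped Classical

namespace Pool.Agent.LibHD77.Comb

variable {n D : ℕ}

private theorem c3_inner (f : Fin D → Fin D) :
    ∑ S : Finset (Fin D), (if ∀ e, f e ∈ S then (-1 : ℤ) ^ (D - S.card) else 0) =
      if Function.Bijective f then 1 else 0 := by
  have h1 : ∑ S : Finset (Fin D), (if ∀ e, f e ∈ S then (-1 : ℤ) ^ (D - S.card) else 0) =
      ∑ T ∈ (Finset.univ.image f)ᶜ.powerset, (-1 : ℤ) ^ T.card := by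
    rw [← Finset.sum_filter]
    refine Finset.sum_bij' (fun S _ => Sᶜ) (fun T _ => Tᶜ) ?_ ?_ ?_ ?_ ?_
    · intro S hS
      rw [Finset.mem_filter] at hS
      rw [Finset.mem_powerset]
      apply Finset.compl_subset_compl.2
      intro i hi
      rw [Finset.mem_image] at hi
      obtain ⟨e, _, rfl⟩ := hi
      exact hS.2 e
    · intro T hT
      rw [Finset.mem_powerset] at hT
      rw [Finset.mem_filter]
      refine ⟨Finset.mem_univ _, fun e => ?_⟩
      rw [Finset.mem_compl]
      intro he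
      have := hT he
      rw [Finset.mem_compl, Finset.mem_image] at this
      exact this ⟨e, Finset.mem_univ _, rfl⟩
    · intro S _
      exact compl_compl S
    · intro T _
      exact compl_compl T
    · intro S _
      rw [Finset.card_compl, Fintype.card_fin]
  rw [h1, Finset.sum_powerset_neg_one_pow_card]
  congr 1
  rw [eq_iff_iff, Finset.compl_eq_empty_iff, ← Finite.surjective_iff_bijective]
  constructor
  · intro h y
    have := Finset.mem_univ y
    rw [← h, Finset.mem_image] at this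
    obtain ⟨e, _, he⟩ := this
    exact ⟨e, he⟩
  · intro h
    rw [Finset.eq_univ_iff_forall]
    intro y
    obtain ⟨e, he⟩ := h y
    rw [Finset.mem_image]
    exact ⟨e, Finset.mem_univ _, he⟩

theorem ryser (c : Fin D → Fin D → ℤ) :
    ∑ π : Equiv.Perm (Fin D), ∏ e, c (π e) e =
      ∑ S : Finset (Fin D), (-1 : ℤ) ^ (D - S.card) * ∏ e, ∑ i ∈ S, c i e := by
  have h1 : ∀ S : Finset (Fin D), (-1 : ℤ) ^ (D - S.card) * ∏ e, ∑ i ∈ S, c i e =
      ∑ f : Fin D → Fin D, (if ∀ e, f e ∈ S then (-1 : ℤ) ^ (D - S.card) else 0) *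
        ∏ e, c (f e) e := by
    intro S
    rw [Finset.prod_univ_sum, Finset.mul_sum]
    have h2 : ∀ f : Fin D → Fin D,
        (if ∀ e, f e ∈ S then (-1 : ℤ) ^ (D - S.card) else 0) * ∏ e, c (f e) e =
        if ∀ e, f e ∈ S then (-1 : ℤ) ^ (D - S.card) * ∏ e, c (f e) e else 0 := by
      intro f
      split_ifs
      · rfl
      · exact zero_mul _
    simp_rw [h2]
    rw [← Finset.sum_filter]
    apply Finset.sum_congr
    · ext f
      rw [Fintype.mem_piFinset, Finset.mem_filter]
      simp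
    · intro f _
      rfl
  simp_rw [h1]
  rw [Finset.sum_comm]
  simp_rw [← Finset.sum_mul, c3_inner]
  have h3 : ∀ f : Fin D → Fin D, (if Function.Bijective f then (1 : ℤ) else 0) * ∏ e, c (f e) e =
      if Function.Bijective f then ∏ e, c (f e) e else 0 := by
    intro f
    split_ifs
    · exact one_mul _
    · exact zero_mul _
  simp_rw [h3]
  rw [← Finset.sum_filter]
  refine Finset.sum_bij (fun π _ => (π : Fin D → Fin D)) ?_ ?_ ?_ ?_
  · intro π _
    rw [Finset.mem_filter]
    exact ⟨Finset.mem_univ _, π.bijective⟩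
  · intro π _ π' _ h
    exact DFunLike.coe_injective h
  · intro f hf
    rw [Finset.mem_filter] at hf
    exact ⟨Equiv.ofBijective f hf.2, Finset.mem_univ _, rfl⟩
  · intro π _
    rfl

private theorem c3_one (t : Finset (Fin n)) :
    ∃ q : QuadraticMap ℤ (Fin n → ℤ) ℤ, ∀ v, q v = cf t v := by
  by_cases h1 : t.card = 1
  · obtain ⟨a, rfl⟩ := Finset.card_eq_one.1 h1
    refine ⟨QuadraticMap.linMulLin (LinearMap.proj a) (LinearMap.proj a), fun v => ?_⟩
    unfold cf
    rw [if_pos (by simp), Finset.prod_singleton, QuadraticMap.linMulLin_apply, LinearMap.proj_apply]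
    ring
  · by_cases h2 : t.card = 2
    · obtain ⟨a, b, hab, rfl⟩ := Finset.card_eq_two.1 h2
      refine ⟨QuadraticMap.linMulLin (LinearMap.proj a) (LinearMap.proj b), fun v => ?_⟩
      unfold cf
      rw [if_neg h1, if_pos h2, Finset.prod_pair hab, QuadraticMap.linMulLin_apply,
        LinearMap.proj_apply, LinearMap.proj_apply]
    · refine ⟨0, fun v => ?_⟩
      unfold cf
      rw [if_neg h1, if_neg h2]
      rfl

theorem exists_qf (τ : Fin D → Finset (Fin n)) (S : Finset (Fin D)) :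
    ∃ q : QuadraticMap ℤ (Fin n → ℤ) ℤ, ∀ v, q v = ∑ i ∈ S, cf (τ i) v := by
  choose q hq using fun i : Fin D => c3_one (τ i)
  refine ⟨∑ i ∈ S, q i, fun v => ?_⟩
  rw [QuadraticMap.sum_apply]
  exact Finset.sum_congr rfl fun i _ => hq i v

private theorem c3_expand (τ : Fin D → Finset (Fin n)) (w : Fin D → Fin n → ℤ) (m : ℤ) :
    m * ∑ π : Equiv.Perm (Fin D), ∏ e, cf (τ (π e)) (w e) =
      ∑ S : Finset (Fin D), (-1 : ℤ) ^ (D - S.card) * (m * ∏ e, ∑ i ∈ S, cf (τ i) (w e)) := by
  rw [ryser fun i e => cf (τ i) (w e), Finset.mul_sum]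
  apply Finset.sum_congr rfl
  intro S _
  ring

theorem perm_zero {I : Type} [Fintype I] (m : I → ℤ) (v : I → Fin D → Fin n → ℤ)
    (h : ∀ q : QuadraticMap ℤ (Fin n → ℤ) ℤ, ∑ i, m i * ∏ e, q (v i e) = 0)
    (τ : Fin D → Finset (Fin n)) :
    ∑ i, m i * ∑ π : Equiv.Perm (Fin D), ∏ e, cf (τ (π e)) (v i e) = 0 := by
  simp_rw [c3_expand]
  rw [Finset.sum_comm]
  apply Finset.sum_eq_zero
  intro S _
  rw [← Finset.mul_sum]
  obtain ⟨q, hq⟩ := exists_qf τ S
  have := h q
  simp_rw [hq] at this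
  rw [this, mul_zero]

theorem perm_tors {I : Type} [Fintype I] {P : Type} [AddCommGroup P] (x : I → P) (m : I → ℤ)
    (v : I → Fin D → Fin n → ℤ)
    (h : ∀ q : QuadraticMap ℤ (Fin n → ℤ) ℤ,
      IsOfFinAddOrder (∑ i, (m i * ∏ e, q (v i e)) • x i))
    (τ : Fin D → Finset (Fin n)) :
    IsOfFinAddOrder
      (∑ i, (m i * ∑ π : Equiv.Perm (Fin D), ∏ e, cf (τ (π e)) (v i e)) • x i) := by
  simp_rw [c3_expand, Finset.sum_smul]
  rw [Finset.sum_comm]
  have : ∑ S : Finset (Fin D), ∑ i, ((-1 : ℤ) ^ (D - S.card) *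
      (m i * ∏ e, ∑ i' ∈ S, cf (τ i') (v i e))) • x i ∈ AddCommGroup.torsion P := by
    apply AddSubgroup.sum_mem
    intro S _
    obtain ⟨q, hq⟩ := exists_qf τ S
    have h1 := h q
    simp_rw [hq] at h1
    simp_rw [mul_smul ((-1 : ℤ) ^ (D - S.card))]
    rw [← Finset.smul_sum]
    exact AddSubgroup.zsmul_mem _ h1 _
  exact this

end Pool.Agent.LibHD77.Comb
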