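import Pool.Agent.LibHD77.C2
import Pool.Agent.LibHD77.C3
import Pool.Agent.LibHD77.C4

/-!
[HD77 C5] the combinatorial theorem. Proof. Multiply by `D!`. By `expand` and `Gt_aff`,
`∑ m_i Φ(δ_i) = ∑_τ (∑_i m_i c(δ_i, τ)) Gt τ o + ∑_τ ∑_a φ_{τ,a} (∑_i m_i c(δ_i, τ) fx (δ_i) a)`, where
`c(δ, τ) = ∏ cf (τ e) (vec δ e)` vanishes unless `τ` is disjoint (the blocks of `δ` are) and
`j a (pts o δ a) = fx j δ a`. Replace `τ` by `τ ∘ π` and sum over `π` (`Gt_perm`; choose `φ` for a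
representative of each class or average: `∑_a φ_{τ∘π,a} (j (s a)) = ∑_a φ_{τ,a} (j (s a))` for all `s` in `S`
because both are `Gt τ s - Gt τ o`; taking `s = o` except at one coordinate gives
`φ_{τ∘π,a} (j a p) = φ_{τ,a} (j a p)` for `p ∈ S a`); then `perm_zero` and `perm_tors`.
-/

open scoped Classical

namespace Pool.Agent.LibHD77.Comb

variable {n D : ℕ} {A : Fin n → Type} {L : Type} {J : Fin n → Type} [∀ a, AddCommGroup (J a)]
  {G : Type} [AddCommGroup G] {l : Fin n → L} {o : ∀ a, A a} {j : ∀ a, A a → J a}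
  {S : ∀ a, Set (A a)} {Φ : Pat A (Fin D) → G}

/-- the atoms are contained in the blocks -/
theorem cf_ne (δ : Pat A (Fin D)) (τ : Fin D → Finset (Fin n))
    (hc : ∏ e, cf (τ e) (vec δ e) ≠ 0) : Dj τ := by
  have h1 : ∀ e a, a ∈ τ e → vec δ e a ≠ 0 := by
    intro e a ha h0
    apply hc
    refine Finset.prod_eq_zero (Finset.mem_univ e) ?_
    unfold cf
    split_ifs with h2 h3
    · exact Finset.prod_eq_zero ha (by rw [h0]; norm_num)
    · exact Finset.prod_eq_zero ha h0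
    · rfl
  intro e e' hee
  rw [Finset.disjoint_left]
  intro a ha ha'
  have h2 := h1 e a ha
  have h3 := h1 e' a ha'
  unfold vec at h2 h3
  cases hδ : δ a with
  | inl s => rw [hδ] at h2; exact h2 rfl
  | inr q =>
    rw [hδ] at h2 h3
    have h4 : q.1 = e := by
      by_contra h5
      exact h2 (if_neg h5)
    have h5 : q.1 = e' := by
      by_contra h5
      exact h3 (if_neg h5)
    exact hee (h4.symm.trans h5)

theorem j_pts (h : Sys l o j S Φ) (δ : Pat A (Fin D)) (a : Fin n) :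
    j a (pts o δ a) = fx j δ a := by
  unfold pts fx
  cases δ a with
  | inl s => rfl
  | inr q => exact h.jo a

theorem pts_mem (h : Sys l o j S Φ) (δ : Pat A (Fin D)) (hS : ∀ a s, δ a = .inl s → s ∈ S a)
    (a : Fin n) : pts o δ a ∈ S a := by
  unfold pts
  cases hδ : δ a with
  | inl s => exact hS a s hδ
  | inr q => exact h.oS a

theorem tors_zero (tf : ∀ (m : ℕ) (g : G), m ≠ 0 → m • g = 0 → g = 0) {g : G}
    (h : IsOfFinAddOrder g) : g = 0 := by
  obtain ⟨m, hm, hg⟩ := isOfFinAddOrder_iff_nsmul_eq_zero.1 h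
  exact tf m g hm.ne' hg

theorem comb (h : Sys l o j S Φ) {I : Type} [Fintype I] (m : I → ℤ) (δ : I → Pat A (Fin D))
    (hδ : ∀ i, ∃ V : Fin D → L, Cmp l (δ i) V)
    (hS : ∀ i a s, δ i a = .inl s → s ∈ S a)
    (h1 : ∀ q : QuadraticMap ℤ (Fin n → ℤ) ℤ, ∑ i, m i * ∏ e, q (vec (δ i) e) = 0)
    (h2 : ∀ (q : QuadraticMap ℤ (Fin n → ℤ) ℤ) (a : Fin n),
      IsOfFinAddOrder (∑ i, (m i * ∏ e, q (vec (δ i) e)) • fx j (δ i) a)) :
    ∑ i, m i • Φ (δ i) = 0 := by
  choose V hV using hδ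
  obtain ⟨Y, hY⟩ : ∃ Y : (Fin D → Finset (Fin n)) → G, ∀ τ, Y τ =
      ∑ i, (m i * ∏ e, cf (τ e) (vec (δ i) e)) • Gt o Φ τ (pts o (δ i)) := ⟨_, fun _ => rfl⟩
  have e1 : ∑ i, m i • Φ (δ i) = ∑ τ, Y τ := by
    simp only [hY]
    rw [Finset.sum_comm]
    refine Finset.sum_congr rfl fun i _ => ?_
    rw [expand h (δ i) (V i) (hV i), Finset.smul_sum]
    refine Finset.sum_congr rfl fun τ _ => ?_
    rw [smul_smul]
  have key : ∀ τ : Fin D → Finset (Fin n),
      ∑ π : Equiv.Perm (Fin D), Y (fun e => τ (π e)) = 0 := by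
    intro τ
    by_cases hτ : Dj τ
    · obtain ⟨φ, hφ⟩ := Gt_aff h τ hτ
      have e2 : ∀ π : Equiv.Perm (Fin D), Y (fun e => τ (π e)) =
          ∑ i, (m i * ∏ e, cf (τ (π e)) (vec (δ i) e)) •
            (Gt o Φ τ o + ∑ a, φ a (fx j (δ i) a)) := by
        intro π
        rw [hY]
        refine Finset.sum_congr rfl fun i _ => ?_
        rw [Gt_perm h τ hτ π, hφ _ fun a => pts_mem h (δ i) (hS i) a]
        simp only [j_pts h]
      simp only [e2]
      rw [Finset.sum_comm]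
      have e3 : ∀ i, ∑ π : Equiv.Perm (Fin D), (m i * ∏ e, cf (τ (π e)) (vec (δ i) e)) •
          (Gt o Φ τ o + ∑ a, φ a (fx j (δ i) a)) =
          (m i * ∑ π : Equiv.Perm (Fin D), ∏ e, cf (τ (π e)) (vec (δ i) e)) • Gt o Φ τ o +
          ∑ a, φ a ((m i * ∑ π : Equiv.Perm (Fin D), ∏ e, cf (τ (π e)) (vec (δ i) e)) •
            fx j (δ i) a) := by
        intro i
        rw [← Finset.sum_smul, ← Finset.mul_sum, smul_add, Finset.smul_sum]
        congr 1
        exact Finset.sum_congr rfl fun a _ => (map_zsmul (φ a) _ _).symm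
      simp only [e3]
      rw [Finset.sum_add_distrib, ← Finset.sum_smul, perm_zero m (fun i => vec (δ i)) h1 τ,
        zero_smul, zero_add, Finset.sum_comm]
      refine Finset.sum_eq_zero fun a _ => ?_
      rw [← map_sum]
      exact tors_zero h.tf ((φ a).isOfFinAddOrder
        (perm_tors (fun i => fx j (δ i) a) m (fun i => vec (δ i)) (fun q => h2 q a) τ))
    · refine Finset.sum_eq_zero fun π _ => ?_
      rw [hY]
      refine Finset.sum_eq_zero fun i _ => ?_
      have e2 : ∏ e, cf (τ (π e)) (vec (δ i) e) = 0 := by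
        by_contra h3
        apply hτ
        have h4 := cf_ne (δ i) (fun e => τ (π e)) h3
        intro e e' hee
        have h5 := h4 (π.symm e) (π.symm e') fun h6 => hee (π.symm.injective h6)
        simpa using h5
      rw [e2, mul_zero, zero_smul]
  rw [e1]
  refine h.tf (Fintype.card (Equiv.Perm (Fin D))) _ Fintype.card_ne_zero ?_
  have e4 : ∀ π : Equiv.Perm (Fin D), ∑ τ, Y τ = ∑ τ : Fin D → Finset (Fin n), Y (fun e => τ (π e)) := by
    intro π
    exact (Equiv.sum_comp (π.symm.arrowCongr (Equiv.refl (Finset (Fin n)))) Y).symm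
  calc Fintype.card (Equiv.Perm (Fin D)) • ∑ τ, Y τ
      = ∑ _π : Equiv.Perm (Fin D), ∑ τ, Y τ := by rw [Finset.sum_const, Finset.card_univ]
    _ = ∑ π : Equiv.Perm (Fin D), ∑ τ : Fin D → Finset (Fin n), Y (fun e => τ (π e)) :=
        Finset.sum_congr rfl fun π _ => e4 π
    _ = ∑ τ : Fin D → Finset (Fin n), ∑ π : Equiv.Perm (Fin D), Y (fun e => τ (π e)) :=
        Finset.sum_comm
    _ = 0 := Finset.sum_eq_zero fun τ _ => key τ

end Pool.Agent.LibHD77.Comb
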