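import Pool.Agent.LibHyp34.Base
import Pool.Agent.LibCHd.Defs

/-!
Cycles of all dimensions on products of hyperelliptic curves, rational equivalence, diagonals.

A closed integral subvariety of dimension `d` is given by its generic point, a point with
coordinates in a function field `M` of dimension `d`.
-/

open scoped Classical
open Polynomial

namespace Pool.Agent.LibHD77

open Pool.Agent.LibBH2
open Pool.Agent.LibCHd (VR RF Red FunF)
open Pool.Agent.LibHyp34 (Hyp Pt Pic jP)

variable {k : Type} [Field k]

/-- The points of the curve `y ^ 2 = f(x)` over `k` with coordinates in the field `M` over `k`. -/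
abbrev MPt (f : k[X]) (M : Type) [Field M] [Algebra k M] : Type := Pt (f.map (algebraMap k M))

/-- The points of the product `C_1 × ... × C_n` of the curves `C_a : y ^ 2 = F_a(x)` with
coordinates in `M`. -/
abbrev Pnt {n : ℕ} (F : Fin n → k[X]) (M : Type) [Field M] [Algebra k M] : Type :=
  ∀ a, MPt (F a) M

/-- The affine coordinates of a point (zero for the point at infinity). -/
def xy {f : k[X]} : Pt f → Fin 2 → k
  | .inf => 0
  | .aff x y _ => ![x, y]

section cycles

variable {n : ℕ} {F : Fin n → k[X]} {M : Type} [Field M] [Algebra k M]

/-- All affine coordinates of a point of the product. -/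
noncomputable def co (u : Pnt F M) (q : Fin n × Fin 2) : M := xy (u q.1) q.2

/-- The closed subvariety with the generic point `u`: the set of the coordinates at infinity and
the ideal of the polynomial relations between the affine coordinates. -/
noncomputable def eqs (u : Pnt F M) : Set (Fin n) × Set (MvPolynomial (Fin n × Fin 2) k) :=
  ({a | u a = .inf}, {G | MvPolynomial.aeval (co u) G = 0})

/-- The field generated by the coordinates of `u`: the function field of the subvariety. -/
noncomputable def fld (u : Pnt F M) : IntermediateField k M :=
  IntermediateField.adjoin k (Set.range (co u))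

/-- Cycles: formal integral combinations of closed subvarieties, each given as in `eqs` (pairs
which are not of the form `eqs u` play no role). -/
abbrev Cyc (k : Type) [Field k] (n : ℕ) : Type :=
  (Set (Fin n) × Set (MvPolynomial (Fin n × Fin 2) k)) →₀ ℤ

/-- The cycle of the point `u`: the subvariety with the generic point `u`, with the multiplicity
`[M : k(u)]` if this degree is finite, and `0` otherwise (push-forward of the fundamental cycle of a
model of `M`). -/
noncomputable def cyc (u : Pnt F M) : Cyc k n :=
  Finsupp.single (eqs u) (Module.finrank (fld u) M : ℤ)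

/-- Specialisation of a point of a curve at a place. -/
def SpR {K : Type} [Field K] [Algebra k K] (v : Place k K) {f : k[X]} :
    MPt f K → MPt f (RF v) → Prop
  | .inf, p => p = .inf
  | .aff x _ _, .inf => v.ord x < 0
  | .aff x y _, .aff x₀ y₀ _ => Red v x x₀ ∧ Red v y y₀

/-- `c` is the push-forward of the divisor of a function `g`: `K` is a function field of dimension
`d + 1`, `u` a `K`-point of the product (a rational map from a model of `K`), and `c` is the sum over
the places `v` of `K` whose residue field is a function field of dimension `d` of `ord_v g` times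
the cycle of the specialisation of `u` at `v`. -/
def IsDiv {n : ℕ} (F : Fin n → k[X]) (d : ℕ) (c : Cyc k n) : Prop :=
  ∃ (K : Type) (_ : Field K) (_ : Algebra k K) (u : Pnt F K) (g : K) (S : Finset (Place k K))
    (C : Place k K → Cyc k n),
    FunF k (d + 1) K ∧ g ≠ 0 ∧
    (∀ v ∈ S, FunF k d (RF v) ∧ ∃ q : Pnt F (RF v), (∀ a, SpR v (u a) (q a)) ∧ C v = cyc q) ∧
    (∀ v, v ∉ S → v.ord g ≠ 0 → FunF k d (RF v) → ∀ q : Pnt F (RF v),
      (∀ a, SpR v (u a) (q a)) → cyc q = 0) ∧
    c = ∑ v ∈ S, v.ord g • C v

/-- The cycles of dimension `d` rationally equivalent to zero. -/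
noncomputable def RatEq {n : ℕ} (F : Fin n → k[X]) (d : ℕ) : AddSubgroup (Cyc k n) :=
  AddSubgroup.closure {c | IsDiv F d c}

/-- Cycles modulo rational equivalence. -/
abbrev CH {n : ℕ} (F : Fin n → k[X]) (d : ℕ) : Type := Cyc k n ⧸ RatEq F d

/-- The class of the cycle of the point `u`. -/
noncomputable def cls (d : ℕ) (u : Pnt F M) : CH F d := QuotientAddGroup.mk (cyc u)

end cycles

/-- A point with coordinates in `k`, seen as a point with coordinates in `M`. -/
noncomputable def cst (M : Type) [Field M] [Algebra k M] {f : k[X]} : Pt f → MPt f M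
  | .inf => .inf
  | .aff x y h => .aff (algebraMap k M x) (algebraMap k M y) (by
      rw [← map_pow, h, eval_map_algebraMap, aeval_algebraMap_apply, coe_aeval_eq_eval])

section diagonals

variable {n : ℕ}

/-- A diagonal of dimension `D` of the product of the curves `C_a : y ^ 2 = F_a(x)`: every
coordinate is a fixed point of `C_a` or, up to sign, one of `D` free points. -/
abbrev Dia (F : Fin n → k[X]) (D : ℕ) : Type := ∀ a : Fin n, Pt (F a) ⊕ (Fin D × ℤˣ)

variable {F : Fin n → k[X]} {D : ℕ}

/-- `u` is the generic point of the diagonal `δ` and `M` is its function field: the coordinates of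
`u` are the fixed points and the points `± (x_e, y_e) = (x_e, ± y_e)` of `δ`, they generate `M`, and
`M` has dimension `D`. -/
structure IsPt {M : Type} [Field M] [Algebra k M] (δ : Dia F D) (u : Pnt F M) : Prop where
  dim : FunF k D M
  gen : fld u = ⊤
  fix : ∀ a s, δ a = .inl s → u a = cst M s
  free : ∃ x y : Fin D → M, ∀ a e (ε : ℤˣ), δ a = .inr (e, ε) →
    ∃ h, u a = .aff (x e) ((ε : ℤ) * y e) h

/-- The vector of the signs with which the `e`-th free point occurs in the coordinates. -/
def vec (δ : Dia F D) (e : Fin D) (a : Fin n) : ℤ :=
  match δ a with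
  | .inl _ => 0
  | .inr q => if q.1 = e then (q.2 : ℤ) else 0

/-- The class of `s - ∞` in the Picard group of `C_a` if the coordinate `a` is the fixed point `s`,
and `0` otherwise. -/
noncomputable def fx [∀ a, Hyp (F a)] (δ : Dia F D) (a : Fin n) : Pic (F a) :=
  match δ a with
  | .inl s => jP s
  | .inr _ => 0

end diagonals

/-- The class of the point `(p, q)` of the product of two curves. -/
noncomputable def pt2 {f g : k[X]} (p : Pt f) (q : Pt g) : CH ![f, g] 0 :=
  cls 0 (M := k) (fun a => match a with
    | 0 => (cst k p : MPt f k)
    | 1 => (cst k q : MPt g k))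

/-- The class of the zero-cycle `(p, q) - (p, ∞) - (∞, q) + (∞, ∞)` on the product of two curves. -/
noncomputable def sq {f g : k[X]} (p : Pt f) (q : Pt g) : CH ![f, g] 0 :=
  pt2 p q - pt2 p (.inf : Pt g) - pt2 (.inf : Pt f) q + pt2 (.inf : Pt f) (.inf : Pt g)

end Pool.Agent.LibHD77
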