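import Pool.Agent.LibHD77.U2
import Pool.Agent.LibBH2.Exist

/-!
[HD77 L0] the function field `K` of the curve `y ^ 2 = f(x)` over the field `M` (`Gen1 j f X Y`, `j : M → K`) as a
double cover of the line over `M`. Proofs. `K` is an `M`-algebra by `j`. `exists_DC`: `ι` by
`RatFunc.liftAlgHom` of `aeval X` (`h.tr`), `gen`: the elements `ι a + ι b Y` form an intermediate field of
`K / k` which contains `j M`, `X`, `Y` (it is a ring because `Y ^ 2 = ι (f)`; inverse by the conjugate; or:
it is the image of the field `AdjoinRoot (quadPoly F)`), so it is everything by `h.gen`. Not a square: odd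
degree (`not_isSquare_of_odd`, used for `nsq` in LibHyp34/Defs.lean). `place_down`, `place_up`: the same
function `ord`.
-/

open scoped Classical
open Polynomial

namespace Pool.Agent.LibHD77

open Pool.Agent.LibBH2
open Pool.Agent.LibCHd (VR RF Red FunF)
open Pool.Agent.LibHyp34 (Hyp Pt Pic jP Sp KC DCf)

variable {k : Type} [Field k] {M K : Type} [Field M] [Algebra k M] [Field K] [Algebra k K]

theorem exists_DC (f : k[X]) [Hyp f] (j : M →ₐ[k] K) {X Y : K} (h : Gen1 j f X Y) :
    letI : Algebra M K := (j : M →+* K).toAlgebra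
    ∃ D : DC M K, D.s = X ∧ D.w = Y ∧ D.F = f.map (algebraMap k M) ∧
      ¬ IsSquare (algebraMap M[X] (RatFunc M) D.F) := by
  letI : Algebra M K := (j : M →+* K).toAlgebra
  have hj : ∀ m : M, algebraMap M K m = j m := fun _ => rfl
  have hc : ∀ c : k, algebraMap k K c = algebraMap M K (algebraMap k M c) := by
    intro c
    rw [hj, j.commutes]
  have : IsScalarTower k M K := IsScalarTower.of_algebraMap_eq hc
  have hinj : Function.Injective (aeval X : M[X] →ₐ[M] K) := by
    rw [injective_iff_map_eq_zero]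
    intro G hG
    by_contra h0
    exact h.tr G h0 hG
  let ι : RatFunc M →ₐ[M] K := RatFunc.liftAlgHom (aeval X)
    (nonZeroDivisors_le_comap_nonZeroDivisors_of_injective _ hinj)
  have hι : ∀ P : M[X], ι (algebraMap M[X] (RatFunc M) P) = aeval X P := by
    intro P
    exact RatFunc.liftRingHom_algebraMap _ _ _
  have hιX : ι RatFunc.X = X := by
    rw [← RatFunc.algebraMap_X, hι, aeval_X]
  have hodd : Odd (f.map (algebraMap k M)).natDegree := by
    rw [natDegree_map]
    exact Hyp.odd
  have hns : ¬ IsSquare (algebraMap M[X] (RatFunc M) (f.map (algebraMap k M))) :=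
    not_isSquare_of_odd hodd
  have hYF : Y ^ 2 = ι (algebraMap M[X] (RatFunc M) (f.map (algebraMap k M))) := by
    rw [hι, aeval_map_algebraMap]
    exact h.eq
  have hFact : Fact (Irreducible (quadPoly (f.map (algebraMap k M)))) :=
    ⟨quadPoly_irreducible hns⟩
  let e : AdjoinRoot (quadPoly (f.map (algebraMap k M))) →+* K :=
    AdjoinRoot.lift ι.toRingHom Y (by
      simp only [quadPoly, eval₂_sub, eval₂_pow, eval₂_X, eval₂_C]
      rw [hYF]
      simp)
  have he1 : ∀ r, e (AdjoinRoot.of _ r) = ι r := fun r => AdjoinRoot.lift_of _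
  have he2 : e (AdjoinRoot.root _) = Y := AdjoinRoot.lift_root _
  have hconst : ∀ m : M, j m = e (AdjoinRoot.of _ (algebraMap M (RatFunc M) m)) := by
    intro m
    rw [he1, ι.commutes, hj]
  let L : IntermediateField k K := e.fieldRange.toIntermediateField (by
    intro c
    refine ⟨AdjoinRoot.of _ (algebraMap M (RatFunc M) (algebraMap k M c)), ?_⟩
    rw [← hconst, j.commutes])
  have hL : L = ⊤ := by
    rw [eq_top_iff, ← h.gen, IntermediateField.adjoin_le_iff]
    rintro z (⟨m, rfl⟩ | hz)
    · exact ⟨_, (hconst m).symm⟩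
    · rcases hz with rfl | hz
      · refine ⟨AdjoinRoot.of _ RatFunc.X, ?_⟩
        rw [he1, hιX]
      · rw [Set.mem_singleton_iff] at hz
        subst hz
        exact ⟨AdjoinRoot.root _, he2⟩
  refine ⟨⟨ι, Y, f.map (algebraMap k M), hYF, ?_⟩, hιX, rfl, rfl, hns⟩
  intro g
  have hg : g ∈ L := by rw [hL]; trivial
  obtain ⟨z, rfl⟩ := hg
  obtain ⟨a, b, hab⟩ := (DC.ofQuad (f.map (algebraMap k M))).gen z
  refine ⟨a, b, ?_⟩
  have h1 : z = AdjoinRoot.of _ a + AdjoinRoot.of _ b * AdjoinRoot.root _ := hab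
  rw [h1, map_add, map_mul, he1, he1, he2]

theorem place_down (j : M →ₐ[k] K) :
    letI : Algebra M K := (j : M →+* K).toAlgebra
    ∀ v : Place M K, ∃ w : Place k K, ∀ z, w.ord z = v.ord z := by
  letI : Algebra M K := (j : M →+* K).toAlgebra
  intro v
  refine ⟨⟨v.ord, v.ord_zero, v.ord_mul, v.ord_add, ?_, v.exists_uniformizer⟩, fun z => rfl⟩
  intro c hc
  have h1 : algebraMap k K c = algebraMap M K (algebraMap k M c) := (j.commutes c).symm
  rw [h1]
  exact v.ord_const _ ((_root_.map_ne_zero _).2 hc)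

theorem place_up (j : M →ₐ[k] K) (w : Place k K) (hw : ∀ m, w.ord (j m) = 0) :
    letI : Algebra M K := (j : M →+* K).toAlgebra
    ∃ v : Place M K, ∀ z, v.ord z = w.ord z := by
  letI : Algebra M K := (j : M →+* K).toAlgebra
  exact ⟨⟨w.ord, w.ord_zero, w.ord_mul, w.ord_add, fun m _ => hw m, w.exists_uniformizer⟩,
    fun z => rfl⟩

end Pool.Agent.LibHD77
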