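import Pool.Agent.LibHD77.L1d

/-!
[HD77 L1a] the place at a point with coordinates in `M` of the curve `y ^ 2 = f(x)` over `M`. Proof. `exists_DC`,
`DC.exists_unram`, `DC.unram_unique` (LibBH2/Exist.lean, DoubleCover.lean) over the field `M`, `place_down`,
`place_up`; the place is the order in `M((t))` (`Place.ofHom`), so that a regular function has a value in `M`
(its constant coefficient): repeat the proof of `DC.exists_unram`. `ord (X - x₀) = 1`: the image of `X - x₀` is `t`.
-/

open scoped Classical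
open Polynomial

namespace Pool.Agent.LibHD77

open Pool.Agent.LibBH2
open Pool.Agent.LibCHd (VR RF Red FunF)
open Pool.Agent.LibHyp34 (Hyp Pt Pic jP Sp KC DCf)

/-- the place given by an embedding in Laurent series has the residue field `k` -/
theorem ofHom_res {k K : Type} [Field k] [Field K] [Algebra k K] (ψ : K →+* LaurentSeries k)
    (hc : ∀ c : k, ψ (algebraMap k K c) = HahnSeries.C c) (ht : ∃ t : K, (ψ t).order = 1) (z : K)
    (hz : (Place.ofHom ψ hc ht).Reg z) :
    (Place.ofHom ψ hc ht).Zer (z - algebraMap k K ((ψ z).coeff 0)) := by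
  by_cases h0 : z - algebraMap k K ((ψ z).coeff 0) = 0
  · exact Or.inl h0
  right
  rw [Place.ofHom_ord, map_sub, hc]
  have hne : ψ z - HahnSeries.C ((ψ z).coeff 0) ≠ 0 := by
    intro h1
    apply h0
    apply (map_eq_zero ψ).1
    rw [map_sub, hc, h1]
  by_contra hcon
  push Not at hcon
  have h1 := mt HahnSeries.coeff_order_eq_zero.1 hne
  apply h1
  have hz' : z ≠ 0 → 0 ≤ (ψ z).order := by
    intro h2
    have h3 := hz.resolve_left h2
    rwa [Place.ofHom_ord] at h3
  generalize (ψ z - HahnSeries.C ((ψ z).coeff 0)).order = m at hcon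
  rcases hcon.lt_or_eq with h2 | h2
  · rw [HahnSeries.coeff_sub, HahnSeries.C_apply, HahnSeries.coeff_single_of_ne h2.ne, sub_zero]
    by_cases h3 : z = 0
    · rw [h3, map_zero, HahnSeries.coeff_zero]
    · exact HahnSeries.coeff_eq_zero_of_lt_order (lt_of_lt_of_le h2 (hz' h3))
  · subst h2
    rw [HahnSeries.coeff_sub, HahnSeries.C_apply, HahnSeries.coeff_single_same, sub_self]

/-- `DC.exists_unram` with the residue field and the uniformizer -/
theorem exists_unram' {k K : Type} [Field k] [Field K] [Algebra k K] [CharZero k] (D : DC k K)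
    (hF : ¬ IsSquare (algebraMap k[X] (RatFunc k) D.F))
    {s₀ y₀ : k} (hy : y₀ ≠ 0) (hF0 : D.F.eval s₀ = y₀ ^ 2) :
    ∃ v : Place k K, v.ord (D.s - algebraMap k K s₀) = 1 ∧ v.Zer (D.w - algebraMap k K y₀) ∧
      ∀ z, v.Reg z → ∃ m, v.Zer (z - algebraMap k K m) := by
  obtain ⟨W, hW, hWc⟩ := exists_sqrt_powerSeries
    ((D.F.comp (C s₀ + X ^ 1) : k[X]) : PowerSeries k) y₀ hy (by
      rw [Polynomial.constantCoeff_coe, coeff_zero_eq_eval_zero, eval_comp]; simp [hF0])
  obtain ⟨ψ, hψ, hψw⟩ := D.exists_hom hF (ratHom s₀ 1 one_pos) (HahnSeries.ofPowerSeries ℤ k W) (by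
    rw [ratHom_poly, polyHom_apply, ← map_pow, hW])
  have hconst : ∀ c : k, ψ (algebraMap k K c) = HahnSeries.C c := by
    intro c
    have h1 : algebraMap k K c = D.ι (algebraMap k[X] (RatFunc k) (C c)) := by
      rw [D.ι_poly]; simp
    rw [h1, hψ, ratHom_poly, polyHom_apply]
    simp
  have hs : ψ (D.s - algebraMap k K s₀) = HahnSeries.single 1 1 := by
    have h1 : D.s - algebraMap k K s₀ = D.ι (algebraMap k[X] (RatFunc k) (X - C s₀)) := by
      rw [D.ι_poly]; simp
    rw [h1, hψ, ratHom_poly, polyHom_apply]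
    have h2 : ((X - C s₀ : k[X]).comp (C s₀ + X ^ 1) : k[X]) = X := by simp
    rw [h2, Polynomial.coe_X, HahnSeries.ofPowerSeries_X]
  have hord : (ψ (D.s - algebraMap k K s₀)).order = 1 := by
    rw [hs, HahnSeries.order_single one_ne_zero]
  refine ⟨Place.ofHom ψ hconst ⟨_, hord⟩, ?_, ?_, ?_⟩
  · rw [Place.ofHom_ord, hord]
  · by_cases h0 : D.w - algebraMap k K y₀ = 0
    · exact Or.inl h0
    · right
      have h1 : ψ (D.w - algebraMap k K y₀) =
          HahnSeries.ofPowerSeries ℤ k (W - PowerSeries.C y₀) := by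
        rw [map_sub, hconst, hψw, map_sub, HahnSeries.ofPowerSeries_C]
      rw [Place.ofHom_ord, h1]
      apply ofPowerSeries_order_pos
      · rw [map_sub, hWc]; simp
      · intro h
        rw [h, map_zero] at h1
        exact h0 ((map_eq_zero ψ).1 h1)
  · intro z hz
    exact ⟨_, ofHom_res ψ hconst ⟨_, hord⟩ z hz⟩

variable {k : Type} [Field k] [CharZero k] {M K : Type} [Field M] [Algebra k M] [Field K]
  [Algebra k K]

theorem exists_pl_aff (f : k[X]) [Hyp f] {j : M →ₐ[k] K} {X Y : K} (h : Gen1 j f X Y) (x₀ y₀ : M)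
    (h0 : y₀ ^ 2 = aeval x₀ f) (hy : y₀ ≠ 0) :
    ∃ w : Place k K, Triv j w ∧ w.ord (X - j x₀) = 1 ∧ w.Zer (Y - j y₀) ∧
      ∀ v : Place k K, (∀ m, v.ord (j m) = 0) → v.Zer (X - j x₀) → v.Zer (Y - j y₀) → v = w := by
  letI : Algebra M K := (j : M →+* K).toAlgebra
  have hj : ∀ m : M, algebraMap M K m = j m := fun _ => rfl
  have : CharZero M := charZero_of_injective_algebraMap (algebraMap k M).injective
  obtain ⟨D, hDs, hDw, hDF, hDn⟩ := exists_DC f j h
  have hF0 : D.F.eval x₀ = y₀ ^ 2 := by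
    rw [hDF, eval_map_algebraMap, h0]
  obtain ⟨v, hv1, hv2, hv3⟩ := exists_unram' D hDn hy hF0
  obtain ⟨w, hw⟩ := place_down j v
  have hz : ∀ z, w.Zer z ↔ v.Zer z := fun z => by rw [Place.Zer, Place.Zer, hw]
  have hr : ∀ z, w.Reg z ↔ v.Reg z := fun z => by rw [Place.Reg, Place.Reg, hw]
  refine ⟨w, ⟨?_, ?_⟩, ?_, ?_, ?_⟩
  · intro m
    rw [hw]
    by_cases hm : m = 0
    · rw [hm, map_zero, v.ord_zero]
    · exact v.ord_const m hm
  · intro z hz'
    obtain ⟨m, hm⟩ := hv3 z ((hr z).1 hz')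
    exact ⟨m, (hz _).2 hm⟩
  · rw [hw, ← hDs]
    exact hv1
  · rw [hz, ← hDw]
    exact hv2
  · intro u hu hu1 hu2
    obtain ⟨u', hu'⟩ := place_up j u hu
    have hz' : ∀ z, u'.Zer z ↔ u.Zer z := fun z => by rw [Place.Zer, Place.Zer, hu']
    have h2 : (2 : M) ≠ 0 := two_ne_zero
    have hmain : u' = v := by
      apply D.unram_unique h2 hy u' v
      · rw [hz', hDs]
        exact hu1
      · rw [hz', hDw]
        exact hu2
      · right
        rw [hv1]
        exact one_pos
      · exact hv2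
    apply Place.ext'
    intro z
    rw [hw, ← hmain, hu']

end Pool.Agent.LibHD77
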