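import Pool.Agent.LibHD77.L1d
import Pool.Agent.LibHyp34.A5

/-!
[HD77 L1b] the place at infinity of the curve `y ^ 2 = f(x)` over `M`. Proof. `exists_DC` and `DC.atInf` (as in
LibHyp34/A1.lean, `A1_inf`, there for `k = M`; `F = X * f.reverse`), then the proof of `DC.exists_ram` (LibBH2/Exist.lean):
the constant of which a square root is needed is the leading coefficient `1` of `f`; `DC.ram_unique`,
`DC.ram_s` (order of `X⁻¹` is `2`), `place_down`, `place_up`; the place is the order in `M((t))`, so that a regular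
function has a value in `M`.
-/

open scoped Classical
open Polynomial

namespace Pool.Agent.LibHD77

open Pool.Agent.LibBH2
open Pool.Agent.LibCHd (VR RF Red FunF)
open Pool.Agent.LibHyp34 (Hyp Pt Pic jP Sp KC DCf gn)

/-- a regular function has a value at a place given by Laurent series -/
theorem L1b_res {k K : Type} [Field k] [Field K] [Algebra k K] (ψ : K →+* LaurentSeries k)
    (hc : ∀ c : k, ψ (algebraMap k K c) = HahnSeries.C c) (ht : ∃ t : K, (ψ t).order = 1)
    (z : K) (hz : (Place.ofHom ψ hc ht).Reg z) :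
    ∃ m : k, (Place.ofHom ψ hc ht).Zer (z - algebraMap k K m) := by
  by_cases h0 : z = 0
  · refine ⟨0, Or.inl ?_⟩
    rw [h0, map_zero, sub_zero]
  have hord : 0 ≤ (ψ z).order := hz.resolve_left h0
  have hψ : ψ z ≠ 0 := (map_ne_zero ψ).2 h0
  refine ⟨(ψ z).coeff 0, ?_⟩
  by_cases h1 : z - algebraMap k K ((ψ z).coeff 0) = 0
  · exact Or.inl h1
  right
  rw [Place.ofHom_ord]
  have h2 : ψ (z - algebraMap k K ((ψ z).coeff 0)) = ψ z - HahnSeries.C ((ψ z).coeff 0) := by
    rw [map_sub, hc]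
  have h3 : ψ (z - algebraMap k K ((ψ z).coeff 0)) ≠ 0 := (map_ne_zero ψ).2 h1
  have h4 := mt HahnSeries.coeff_order_eq_zero.1 h3
  by_contra hcon
  push Not at hcon
  apply h4
  rw [h2] at hcon ⊢
  generalize (ψ z - HahnSeries.C ((ψ z).coeff 0)).order = i at hcon ⊢
  rw [HahnSeries.coeff_sub]
  rcases hcon.lt_or_eq with hi | hi
  · rw [HahnSeries.coeff_eq_zero_of_lt_order (lt_of_lt_of_le hi hord), HahnSeries.C_apply,
      HahnSeries.coeff_single_of_ne hi.ne, sub_zero]
  · rw [hi, HahnSeries.C_apply, HahnSeries.coeff_single_same, sub_self]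

/-- the place over a simple zero `s₀` of `F = (s - s₀) G`, `G(s₀)` a square -/
theorem L1b_ram {k K : Type} [Field k] [CharZero k] [Field K] [Algebra k K] (D : DC k K)
    (hF : ¬ IsSquare (algebraMap k[X] (RatFunc k) D.F)) {s₀ : k} {G : k[X]}
    (hFG : D.F = (X - C s₀) * G) {y : k} (hy0 : y ≠ 0) (hy : G.eval s₀ = y ^ 2) :
    ∃ v : Place k K, v.Zer (D.s - algebraMap k K s₀) ∧
      ∀ z, v.Reg z → ∃ m, v.Zer (z - algebraMap k K m) := by
  obtain ⟨W, hW, hWc⟩ := exists_sqrt_powerSeries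
    ((G.comp (C s₀ + X ^ 2) : k[X]) : PowerSeries k) y hy0 (by
      rw [Polynomial.constantCoeff_coe, coeff_zero_eq_eval_zero, eval_comp]; simp [hy])
  obtain ⟨ψ, hψ, hψw⟩ := D.exists_hom hF (ratHom s₀ 2 two_pos)
    (HahnSeries.ofPowerSeries ℤ k (PowerSeries.X * W)) (by
    rw [ratHom_poly, polyHom_apply, ← map_pow, mul_pow, hW, hFG]
    congr 1
    simp)
  have hconst : ∀ c : k, ψ (algebraMap k K c) = HahnSeries.C c := by
    intro c
    have h1 : algebraMap k K c = D.ι (algebraMap k[X] (RatFunc k) (C c)) := by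
      rw [D.ι_poly]; simp
    rw [h1, hψ, ratHom_poly, polyHom_apply]
    simp
  have hs : ψ (D.s - algebraMap k K s₀) = HahnSeries.single 2 1 := by
    have h1 : D.s - algebraMap k K s₀ = D.ι (algebraMap k[X] (RatFunc k) (X - C s₀)) := by
      rw [D.ι_poly]; simp
    rw [h1, hψ, ratHom_poly, polyHom_apply]
    have h2 : ((X - C s₀ : k[X]).comp (C s₀ + X ^ 2) : k[X]) = X ^ 2 := by simp
    rw [h2, Polynomial.coe_pow, Polynomial.coe_X, HahnSeries.ofPowerSeries_X_pow]
    norm_num
  have hords : (ψ (D.s - algebraMap k K s₀)).order = 2 := by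
    rw [hs, HahnSeries.order_single one_ne_zero]
  have hordw : (ψ D.w).order = 1 := by
    have hW0 : W ≠ 0 := by rintro rfl; exact hy0 (by rw [← hWc]; simp)
    rw [hψw, map_mul, HahnSeries.ofPowerSeries_X, HahnSeries.order_mul (by simp)
      ((map_ne_zero_iff _ HahnSeries.ofPowerSeries_injective).2 hW0),
      HahnSeries.order_single one_ne_zero]
    have h4 : (HahnSeries.ofPowerSeries ℤ k W).order = 0 := by
      have h5 : HahnSeries.ofPowerSeries ℤ k W ≠ 0 :=
        (map_ne_zero_iff _ HahnSeries.ofPowerSeries_injective).2 hW0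
      apply le_antisymm
      · apply HahnSeries.order_le_of_coeff_ne_zero
        have := HahnSeries.ofPowerSeries_apply_coeff (Γ := ℤ) (R := k) W 0
        rw [Nat.cast_zero] at this
        rw [this]
        simpa [hWc] using hy0
      · by_contra hcon
        push Not at hcon
        have h1 := mt HahnSeries.coeff_order_eq_zero.1 h5
        apply h1
        clear h1
        generalize (HahnSeries.ofPowerSeries ℤ k W).order = m at hcon ⊢
        rw [HahnSeries.ofPowerSeries_apply]
        apply HahnSeries.embDomain_of_notMem_range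
        rintro ⟨n, hn⟩
        have : (n : ℤ) = m := by simpa using hn
        omega
    rw [h4]; norm_num
  refine ⟨Place.ofHom ψ hconst ⟨_, hordw⟩, Or.inr ?_, L1b_res ψ hconst ⟨_, hordw⟩⟩
  rw [Place.ofHom_ord, hords]; exact two_pos

theorem L1b_hinf {M : Type} [Field M] {F : M[X]} {g : ℕ} (hdeg : F.natDegree = 2 * g + 1) :
    aeval (RatFunc.X⁻¹ : RatFunc M) (X * F.reverse) * RatFunc.X ^ (2 * (g + 1)) =
      algebraMap M[X] (RatFunc M) F := by
  have hX : (RatFunc.X : RatFunc M) ≠ 0 := RatFunc.X_ne_zero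
  let _ : Invertible (RatFunc.X : RatFunc M) := invertibleOfNonzero hX
  have h1 := eval₂_reverse_mul_pow (algebraMap M (RatFunc M)) (RatFunc.X : RatFunc M) F
  rw [invOf_eq_inv, hdeg] at h1
  have h2 : eval₂ (algebraMap M (RatFunc M)) RatFunc.X F = algebraMap M[X] (RatFunc M) F := by
    have : (aeval (RatFunc.X : RatFunc M) : M[X] →ₐ[M] RatFunc M) =
        IsScalarTower.toAlgHom M M[X] (RatFunc M) := by
      apply Polynomial.algHom_ext
      simp [RatFunc.algebraMap_X]
    exact DFunLike.congr_fun this F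
  rw [← h2, ← h1, map_mul, aeval_X, aeval_def]
  generalize eval₂ (algebraMap M (RatFunc M)) RatFunc.X⁻¹ F.reverse = E
  field_simp
  ring

theorem L1b_over {M K : Type} [Field M] [CharZero M] [Field K] [Algebra M K] (D : DC M K)
    (hm : D.F.Monic) {g : ℕ} (hdeg : D.F.natDegree = 2 * g + 1)
    (hsq : ¬ IsSquare (algebraMap M[X] (RatFunc M) D.F)) :
    ∃ v : Place M K, v.ord D.s = -2 ∧ (∀ z, v.Reg z → ∃ m, v.Zer (z - algebraMap M K m)) ∧
      ∀ v' : Place M K, v'.ord D.s < 0 → v' = v := by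
  let D' : DC M K := D.atInf (g + 1) (X * D.F.reverse) (L1b_hinf hdeg)
  have hs' : D'.s = D.s⁻¹ := DC.atInf_s _ _ _ _
  have hF' : D'.F = X * D.F.reverse := rfl
  have hsq' : ¬ IsSquare (algebraMap M[X] (RatFunc M) D'.F) :=
    DC.atInf_not_isSquare _ _ _ _ hsq
  have hrev : D.F.reverse.eval 0 = 1 := by
    rw [← coeff_zero_eq_eval_zero, coeff_zero_reverse, hm.leadingCoeff]
  have hF0 : D'.F.eval 0 = 0 := by
    rw [hF']
    simp
  have hF1 : D'.F.derivative.eval 0 ≠ 0 := by
    rw [hF', derivative_mul, eval_add, eval_mul, eval_mul, hrev]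
    simp
  have hFG : D'.F = (X - C (0 : M)) * D.F.reverse := by
    rw [hF', map_zero, sub_zero]
  obtain ⟨v, hv, hres⟩ := L1b_ram D' hsq' hFG one_ne_zero (by rw [hrev, one_pow])
  have hs0 : D.s ≠ 0 := by
    have := D.s_sub_ne_zero 0
    simpa using this
  refine ⟨v, ?_, hres, fun v' hv' => ?_⟩
  · have h1 := (D'.ram_s hF0 hF1 v hv).1
    rw [D'.ram_e hF0 hF1 v hv, map_zero, sub_zero, hs', Place.ord_inv] at h1
    omega
  · refine D'.ram_unique hF0 hF1 v' v (Or.inr ?_) hv
    rw [map_zero, sub_zero, hs', Place.ord_inv]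
    omega

variable {k : Type} [Field k] [CharZero k] {M K : Type} [Field M] [Algebra k M] [Field K]
  [Algebra k K]

theorem exists_pl_inf (f : k[X]) [Hyp f] {j : M →ₐ[k] K} {X Y : K} (h : Gen1 j f X Y) :
    ∃ w : Place k K, Triv j w ∧ w.ord X = -2 ∧
      ∀ v : Place k K, (∀ m, v.ord (j m) = 0) → v.ord X < 0 → v = w := by
  haveI : CharZero M := charZero_of_injective_algebraMap (algebraMap k M).injective
  letI : Algebra M K := (j : M →+* K).toAlgebra
  have halg : ∀ m : M, algebraMap M K m = j m := fun _ => rfl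
  obtain ⟨D, hs, hw, hF, hsq⟩ := exists_DC f j h
  have hm : D.F.Monic := by
    rw [hF]
    exact (Hyp.monic (f := f)).map _
  have hdeg : D.F.natDegree = 2 * gn f + 1 := by
    rw [hF, natDegree_map, Hyp.deg (f := f)]
  obtain ⟨v, hv1, hv2, hv3⟩ := L1b_over D hm hdeg hsq
  obtain ⟨w, hw⟩ := place_down j v
  refine ⟨w, ⟨fun m => ?_, fun z hz => ?_⟩, ?_, fun v' hv' hX => ?_⟩
  · rw [hw]
    by_cases hm0 : m = 0
    · rw [hm0, map_zero, v.ord_zero]
    · exact v.ord_const m hm0
  · have hz' : v.Reg z := hz.imp id fun h => by rwa [hw] at h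
    obtain ⟨m, hm⟩ := hv2 z hz'
    exact ⟨m, hm.imp id fun h => by rwa [hw]⟩
  · rw [hw, ← hs]
    exact hv1
  · obtain ⟨v₁, hv₁⟩ := place_up j v' hv'
    have h1 : v₁ = v := by
      refine hv3 v₁ ?_
      rw [hv₁, hs]
      exact hX
    refine Place.ext' fun z => ?_
    rw [hw, ← h1, hv₁]

end Pool.Agent.LibHD77
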