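import Pool.Agent.LibHD77.L0

/-!
Places with residue field `M`: definition.
-/

open scoped Classical
open Polynomial

namespace Pool.Agent.LibHD77

open Pool.Agent.LibBH2
open Pool.Agent.LibCHd (VR RF Red FunF)
open Pool.Agent.LibHyp34 (Hyp Pt Pic jP Sp KC DCf)

variable {k : Type} [Field k] {M K : Type} [Field M] [Algebra k M] [Field K] [Algebra k K]

/-- `w` is trivial on `M` and has the residue field `M` -/
structure Triv (j : M →ₐ[k] K) (w : Place k K) : Prop where
  triv : ∀ m, w.ord (j m) = 0
  res : ∀ z, w.Reg z → ∃ m, w.Zer (z - j m)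

end Pool.Agent.LibHD77
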