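import Pool.Agent.LibHD77.P1

/-!
[HD77 P2] points whose coordinates specialise into the residue field of a field `M` on which the place is
not trivial have the cycle zero. Proof. `cyc_eq_zero_of_fld` with `L = resField (isRes_resF w) j` and
`trdeg_resField` (LibCHd, see the proof of `cyc_eq_zero` in LibCHd/A.lean): the coordinates of `q a` are
in `L`: for `q a = cst _ s` clear; for `SpR w (mpt j p) (q a)` they are residues of elements of `j M`.
`const_of_H`: (`H` a function field of one variable, `w` not trivial on `H`): `exists_val` (LibCHd/A1.lean)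
gives the values of the coordinates in `k` if they are regular.
-/

open scoped Classical
open Polynomial

namespace Pool.Agent.LibHD77

open Pool.Agent.LibBH2
open Pool.Agent.LibCHd (VR RF Red FunF)
open Pool.Agent.LibHyp34 (Hyp Pt Pic jP Sp)

variable {k : Type} [Field k]

theorem cyc_zero_of_M {n d : ℕ} {F : Fin n → k[X]} {M K : Type} [Field M] [Algebra k M] [Field K]
    [Algebra k K] (hM : FunF k d M) (j : M →ₐ[k] K) (w : Place k K) (m₀ : M)
    (hm₀ : w.ord (j m₀) ≠ 0) (hw : FunF k d (RF w)) (q : Pnt F (RF w))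
    (hq : ∀ a, (∃ s : Pt (F a), q a = cst (RF w) s) ∨ ∃ p : MPt (F a) M, SpR w (mpt j p) (q a)) :
    cyc q = 0 := by
  have hr := LibCHd.isRes_resF w
  apply cyc_eq_zero_of_fld hw q (LibCHd.resField hr j)
    (LibCHd.trdeg_resField hM.trdeg.le hr j ⟨m₀, hm₀⟩)
  rw [fld, IntermediateField.adjoin_le_iff]
  rintro c ⟨⟨a, b⟩, rfl⟩
  show xy (q a) b ∈ LibCHd.resField hr j
  have hL0 : (0 : RF w) ∈ LibCHd.resField hr j := zero_mem _
  have hred : ∀ (m : M) (c : RF w), Red w (j m) c → c ∈ LibCHd.resField hr j := by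
    intro m c h
    obtain ⟨h1, h2⟩ := LibCHd.red_iff.1 h
    rw [← h2]
    exact LibCHd.mem_resField h1
  rcases hq a with ⟨s, hs⟩ | ⟨p, hp⟩
  · rw [hs]
    match s with
    | .inf => exact hL0
    | .aff x y h =>
      show (![algebraMap k (RF w) x, algebraMap k (RF w) y] : Fin 2 → RF w) b ∈ _
      fin_cases b
      · exact (LibCHd.resField hr j).algebraMap_mem x
      · exact (LibCHd.resField hr j).algebraMap_mem y
  · generalize q a = q' at hp
    match p, q', hp with
    | _, .inf, _ => exact hL0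
    | .inf, .aff x₀ y₀ h₀, hp => exact absurd hp (by intro h; cases h)
    | .aff x y h, .aff x₀ y₀ h₀, hp =>
      have hp' : Red w (j x) x₀ ∧ Red w (j y) y₀ := hp
      show (![x₀, y₀] : Fin 2 → RF w) b ∈ _
      fin_cases b
      · exact hred x x₀ hp'.1
      · exact hred y y₀ hp'.2

theorem const_of_H [IsAlgClosed k] {H K : Type} [Field H] [Algebra k H] [Field K] [Algebra k K]
    (hH : FunF k 1 H) (i : H →ₐ[k] K) (w : Place k K) (φ : H) (hφ : w.ord (i φ) ≠ 0) {f : k[X]}
    (T : MPt f H) (q : MPt f (RF w)) (hq : SpR w (mpt i T) q) :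
    ∃ s : Pt f, q = cst (RF w) s := by
  match T, q, hq with
  | _, .inf, _ => exact ⟨.inf, rfl⟩
  | .inf, .aff x₀ y₀ h₀, hq => exact absurd hq (by intro h; cases h)
  | .aff x y h, .aff x₀ y₀ h₀, hq =>
    have hq' : Red w (i x) x₀ ∧ Red w (i y) y₀ := hq
    have hd : Algebra.trdeg k H ≤ 1 := by rw [hH.trdeg]; simp
    obtain ⟨c, hc⟩ := LibCHd.exists_val hd i w ⟨φ, hφ⟩ x hq'.1.reg
    obtain ⟨e, he⟩ := LibCHd.exists_val hd i w ⟨φ, hφ⟩ y hq'.2.reg
    have hx : x₀ = algebraMap k (RF w) c := hq'.1.unique (LibCHd.red_iff_val.2 hc)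
    have hy : y₀ = algebraMap k (RF w) e := hq'.2.unique (LibCHd.red_iff_val.2 he)
    subst hx hy
    refine ⟨.aff c e ?_, rfl⟩
    apply (algebraMap k (RF w)).injective
    rw [map_pow, h₀, eval_map_algebraMap, aeval_algebraMap_apply, coe_aeval_eq_eval]

end Pool.Agent.LibHD77
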