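import Pool.Agent.LibHD77.U0

/-!
[HD77 U2] generic points and dimensions. Adapt LibAC34/A2.lean (`gen1_of_dim`), A5.lean (`gen1_trdeg`).
-/

open scoped Classical
open Polynomial

namespace Pool.Agent.LibHD77

open Pool.Agent.LibBH2
open Pool.Agent.LibCHd (VR RF Red FunF)
open Pool.Agent.LibHyp34 (Hyp Pt Pic jP Sp KC DCf)

variable {k : Type} [Field k] {M₀ M : Type} [Field M₀] [Algebra k M₀] [Field M] [Algebra k M]

omit [Field k] [Algebra k M₀] [Algebra k M] in
/-- values of polynomials at integral elements -/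
theorem U2_int [Algebra M₀ M] {x : M} (hx : IsIntegral M₀ x) (p : M₀[X]) :
    IsIntegral M₀ (aeval x p) := by
  have h1 : aeval x p = ((aeval (⟨x, hx⟩ : integralClosure M₀ M) p : integralClosure M₀ M) : M) :=
    Subalgebra.aeval_coe (integralClosure M₀ M) ⟨x, hx⟩ p
  rw [h1]
  exact (aeval (⟨x, hx⟩ : integralClosure M₀ M) p).2

theorem U2_alg (i : M₀ →ₐ[k] M) {d : ℕ} (h0 : Algebra.trdeg k M₀ ≤ d)
    (h1 : Algebra.trdeg k M = (d + 1 : ℕ)) (S : Set M)
    (hgen : IntermediateField.adjoin k (Set.range i ∪ S) = ⊤)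
    (hS : ∀ x ∈ S, (i : M₀ →+* M).IsIntegralElem x) : False := by
  let _ : Algebra M₀ M := (i : M₀ →+* M).toAlgebra
  have _t : IsScalarTower k M₀ M := IsScalarTower.of_algebraMap_eq fun r => (i.commutes r).symm
  have hS' : ∀ x ∈ S, IsIntegral M₀ x := hS
  have h2 := IntermediateField.isAlgebraic_adjoin hS'
  have h3 : ∀ z : M, z ∈ IntermediateField.adjoin M₀ S := by
    intro z
    have h4 : IntermediateField.adjoin k (Set.range i ∪ S) ≤
        (IntermediateField.adjoin M₀ S).restrictScalars k := by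
      rw [IntermediateField.adjoin_le_iff]
      rintro w (⟨a, rfl⟩ | hw)
      · exact (IntermediateField.adjoin M₀ S).algebraMap_mem a
      · exact IntermediateField.subset_adjoin M₀ S hw
    rw [hgen] at h4
    exact h4 (IntermediateField.mem_top (x := z))
  have h5 : Algebra.IsAlgebraic M₀ M := by
    refine ⟨fun z => ?_⟩
    have h6 := h2.isAlgebraic ⟨z, h3 z⟩
    exact (isAlgebraic_algebraMap_iff (A := M)
      (algebraMap (IntermediateField.adjoin M₀ S) M).injective).2 h6
  have h6 : Algebra.trdeg k M = Algebra.trdeg k M₀ := by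
    rw [← trdeg_add_eq k M₀ (A := M), trdeg_eq_zero_iff.2 h5, add_zero]
  rw [h1] at h6
  rw [← h6] at h0
  have h7 : d + 1 ≤ d := by exact_mod_cast h0
  omega

theorem U2_y (i : M₀ →ₐ[k] M) (f : k[X]) {x y : M} (h : y ^ 2 = aeval x f)
    (hx : (i : M₀ →+* M).IsIntegralElem x) : (i : M₀ →+* M).IsIntegralElem y := by
  let _ : Algebra M₀ M := (i : M₀ →+* M).toAlgebra
  have _t : IsScalarTower k M₀ M := IsScalarTower.of_algebraMap_eq fun r => (i.commutes r).symm
  have hx' : IsIntegral M₀ x := hx
  have h1 : IsIntegral M₀ (y ^ 2) := by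
    rw [h, ← aeval_map_algebraMap M₀ x f]
    exact U2_int hx' _
  exact IsIntegral.of_pow (by norm_num) h1

theorem gen1_of_dim (f : k[X]) [Hyp f] (i : M₀ →ₐ[k] M) (x y : M) {d : ℕ}
    (h0 : Algebra.trdeg k M₀ ≤ d) (h1 : Algebra.trdeg k M = (d + 1 : ℕ))
    (hy : y ^ 2 = aeval x f)
    (hgen : IntermediateField.adjoin k (Set.range i ∪ {x, y}) = ⊤) : Gen1 i f x y := by
  refine ⟨hy, fun G hG h2 => ?_, hgen⟩
  have hx : (i : M₀ →+* M).IsIntegralElem x := by
    let _ : Algebra M₀ M := (i : M₀ →+* M).toAlgebra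
    have h3 : IsAlgebraic M₀ x := ⟨G, hG, h2⟩
    exact h3.isIntegral
  refine U2_alg i h0 h1 _ hgen fun c hc => ?_
  rcases hc with rfl | hc
  · exact hx
  · rw [Set.mem_singleton_iff.1 hc]
    exact U2_y i f hy hx

/-- the transcendence degree of `M` over `k` -/
theorem U2_trdeg {f : k[X]} {i : M₀ →ₐ[k] M} {x y : M} (h : Gen1 i f x y) :
    Algebra.trdeg k M = Algebra.trdeg k M₀ + 1 := by
  obtain ⟨heq, hx, hgen⟩ := h
  let _ : Algebra M₀ M := (i : M₀ →+* M).toAlgebra
  have : IsScalarTower k M₀ M := IsScalarTower.of_algebraMap_eq fun r => (i.commutes r).symm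
  have hadd : Algebra.trdeg k M₀ + Algebra.trdeg M₀ M = Algebra.trdeg k M :=
    trdeg_add_eq k M₀ (A := M)
  rw [← hadd]
  congr 1
  apply le_antisymm
  · -- `M` is algebraic over `M₀[x]`
    set R := Algebra.adjoin M₀ ({x} : Set M) with hR
    have hxR : x ∈ R := Algebra.subset_adjoin rfl
    have hiR : ∀ m : M₀, i m ∈ R := fun m => R.algebraMap_mem m
    have hmem : ∀ z : M, z ∈ R → IsAlgebraic R z := fun z hz => isAlgebraic_algebraMap (⟨z, hz⟩ : R)
    have hy : IsAlgebraic R y := by
      have h1 : aeval x f ∈ R := by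
        rw [← aeval_map_algebraMap M₀ x f]
        have h2 : aeval x (f.map (algebraMap k M₀)) =
            ((aeval (⟨x, hxR⟩ : R) (f.map (algebraMap k M₀)) : R) : M) :=
          Subalgebra.aeval_coe R ⟨x, hxR⟩ _
        rw [h2]
        exact (aeval (⟨x, hxR⟩ : R) (f.map (algebraMap k M₀))).2
      have h3 : IsIntegral R (y ^ 2) := by
        rw [heq]
        exact isIntegral_algebraMap (R := R) (A := M) (x := ⟨_, h1⟩)
      have h4 : IsIntegral R y := IsIntegral.of_pow (by norm_num) h3
      exact h4.isAlgebraic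
    have halg : ∀ z : M, IsAlgebraic R z := by
      let L : IntermediateField k M :=
        { carrier := {z | IsAlgebraic R z}
          mul_mem' := fun {a b} ha hb => IsAlgebraic.mul ha hb
          add_mem' := fun {a b} ha hb => IsAlgebraic.add ha hb
          algebraMap_mem' := fun r => by
            rw [← i.commutes r]
            exact hmem _ (hiR _)
          inv_mem' := fun a ha => IsAlgebraic.inv ha }
      have hL : L = ⊤ := by
        rw [eq_top_iff, ← hgen, IntermediateField.adjoin_le_iff]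
        rintro z (⟨m, rfl⟩ | hz)
        · exact hmem _ (hiR m)
        · rcases hz with rfl | hz
          · exact hmem _ hxR
          · rw [Set.mem_singleton_iff] at hz
            rw [hz]
            exact hy
      intro z
      have : z ∈ L := by rw [hL]; trivial
      exact this
    have : Algebra.IsAlgebraic (Algebra.adjoin M₀ ({x} : Set M)) M := ⟨halg⟩
    have := Algebra.IsAlgebraic.trdeg_le_cardinalMk M₀ ({x} : Set M)
    simpa using this
  · have htr : Transcendental M₀ x := by
      rintro ⟨p, hp0, hp⟩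
      exact hx p hp0 hp
    have : Algebra.Transcendental M₀ M := ⟨⟨x, htr⟩⟩
    exact Cardinal.one_le_iff_pos.2 (trdeg_pos (R := M₀) (A := M))

theorem gen1_trdeg {f : k[X]} {i : M₀ →ₐ[k] M} {x y : M} (h : Gen1 i f x y) {d : ℕ}
    (hd : Algebra.trdeg k M = (d + 1 : ℕ)) : Algebra.trdeg k M₀ = d := by
  have h1 := U2_trdeg h
  rw [hd] at h1
  push_cast at h1
  exact (Cardinal.add_one_inj.1 h1).symm

theorem gen1_trdeg' {f : k[X]} {i : M₀ →ₐ[k] M} {x y : M} (h : Gen1 i f x y) {d : ℕ}
    (hd : Algebra.trdeg k M₀ = d) : Algebra.trdeg k M = (d + 1 : ℕ) := by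
  rw [U2_trdeg h, hd]
  push_cast
  rfl

/-- a function field of dimension `d + 1` from one of dimension `d` -/
theorem gen1_funF {f : k[X]} {i : M₀ →ₐ[k] M} {x y : M} (h : Gen1 i f x y) {d : ℕ}
    (hd : FunF k d M₀) : FunF k (d + 1) M := by
  obtain ⟨heq, hx, hgen⟩ := h
  obtain ⟨t, ht, hfinM⟩ := hd
  let _ : Algebra M₀ M := (i : M₀ →+* M).toAlgebra
  have htow : IsScalarTower k M₀ M := IsScalarTower.of_algebraMap_eq fun r => (i.commutes r).symm
  have hxt : AlgebraicIndependent M₀ (fun _ : Unit => x) := by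
    rw [algebraicIndependent_unique_type_iff, transcendental_iff]
    intro p hp
    by_contra hne
    exact hx p hne hp
  have hind := ht.sumElim_comp hxt
  let e : Fin (d + 1) ≃ Unit ⊕ Fin d :=
    ((finSuccEquiv d).trans (Equiv.optionEquivSumPUnit (Fin d))).trans (Equiv.sumComm _ _)
  refine ⟨Sum.elim (fun _ : Unit => x) (algebraMap M₀ M ∘ t) ∘ e,
    hind.comp e e.injective, ?_⟩
  rw [e.surjective.range_comp]
  set E := IntermediateField.adjoin k
    (Set.range (Sum.elim (fun _ : Unit => x) (algebraMap M₀ M ∘ t))) with hE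
  have hE1 : x ∈ E := IntermediateField.subset_adjoin _ _ ⟨Sum.inl (), rfl⟩
  have hE2 : ∀ j, i (t j) ∈ E := fun j =>
    IntermediateField.subset_adjoin _ _ ⟨Sum.inr j, rfl⟩
  obtain ⟨S₂, h2, h2'⟩ := Pool.Agent.LibCHd.funF_image i t hfinM E hE2
  have hyE : IsIntegral E y := by
    have h1 : aeval x f ∈ E := by
      have h2 : aeval x f = ((aeval (⟨x, hE1⟩ : E) f : E) : M) :=
        IntermediateField.aeval_coe E ⟨x, hE1⟩ f
      rw [h2]
      exact (aeval (⟨x, hE1⟩ : E) f).2
    have h3 : IsIntegral E (y ^ 2) := by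
      rw [heq]
      exact isIntegral_algebraMap (R := E) (A := M) (x := ⟨_, h1⟩)
    exact IsIntegral.of_pow (by norm_num) h3
  have htop : IntermediateField.adjoin E ((S₂ : Set M) ∪ {y}) = ⊤ := by
    rw [eq_top_iff]
    intro z _
    have h3 : IntermediateField.adjoin k (Set.range i ∪ {x, y}) ≤
        (IntermediateField.adjoin E ((S₂ : Set M) ∪ {y})).restrictScalars k := by
      rw [IntermediateField.adjoin_le_iff]
      rintro w (⟨m, rfl⟩ | hw)
      · exact IntermediateField.adjoin.mono E _ _ Set.subset_union_left (h2' m)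
      · rcases hw with rfl | hw
        · exact (IntermediateField.adjoin E ((S₂ : Set M) ∪ {y})).algebraMap_mem (⟨_, hE1⟩ : E)
        · rw [Set.mem_singleton_iff] at hw
          rw [hw]
          exact IntermediateField.subset_adjoin E _ (Or.inr rfl)
    rw [hgen] at h3
    exact h3 (IntermediateField.mem_top (x := z))
  have hfin : FiniteDimensional E (IntermediateField.adjoin E ((S₂ : Set M) ∪ {y})) := by
    have : Finite ↥((S₂ : Set M) ∪ {y}) :=
      (S₂.finite_toSet.union (Set.finite_singleton y)).to_subtype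
    refine IntermediateField.finiteDimensional_adjoin ?_
    rintro z (hz | hz)
    · exact h2 z hz
    · rw [Set.mem_singleton_iff] at hz
      rw [hz]
      exact hyE
  rw [htop] at hfin
  exact Module.Finite.equiv (IntermediateField.topEquiv (F := E) (E := M)).toLinearEquiv

end Pool.Agent.LibHD77
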