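import Pool.Agent.LibHD77.U1
import Pool.Agent.LibHD77.U2
import Pool.Agent.LibHyp34.A2

/-!
[HD77 U3] generic points and compositums. Adapt LibAC34/A4.lean (`funF_KE`, `gen1_of_cps`, `exists_cps_KE`,
`gen1_cps`) and A5b.lean (`gen1_swap`): `xs f` is transcendental over `k` (`transcendental_ι`, LibHyp34/FF) and
`KC f = k(xs, ys)` (`(DCf f).gen`, `(DCf f).finite`); a place: `vp .inf`.
-/

open scoped Classical
open Polynomial

namespace Pool.Agent.LibHD77

open Pool.Agent.LibBH2
open Pool.Agent.LibCHd (VR RF Red FunF IsCps)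
open Pool.Agent.LibHyp34 (Hyp Pt Pic jP Sp KC DCf)

variable {k : Type} [Field k]

theorem u3_mem (f : k[X]) [Hyp f] (L : IntermediateField k (KC f)) (hs : xs f ∈ L)
    (hw : ys f ∈ L) : L = ⊤ := by
  rw [eq_top_iff]
  intro g _
  obtain ⟨a, b, rfl⟩ := (DCf f).gen g
  exact L.add_mem (Pool.Agent.LibHyp34.ratfunc_mem (DCf f).ι L hs a)
    (L.mul_mem (Pool.Agent.LibHyp34.ratfunc_mem (DCf f).ι L hs b) hw)

theorem u3_trans (f : k[X]) [Hyp f] : Transcendental k (xs f) :=
  Pool.Agent.LibHyp34.transcendental_ι (DCf f).ι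

theorem funF_KC (f : k[X]) [Hyp f] : FunF k 1 (KC f) :=
  Pool.Agent.LibCHd.funF_one (DCf f).ι (DCf f).finite

theorem gen1_of_cps (f : k[X]) [Hyp f] {M K : Type} [Field M] [Algebra k M] [Field K]
    [Algebra k K] {i : KC f →ₐ[k] K} {j : M →ₐ[k] K} (hc : IsCps i j) :
    Gen1 j f (i (xs f)) (i (ys f)) := by
  refine ⟨?_, fun G hG => hc.eval₂_ne_zero _ (u3_trans f) G hG, ?_⟩
  · rw [← map_pow, ys_sq, aeval_algHom_apply]
  · rw [eq_top_iff, ← hc.adjoin_eq_top, IntermediateField.adjoin_le_iff]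
    rintro z (⟨g, rfl⟩ | ⟨m, rfl⟩)
    · have h1 : (IntermediateField.adjoin k (Set.range j ∪ {i (xs f), i (ys f)})).comap i = ⊤ := by
        apply u3_mem
        · exact IntermediateField.subset_adjoin _ _ (by simp)
        · exact IntermediateField.subset_adjoin _ _ (by simp)
      have h2 : g ∈ (⊤ : IntermediateField k (KC f)) := IntermediateField.mem_top
      rw [← h1] at h2
      exact h2
    · exact IntermediateField.subset_adjoin _ _ (Or.inl ⟨m, rfl⟩)

theorem exists_cps_KC [CharZero k] [IsAlgClosed k] (f : k[X]) [Hyp f] (M : Type) [Field M]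
    [Algebra k M] :
    ∃ (K : Type) (_ : Field K) (_ : Algebra k K) (i : KC f →ₐ[k] K) (j : M →ₐ[k] K),
      IsCps i j := by
  obtain ⟨e, hk, -, he⟩ := Pool.Agent.LibCHd.exists_laurent M
    (Pool.Agent.LibHyp34.vp (.inf : Pt f))
    (Pool.Agent.LibCHd.rat_of_funF (funF_KC f) _)
  exact Pool.Agent.LibCHd.exists_cps e hk he

theorem gen1_cps [CharZero k] [IsAlgClosed k] (f : k[X]) [Hyp f] {M K : Type} [Field M]
    [Algebra k M] [Field K] [Algebra k K] (j : M →ₐ[k] K) (x y : K) (h : Gen1 j f x y) :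
    ∃ i : KC f →ₐ[k] K, i (xs f) = x ∧ i (ys f) = y ∧ IsCps i j := by
  obtain ⟨K', _, _, i', j', hc⟩ := exists_cps_KC f M
  obtain ⟨θ, hθj, hθx, hθy⟩ := gen1_lift f j' _ _ (gen1_of_cps f hc) j x y h.eq h.tr
  have hphi : ∀ z, Pool.Agent.LibCHd.phi (θ.comp i') j z =
      θ (Pool.Agent.LibCHd.phi i' j' z) := by
    intro z
    have h1 : Pool.Agent.LibCHd.phi (θ.comp i') j = θ.comp (Pool.Agent.LibCHd.phi i' j') := by
      apply Algebra.TensorProduct.ext'
      intro g m
      rw [Pool.Agent.LibCHd.phi_tmul, AlgHom.comp_apply, AlgHom.comp_apply,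
        Pool.Agent.LibCHd.phi_tmul, map_mul, hθj]
    rw [h1, AlgHom.comp_apply]
  refine ⟨θ.comp i', hθx, hθy, ⟨?_, ?_⟩⟩
  · intro a b hab
    rw [hphi, hphi] at hab
    exact hc.inj (θ.toRingHom.injective hab)
  · have hsurj : θ.fieldRange = ⊤ := by
      rw [eq_top_iff, ← h.gen, IntermediateField.adjoin_le_iff]
      rintro z (⟨m, rfl⟩ | hz)
      · exact ⟨j' m, hθj m⟩
      · rcases hz with rfl | hz
        · exact ⟨_, hθx⟩
        · rw [Set.mem_singleton_iff] at hz
          subst hz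
          exact ⟨_, hθy⟩
    intro z
    have hz : z ∈ θ.fieldRange := by rw [hsurj]; exact IntermediateField.mem_top
    obtain ⟨z', rfl⟩ := hz
    obtain ⟨a, b, hb, hab⟩ := hc.gen z'
    refine ⟨a, b, ?_, ?_⟩
    · rw [hphi]
      exact (map_ne_zero θ).2 hb
    · rw [hphi, hphi, ← hab, map_mul]
      rfl

/-- the exchange of two independent generic points -/
theorem gen1_swap (f : k[X]) [Hyp f] {M₀ M K : Type} [Field M₀] [Algebra k M₀] [Field M]
    [Algebra k M] [Field K] [Algebra k K] {i : M₀ →ₐ[k] M} {x y : M} (h : Gen1 i f x y) {d : ℕ}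
    (hd : Algebra.trdeg k M = (d + 1 : ℕ)) {j : M →ₐ[k] K} {X Y : K} (hP : Gen1 j f X Y) :
    ∃ j' : M →ₐ[k] K, (∀ m, j' (i m) = j (i m)) ∧ j' x = X ∧ j' y = Y ∧
      Gen1 j' f (j x) (j y) := by
  have htr' : ∀ G : Polynomial M₀, G ≠ 0 →
      Polynomial.eval₂ ((j.comp i : M₀ →ₐ[k] K) : M₀ →+* K) X G ≠ 0 := by
    intro G hG
    have h1 : G.map (i : M₀ →+* M) ≠ 0 := by
      rwa [Ne, Polynomial.map_eq_zero]
    have h2 := hP.tr _ h1
    rw [Polynomial.eval₂_map] at h2
    exact h2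
  obtain ⟨j', hj1, hjx, hjy⟩ := gen1_lift f i x y h (j.comp i) X Y hP.eq htr'
  refine ⟨j', fun m => hj1 m, hjx, hjy, ?_⟩
  refine gen1_of_dim f j' (j x) (j y) (d := d + 1) hd.le (gen1_trdeg' hP hd) ?_ ?_
  · rw [← map_pow, h.eq, aeval_algHom_apply]
  rw [eq_top_iff, ← hP.gen, IntermediateField.adjoin_le_iff]
  have hj : ∀ m : M, j m ∈ IntermediateField.adjoin k (Set.range j' ∪ {j x, j y}) := by
    intro m
    have h1 : IntermediateField.adjoin k (Set.range i ∪ {x, y}) ≤
        (IntermediateField.adjoin k (Set.range j' ∪ {j x, j y})).comap j := by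
      rw [IntermediateField.adjoin_le_iff]
      rintro c (⟨m, rfl⟩ | hc)
      · show j (i m) ∈ IntermediateField.adjoin k (Set.range j' ∪ {j x, j y})
        have h2 := hj1 m
        rw [AlgHom.comp_apply] at h2
        rw [← h2]
        exact IntermediateField.subset_adjoin k _ (Or.inl ⟨_, rfl⟩)
      · show j c ∈ IntermediateField.adjoin k (Set.range j' ∪ {j x, j y})
        refine IntermediateField.subset_adjoin k _ (Or.inr ?_)
        rcases hc with rfl | hc
        · exact Or.inl rfl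
        · rw [Set.mem_singleton_iff] at hc
          subst hc
          exact Or.inr rfl
    rw [h.gen] at h1
    exact h1 (IntermediateField.mem_top (F := k) (E := M) (x := m))
  rintro c (⟨m, rfl⟩ | hc)
  · exact hj m
  · rcases hc with rfl | hc
    · rw [← hjx]
      exact IntermediateField.subset_adjoin k _ (Or.inl ⟨_, rfl⟩)
    · rw [Set.mem_singleton_iff] at hc
      subst hc
      rw [← hjy]
      exact IntermediateField.subset_adjoin k _ (Or.inl ⟨_, rfl⟩)

end Pool.Agent.LibHD77
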