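import Pool.Agent.LibHD77.L1a
import Pool.Agent.LibHD77.L1b
import Pool.Agent.LibHD77.U3
import Pool.Agent.LibHD77.P2

/-!
[HD77 L2] the divisor of the difference of two independent abscissas. Let `M` be the function field of the
curve `f` over `M₀` with the generic point `(x, y)`, and `K` the function field of the curve `f` over `M`
with the generic point `(X, Y)`. Compare `exists_four` and `par` in LibAC34/B5.lean, B6.lean. Proof:
`K` from `exists_cps_KC`, `gen1_of_cps`; `gen1_swap` gives `j' : M → K` with `j' x = X`, `j' y = Y`,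
`Gen1 j' f (j x) (j y)`. Places: `w₁` (`exists_pl_aff` for `(x, y)`), `w₂` (`exists_pl_aff` for `(x, -y)`),
`w₃` (`exists_pl_inf` for `j`), `w₄` (`exists_pl_inf` for `j'`, where `j x` has a pole); `y ≠ 0` because `x` is
transcendental. Orders of `g = X - j x`: `1, 1, -2, -2` (`ord_far`, LibAC34/B3.lean; at `w₄`: `X = j' x` is a unit
or zero... has order `0`). They are different: at `w₃` only `X` has a pole, at `w₄` only `j x`, at `w₁, w₂` none; at
`w₁` the value of `Y` is `y`, at `w₂` it is `-y`. If `v.ord g ≠ 0` then `X` or `j x` has a pole or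
`v.Zer (X - j x)` and `v.Zer (Y - j y)` or `v.Zer (Y + j y)` (the squares have the same value).
-/

open scoped Classical
open Polynomial

namespace Pool.Agent.LibHD77

open Pool.Agent.LibBH2
open Pool.Agent.LibCHd (VR RF Red FunF)
open Pool.Agent.LibHyp34 (Hyp Pt Pic jP Sp KC DCf)

variable {k : Type} [Field k] [CharZero k] [IsAlgClosed k] {M₀ M : Type} [Field M₀] [Algebra k M₀]
  [Field M] [Algebra k M]

private theorem L2_ord_far {v : Place k M} {f g : M} (hf : v.ord f < 0) (hg : v.Reg g) :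
    v.ord (f - g) = v.ord f := by
  have hf0 : f ≠ 0 := by
    rintro rfl
    rw [v.ord_zero] at hf
    exact lt_irrefl _ hf
  by_cases hg0 : g = 0
  · rw [hg0, sub_zero]
  · have h1 : 0 ≤ v.ord g := hg.resolve_left hg0
    rw [sub_eq_add_neg]
    exact (v.ord_add_of_lt hf0 (neg_ne_zero.2 hg0) (by rw [v.ord_neg]; omega)).2

private theorem L2_ord_sub_comm (v : Place k M) (f g : M) : v.ord (f - g) = v.ord (g - f) := by
  rw [← neg_sub, v.ord_neg]

/-- values of polynomials in the residue field -/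
private theorem L2_red_aeval {v : Place k M} {z : M} {c : RF v} (h : Red v z c) (P : k[X]) :
    Red v (aeval z P) (aeval c P) := by
  induction P using Polynomial.induction_on' with
  | add p q hp hq =>
    rw [map_add, map_add]
    exact Pool.Agent.LibCHd.Red.add hp hq
  | monomial n a =>
    rw [Polynomial.aeval_monomial, Polynomial.aeval_monomial]
    exact Pool.Agent.LibCHd.Red.mul (Pool.Agent.LibCHd.red_const v a)
      (Pool.Agent.LibCHd.Red.pow h n)

/-- a function with a regular square is regular -/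
private theorem L2_reg_sq {v : Place k M} {z : M} (h : v.Reg (z ^ 2)) : v.Reg z := by
  rcases h with h | h
  · exact Or.inl (pow_eq_zero_iff (two_ne_zero) |>.1 h)
  · right
    rw [v.ord_pow] at h
    push_cast at h
    omega

/-- a product of two regular functions vanishes only if one of them does -/
private theorem L2_zer_mul {v : Place k M} {a b : M} (ha : v.Reg a) (hb : v.Reg b)
    (h : v.Zer (a * b)) : v.Zer a ∨ v.Zer b := by
  by_contra hcon
  push Not at hcon
  obtain ⟨h1, h2⟩ := hcon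
  have ha0 : a ≠ 0 := fun h' => h1 (Or.inl h')
  have hb0 : b ≠ 0 := fun h' => h2 (Or.inl h')
  have e1 := Place.ord_eq_zero_of_reg ha h1
  have e2 := Place.ord_eq_zero_of_reg hb h2
  rcases h with h | h
  · exact (mul_ne_zero ha0 hb0) h
  · rw [v.ord_mul _ _ ha0 hb0, e1, e2] at h
    exact lt_irrefl _ h

/-- the two points over an abscissa -/
private theorem L2_near {v : Place k M} {f : k[X]} {a b c d : M} (h1 : c ^ 2 = aeval a f)
    (h2 : d ^ 2 = aeval b f) (ha : v.Reg a) (hz : v.Zer (a - b)) :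
    v.Zer (c - d) ∨ v.Zer (c + d) := by
  obtain ⟨r, hr⟩ := Pool.Agent.LibCHd.exists_red ha
  have hb : Red v b r := by
    rw [Pool.Agent.LibCHd.red_iff_sub hr, ← neg_sub]
    exact hz.neg
  have e1 := L2_red_aeval hr f
  have e2 := L2_red_aeval hb f
  have e3 := Pool.Agent.LibCHd.Red.sub e1 e2
  rw [sub_self, Pool.Agent.LibCHd.red_zero_iff, ← h1, ← h2] at e3
  have hc : v.Reg c := L2_reg_sq (by rw [h1]; exact e1.1)
  have hd : v.Reg d := L2_reg_sq (by rw [h2]; exact e2.1)
  refine L2_zer_mul (hc.sub hd) (hc.add hd) ?_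
  rwa [show (c - d) * (c + d) = c ^ 2 - d ^ 2 by ring]

theorem exists_four (f : k[X]) [Hyp f] {i : M₀ →ₐ[k] M} {x y : M} (h : Gen1 i f x y) {d : ℕ}
    (hM : FunF k (d + 1) M) :
    ∃ (K : Type) (_ : Field K) (_ : Algebra k K) (j j' : M →ₐ[k] K) (X Y : K)
      (w : Fin 4 → Place k K), FunF k (d + 2) K ∧ (∀ m, j' (i m) = j (i m)) ∧ j' x = X ∧
      j' y = Y ∧ Y ^ 2 = aeval X f ∧ Function.Injective w ∧ X - j x ≠ 0 ∧
      Triv j (w 0) ∧ (w 0).ord (X - j x) = 1 ∧ (w 0).Zer (X - j x) ∧ (w 0).Zer (Y - j y) ∧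
      Triv j (w 1) ∧ (w 1).ord (X - j x) = 1 ∧ (w 1).Zer (X - j x) ∧ (w 1).Zer (Y + j y) ∧
      Triv j (w 2) ∧ (w 2).ord (X - j x) = -2 ∧ (w 2).ord X < 0 ∧
      Triv j' (w 3) ∧ (w 3).ord (X - j x) = -2 ∧ (w 3).ord (j x) < 0 ∧
      ∀ v : Place k K, v.ord (X - j x) ≠ 0 → (∀ a, v ≠ w a) →
        ((∃ m, v.ord (j m) ≠ 0) ∧ ((v.Zer (X - j x) ∧ v.Zer (Y - j y)) ∨
          (v.Zer (X - j x) ∧ v.Zer (Y + j y)) ∨ v.ord X < 0)) ∨
        ((∃ m, v.ord (j' m) ≠ 0) ∧ v.ord (j x) < 0) := by
  -- the second coordinate is not zero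
  have hf0 : f ≠ 0 := (Hyp.monic (f := f)).ne_zero
  have hy0 : y ≠ 0 := by
    intro h0
    have h1 : aeval x f = 0 := by rw [← h.eq, h0]; ring
    refine h.tr (f.map (algebraMap k M₀)) ?_ ?_
    · exact (Polynomial.map_ne_zero_iff (algebraMap k M₀).injective).2 hf0
    · rw [Polynomial.eval₂_map]
      have h2 : ((i : M₀ →+* M)).comp (algebraMap k M₀) = algebraMap k M := by
        ext c
        exact i.commutes c
      rw [h2]
      exact h1
  obtain ⟨K, iK, aK, i₁, j, hc₁⟩ := exists_cps_KC f M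
  have hP : Gen1 j f (i₁ (xs f)) (i₁ (ys f)) := gen1_of_cps f hc₁
  have hK : FunF k (d + 2) K :=
    Pool.Agent.LibCHd.IsCps.funF i₁ j hc₁ (funF_KC f) hM
  obtain ⟨j', hj, hjx, hjy, hQ⟩ := gen1_swap f h (d := d)
    (Pool.Agent.LibCHd.FunF.trdeg hM) hP
  set X := i₁ (xs f) with hX
  set Y := i₁ (ys f) with hY
  obtain ⟨w₀, t₀, o₀, z₀, u₀⟩ := exists_pl_aff f hP x y h.eq hy0
  obtain ⟨w₁, t₁, o₁, z₁, u₁⟩ := exists_pl_aff f hP x (-y) (by rw [neg_sq]; exact h.eq)
    (neg_ne_zero.2 hy0)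
  obtain ⟨w₂, t₂, o₂, u₂⟩ := exists_pl_inf f hP
  obtain ⟨w₃, t₃, o₃, u₃⟩ := exists_pl_inf f hQ
  rw [map_neg, sub_neg_eq_add] at z₁
  have g₂ : w₂.ord (X - j x) = -2 := by
    rw [L2_ord_far (by rw [o₂]; norm_num) (Or.inr (by rw [t₂.triv])), o₂]
  have g₃ : w₃.ord (X - j x) = -2 := by
    rw [L2_ord_sub_comm, L2_ord_far (by rw [o₃]; norm_num)
      (Or.inr (by rw [← hjx, t₃.triv])), o₃]
  have hg0 : X - j x ≠ 0 := by
    intro h0
    rw [h0, w₀.ord_zero] at o₀
    exact zero_ne_one o₀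
  have hjy0 : j (2 * y) ≠ 0 := by
    have h2 : (2 : M) ≠ 0 := by
      have := charZero_of_injective_algebraMap (algebraMap k M).injective
      exact two_ne_zero
    intro h0
    exact mul_ne_zero h2 hy0 ((map_eq_zero j).1 h0)
  have n₀₁ : w₀ ≠ w₁ := by
    intro he
    subst he
    have h1 := z₁.sub z₀
    have h2 : Y + j y - (Y - j y) = j (2 * y) := by rw [map_mul, map_ofNat]; ring
    rw [h2] at h1
    rcases h1 with h1 | h1
    · exact hjy0 h1
    · rw [t₀.triv] at h1
      exact lt_irrefl _ h1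
  have n₀₂ : w₀ ≠ w₂ := by
    intro he
    rw [he, g₂] at o₀
    norm_num at o₀
  have n₀₃ : w₀ ≠ w₃ := by
    intro he
    rw [he, g₃] at o₀
    norm_num at o₀
  have n₁₂ : w₁ ≠ w₂ := by
    intro he
    rw [he, g₂] at o₁
    norm_num at o₁
  have n₁₃ : w₁ ≠ w₃ := by
    intro he
    rw [he, g₃] at o₁
    norm_num at o₁
  have n₂₃ : w₂ ≠ w₃ := by
    intro he
    have h1 : w₃.ord X = 0 := by rw [← hjx, t₃.triv]
    rw [he, h1] at o₂
    norm_num at o₂
  refine ⟨K, iK, aK, j, j', X, Y, ![w₀, w₁, w₂, w₃], hK, hj, hjx, hjy, hP.eq, ?_, hg0, t₀, o₀,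
    Or.inr (by rw [Matrix.cons_val_zero, o₀]; norm_num), z₀, t₁, o₁, Or.inr ?_, z₁, t₂, g₂, ?_,
    t₃, g₃, ?_, ?_⟩
  · intro a b hab
    fin_cases a <;> fin_cases b <;> first | rfl | skip
    · exact absurd hab n₀₁
    · exact absurd hab n₀₂
    · exact absurd hab n₀₃
    · exact absurd hab n₀₁.symm
    · exact absurd hab n₁₂
    · exact absurd hab n₁₃
    · exact absurd hab n₀₂.symm
    · exact absurd hab n₁₂.symm
    · exact absurd hab n₂₃
    · exact absurd hab n₀₃.symm
    · exact absurd hab n₁₃.symm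
    · exact absurd hab n₂₃.symm
  · show 0 < w₁.ord (X - j x)
    rw [o₁]
    norm_num
  · show w₂.ord X < 0
    rw [o₂]
    norm_num
  · show w₃.ord (j x) < 0
    rw [o₃]
    norm_num
  · intro v hv hne
    have m₀ : v ≠ w₀ := hne 0
    have m₁ : v ≠ w₁ := hne 1
    have m₂ : v ≠ w₂ := hne 2
    have m₃ : v ≠ w₃ := hne 3
    rcases Pool.Agent.LibCHd.reg_or v X with rX | rX
    · rcases Pool.Agent.LibCHd.reg_or v (j x) with rx | rx
      · -- both are regular
        have hg : v.Zer (X - j x) := by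
          by_contra hcon
          exact hv (Place.ord_eq_zero_of_reg (rX.sub rx) hcon)
        have hq : (j y) ^ 2 = aeval (j x) f := by
          rw [← map_pow, h.eq, aeval_algHom_apply]
        have hn := L2_near hP.eq hq rX hg
        left
        refine ⟨?_, ?_⟩
        · by_contra hcon
          push Not at hcon
          rcases hn with hn | hn
          · exact m₀ (u₀ v hcon hg hn)
          · exact m₁ (u₁ v hcon hg (by rw [map_neg, sub_neg_eq_add]; exact hn))
        · rcases hn with hn | hn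
          · exact Or.inl ⟨hg, hn⟩
          · exact Or.inr (Or.inl ⟨hg, hn⟩)
      · right
        refine ⟨?_, rx⟩
        by_contra hcon
        push Not at hcon
        exact m₃ (u₃ v hcon rx)
    · left
      refine ⟨?_, Or.inr (Or.inr rX)⟩
      by_contra hcon
      push Not at hcon
      exact m₂ (u₂ v hcon rX)

end Pool.Agent.LibHD77
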