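import Pool.Agent.LibHD77.L2
import Pool.Agent.LibCHd.B6

/-!
[HD77 L3] the relation given by the difference of two abscissas. The coordinates of the points are of three
kinds: points over `M₀` (`inl`), the first (`inr (false, ε)`) and the second (`inr (true, ε)`) free point,
with a sign; `ev` is the evaluation, the free points being given by their coordinates (`none`: the point at
infinity). Proof of `par`: `exists_four`, the `K`-point `u = ev (j ∘ i) (X, Y) (j x, j y)` and `g = X - j x`;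
`IsDiv` with `S` the four places; the residue fields are `M` (`exists_res_equiv`, LibCHd/B6.lean, with `j` for
the first three and `j'` for the last), the specialisations of `u`:
at `w 0` the base change (by `M ≃ RF w`) of `ev i (x, y) (x, y)`, at `w 1` of `ev i (x, -y) (x, y)`,
at `w 2` of `ev i none (x, y)`, at `w 3` (with `j'`) of `ev i (x, y) none`; `cyc_mpt`. At other places with
`v.ord g ≠ 0`, by the last statement of `exists_four`, `cyc_zero_of_M` with `j` or `j'`, `d + 1` (the coordinates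
of the first free point specialise as those of `(j x, ± j y)` or to infinity, resp. those of the second
free point to infinity).
-/

open scoped Classical
open Polynomial

namespace Pool.Agent.LibHD77

open Pool.Agent.LibBH2
open Pool.Agent.LibCHd (VR RF Red FunF)
open Pool.Agent.LibHyp34 (Hyp Pt Pic jP Sp KC DCf)

variable {k : Type} [Field k]

/-- the point with the coordinates `x, y` if they satisfy the equation, otherwise the point at
infinity -/
noncomputable def mk' {M : Type} [Field M] [Algebra k M] (f : k[X]) (x y : M) : MPt f M :=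
  if h : y ^ 2 = (f.map (algebraMap k M)).eval x then .aff x y h else .inf

/-- the point `± P`, `P` given by its coordinates -/
noncomputable def sg {M : Type} [Field M] [Algebra k M] (f : k[X]) (ε : ℤˣ) :
    Option (M × M) → MPt f M
  | none => .inf
  | some q => mk' f q.1 ((ε : ℤ) * q.2)

/-- evaluation -/
noncomputable def ev {n : ℕ} {F : Fin n → k[X]} {M₀ M : Type} [Field M₀] [Algebra k M₀] [Field M]
    [Algebra k M] (T : ∀ a, MPt (F a) M₀ ⊕ (Bool × ℤˣ)) (i : M₀ →ₐ[k] M)
    (P Q : Option (M × M)) : Pnt F M := fun a =>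
  match T a with
  | .inl t => mpt i t
  | .inr q => sg (F a) q.2 (if q.1 then Q else P)

section aux

variable {M K : Type} [Field M] [Algebra k M] [Field K] [Algebra k K]

private theorem L3_eq {f : k[X]} {x y : M} (h : y ^ 2 = aeval x f) (ε : ℤˣ) :
    (((ε : ℤ) : M) * y) ^ 2 = (f.map (algebraMap k M)).eval x := by
  rw [eval_map_algebraMap, ← h]
  rcases Int.units_eq_one_or ε with rfl | rfl <;> simp

private theorem L3_sg {f : k[X]} {x y : M} (h : y ^ 2 = aeval x f) (ε : ℤˣ) :
    sg f ε (some (x, y)) = .aff x (((ε : ℤ) : M) * y) (L3_eq h ε) := by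
  change mk' f x (((ε : ℤ) : M) * y) = _
  unfold mk'
  rw [dif_pos (L3_eq h ε)]

private theorem L3_map {f : k[X]} {x y : M} (h : y ^ 2 = aeval x f) (j : M →ₐ[k] K) :
    (j y) ^ 2 = aeval (j x) f := by
  rw [← map_pow, h, aeval_algHom_apply]

private theorem L3_mpt_sg {f : k[X]} {x y : M} (h : y ^ 2 = aeval x f) (j : M →ₐ[k] K) (ε : ℤˣ) :
    mpt j (sg f ε (some (x, y))) = sg f ε (some (j x, j y)) := by
  rw [L3_sg h, L3_sg (L3_map h j)]
  change Pt.aff (j x) (j (((ε : ℤ) : M) * y)) _ = _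
  congr 1
  rw [map_mul, map_intCast]

private theorem L3_mpt_none {f : k[X]} (j : M →ₐ[k] K) (ε : ℤˣ) :
    mpt j (sg f ε none) = .inf := rfl

private theorem L3_close {f : k[X]} {v : Place k K} {X Y X' Y' : K}
    {h : Y ^ 2 = (f.map (algebraMap k K)).eval X} {h' : Y' ^ 2 = (f.map (algebraMap k K)).eval X'}
    (z : v.Zer (X - X')) (z' : v.Zer (Y - Y')) {q : MPt f (RF v)}
    (hq : SpR v (.aff X Y h : MPt f K) q) : SpR v (.aff X' Y' h' : MPt f K) q := by
  match q with
  | .inf =>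
    change v.ord X < 0 at hq
    change v.ord X' < 0
    have h0 : X ≠ 0 := by
      rintro rfl
      rw [v.ord_zero] at hq
      exact lt_irrefl _ hq
    by_cases hz : X - X' = 0
    · rwa [← sub_eq_zero.1 hz]
    · have h1 : 0 < v.ord (X - X') := z.resolve_left hz
      have h2 := (v.ord_add_of_lt h0 (neg_ne_zero.2 hz) (by rw [v.ord_neg]; omega)).2
      rw [show X + -(X - X') = X' by ring] at h2
      rwa [h2]
  | .aff x₀ y₀ h₀ =>
    obtain ⟨r1, r2⟩ := hq
    refine ⟨?_, ?_⟩
    · rw [Pool.Agent.LibCHd.red_iff_sub r1, ← neg_sub]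
      exact z.neg
    · rw [Pool.Agent.LibCHd.red_iff_sub r2, ← neg_sub]
      exact z'.neg

private theorem L3_zer_sg {v : Place k K} {Y Y' : K} (z : v.Zer (Y - Y')) (ε : ℤˣ) :
    v.Zer ((((ε : ℤ) : K) * Y) - (((ε : ℤ) : K) * Y')) := by
  rcases Int.units_eq_one_or ε with rfl | rfl
  · simpa using z
  · have h1 := z.neg
    have h2 : -(Y - Y') = (((-1 : ℤˣ) : ℤ) : K) * Y - (((-1 : ℤˣ) : ℤ) : K) * Y' := by
      rw [Units.val_neg, Units.val_one, Int.cast_neg, Int.cast_one]
      ring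
    rwa [h2] at h1

/-- specialisation of a signed point, close to a point with coordinates in `M` -/
private theorem L3_sp {f : k[X]} {v : Place k K} {X Y X' Y' : K} (h : Y ^ 2 = aeval X f)
    (h' : Y' ^ 2 = aeval X' f) (z : v.Zer (X - X')) (z' : v.Zer (Y - Y')) (ε : ℤˣ)
    {q : MPt f (RF v)} (hq : SpR v (sg f ε (some (X, Y))) q) :
    SpR v (sg f ε (some (X', Y'))) q := by
  rw [L3_sg h] at hq
  rw [L3_sg h']
  exact L3_close z (L3_zer_sg z' ε) hq

private theorem L3_pole {f : k[X]} {v : Place k K} {X Y : K} (h : Y ^ 2 = aeval X f)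
    (hX : v.ord X < 0) (ε : ℤˣ) : SpR v (sg f ε (some (X, Y))) (.inf : MPt f (RF v)) := by
  rw [L3_sg h]
  exact hX

private theorem L3_pole' {f : k[X]} {v : Place k K} {X Y : K} (h : Y ^ 2 = aeval X f)
    (hX : v.ord X < 0) (ε : ℤˣ) {q : MPt f (RF v)} (hq : SpR v (sg f ε (some (X, Y))) q) :
    q = .inf := SpR_unique hq (L3_pole h hX ε)

/-- the divisor of a function from four places -/
private theorem L3_div {n d : ℕ} {F : Fin n → k[X]} (hK : FunF k (d + 1) K) (u : Pnt F K)
    (g : K) (hg : g ≠ 0) (w : Fin 4 → Place k K) (hw : Function.Injective w)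
    (c : Fin 4 → Cyc k n)
    (h1 : ∀ a, FunF k d (RF (w a)) ∧ ∃ q : Pnt F (RF (w a)), (∀ b, SpR (w a) (u b) (q b)) ∧
      c a = cyc q)
    (h2 : ∀ v : Place k K, v.ord g ≠ 0 → (∀ a, v ≠ w a) → FunF k d (RF v) →
      ∀ q : Pnt F (RF v), (∀ a, SpR v (u a) (q a)) → cyc q = 0) :
    ∑ a, (w a).ord g • c a ∈ RatEq F d := by
  refine AddSubgroup.subset_closure ?_
  set C : Place k K → Cyc k n := fun v => if h : ∃ a, v = w a then c h.choose else 0 with hC
  have hCw : ∀ a, C (w a) = c a := by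
    intro a
    have h : ∃ b, w a = w b := ⟨a, rfl⟩
    rw [hC]
    beta_reduce
    rw [dif_pos h]
    exact congrArg c (hw h.choose_spec).symm
  refine ⟨K, inferInstance, inferInstance, u, g, Finset.univ.map ⟨w, hw⟩, C, hK, hg, ?_, ?_, ?_⟩
  · intro v hv
    rw [Finset.mem_map] at hv
    obtain ⟨a, -, rfl⟩ := hv
    refine ⟨(h1 a).1, ?_⟩
    obtain ⟨q, hq, hc⟩ := (h1 a).2
    exact ⟨q, hq, (hCw a).trans hc⟩
  · intro v hv hord hF q hq
    refine h2 v hord ?_ hF q hq
    rintro a rfl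
    exact hv (Finset.mem_map.2 ⟨a, Finset.mem_univ _, rfl⟩)
  · rw [Finset.sum_map]
    exact Finset.sum_congr rfl fun a _ => by
      change _ = (w a).ord g • C (w a)
      rw [hCw]

end aux

section evs

variable {n : ℕ} {F : Fin n → k[X]} {M₀ M : Type} [Field M₀] [Algebra k M₀] [Field M]
    [Algebra k M] {T : ∀ a, MPt (F a) M₀ ⊕ (Bool × ℤˣ)} {i : M₀ →ₐ[k] M}
    {P Q : Option (M × M)} {a : Fin n}

private theorem L3_inl {t : MPt (F a) M₀} (h : T a = .inl t) : ev T i P Q a = mpt i t := by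
  unfold ev
  rw [h]

private theorem L3_fst {ε : ℤˣ} (h : T a = .inr (false, ε)) : ev T i P Q a = sg (F a) ε P := by
  unfold ev
  rw [h]
  rfl

private theorem L3_snd {ε : ℤˣ} (h : T a = .inr (true, ε)) : ev T i P Q a = sg (F a) ε Q := by
  unfold ev
  rw [h]
  rfl

end evs

theorem par [CharZero k] [IsAlgClosed k] {n d : ℕ} {F : Fin n → k[X]} {M₀ M : Type} [Field M₀]
    [Algebra k M₀] [Field M] [Algebra k M] (f : k[X]) [Hyp f] {i : M₀ →ₐ[k] M} {x y : M}
    (h : Gen1 i f x y) (hM : FunF k (d + 1) M) (T : ∀ a, MPt (F a) M₀ ⊕ (Bool × ℤˣ))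
    (hT : ∀ a q, T a = .inr q → F a = f) :
    cyc (ev T i (some (x, y)) (some (x, y))) + cyc (ev T i (some (x, -y)) (some (x, y))) -
      2 • cyc (ev T i none (some (x, y))) - 2 • cyc (ev T i (some (x, y)) none) ∈
      RatEq F (d + 1) := by
  obtain ⟨K, iK, aK, j, j', X, Y, w, hK, hj, hx, hy, hXY, hw, hg0, t0, o0, z0, z0', t1, o1, z1,
    z1', t2, o2, p2, t3, o3, p3, hlast⟩ := exists_four f h hM
  obtain ⟨e0, he0⟩ := Pool.Agent.LibCHd.exists_res_equiv j (w 0) t0.triv t0.res
  obtain ⟨e1, he1⟩ := Pool.Agent.LibCHd.exists_res_equiv j (w 1) t1.triv t1.res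
  obtain ⟨e2, he2⟩ := Pool.Agent.LibCHd.exists_res_equiv j (w 2) t2.triv t2.res
  obtain ⟨e3, he3⟩ := Pool.Agent.LibCHd.exists_res_equiv j' (w 3) t3.triv t3.res
  have hji : j'.comp i = j.comp i := AlgHom.ext hj
  -- the equations for the curves `F a`
  have q1 : ∀ a q, T a = .inr q → y ^ 2 = aeval x (F a) := fun a q hq => by
    rw [hT a q hq]; exact h.eq
  have q1' : ∀ a q, T a = .inr q → (-y) ^ 2 = aeval x (F a) := fun a q hq => by
    rw [neg_sq]; exact q1 a q hq
  have q2 : ∀ a q, T a = .inr q → Y ^ 2 = aeval X (F a) := fun a q hq => by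
    rw [hT a q hq]; exact hXY
  have q3 : ∀ a q, T a = .inr q → (j y) ^ 2 = aeval (j x) (F a) := fun a q hq =>
    L3_map (q1 a q hq) j
  have q3' : ∀ a q, T a = .inr q → (-j y) ^ 2 = aeval (j x) (F a) := fun a q hq => by
    rw [neg_sq]; exact q3 a q hq
  set u : Pnt F K := ev T (j.comp i) (some (X, Y)) (some (j x, j y)) with hu
  -- the coordinates of `u`
  have uinl : ∀ a t, T a = .inl t → u a = mpt j (mpt i t) := fun a t ha => by
    rw [hu, L3_inl ha, mpt_comp]
  have uinl' : ∀ a t, T a = .inl t → u a = mpt j' (mpt i t) := fun a t ha => by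
    rw [hu, L3_inl ha, mpt_comp, hji]
  have ufst : ∀ a ε, T a = .inr (false, ε) → u a = sg (F a) ε (some (X, Y)) := fun a ε ha => by
    rw [hu, L3_fst ha]
  have ufst' : ∀ a ε, T a = .inr (false, ε) → u a = mpt j' (sg (F a) ε (some (x, y))) :=
    fun a ε ha => by
      rw [ufst a ε ha, L3_mpt_sg (q1 a _ ha), hx, hy]
  have usnd : ∀ a ε, T a = .inr (true, ε) → u a = sg (F a) ε (some (j x, j y)) :=
    fun a ε ha => by
      rw [hu, L3_snd ha]
  have usnd' : ∀ a ε, T a = .inr (true, ε) → u a = mpt j (sg (F a) ε (some (x, y))) :=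
    fun a ε ha => by
      rw [usnd a ε ha, L3_mpt_sg (q1 a _ ha)]
  have S0 : ∀ a, SpR (w 0) (u a) (mpt (e0 : M →ₐ[k] RF (w 0))
      (ev T i (some (x, y)) (some (x, y)) a)) := fun a => by
    rcases ha : T a with t | ⟨b, ε⟩
    · rw [uinl a t ha, L3_inl ha]
      exact SpR_triv j (w 0) _ he0 _
    · rcases b with _ | _
      · rw [ufst a ε ha, L3_fst ha]
        refine L3_sp (q3 a _ ha) (q2 a _ ha) (X := j x) (Y := j y) ?_ ?_ ε ?_
        · rw [← neg_sub]; exact z0.neg
        · rw [← neg_sub]; exact z0'.neg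
        · rw [← L3_mpt_sg (q1 a _ ha)]
          exact SpR_triv j (w 0) _ he0 _
      · rw [usnd' a ε ha, L3_snd ha]
        exact SpR_triv j (w 0) _ he0 _
  have S1 : ∀ a, SpR (w 1) (u a) (mpt (e1 : M →ₐ[k] RF (w 1))
      (ev T i (some (x, -y)) (some (x, y)) a)) := fun a => by
    rcases ha : T a with t | ⟨b, ε⟩
    · rw [uinl a t ha, L3_inl ha]
      exact SpR_triv j (w 1) _ he1 _
    · rcases b with _ | _
      · rw [ufst a ε ha, L3_fst ha]
        refine L3_sp (q3' a _ ha) (q2 a _ ha) (X := j x) (Y := -j y) ?_ ?_ ε ?_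
        · rw [← neg_sub]; exact z1.neg
        · rw [show -j y - Y = -(Y + j y) by ring]; exact z1'.neg
        · rw [← map_neg, ← L3_mpt_sg (q1' a _ ha)]
          exact SpR_triv j (w 1) _ he1 _
      · rw [usnd' a ε ha, L3_snd ha]
        exact SpR_triv j (w 1) _ he1 _
  have S2 : ∀ a, SpR (w 2) (u a) (mpt (e2 : M →ₐ[k] RF (w 2))
      (ev T i none (some (x, y)) a)) := fun a => by
    rcases ha : T a with t | ⟨b, ε⟩
    · rw [uinl a t ha, L3_inl ha]
      exact SpR_triv j (w 2) _ he2 _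
    · rcases b with _ | _
      · rw [ufst a ε ha, L3_fst ha, L3_mpt_none]
        exact L3_pole (q2 a _ ha) p2 ε
      · rw [usnd' a ε ha, L3_snd ha]
        exact SpR_triv j (w 2) _ he2 _
  have S3 : ∀ a, SpR (w 3) (u a) (mpt (e3 : M →ₐ[k] RF (w 3))
      (ev T i (some (x, y)) none a)) := fun a => by
    rcases ha : T a with t | ⟨b, ε⟩
    · rw [uinl' a t ha, L3_inl ha]
      exact SpR_triv j' (w 3) _ he3 _
    · rcases b with _ | _
      · rw [ufst' a ε ha, L3_fst ha]
        exact SpR_triv j' (w 3) _ he3 _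
      · rw [usnd a ε ha, L3_snd ha, L3_mpt_none]
        exact L3_pole (q3 a _ ha) p3 ε
  have main := L3_div (d := d + 1) hK u (X - j x) hg0 w hw
    ![cyc (ev T i (some (x, y)) (some (x, y))), cyc (ev T i (some (x, -y)) (some (x, y))),
      cyc (ev T i none (some (x, y))), cyc (ev T i (some (x, y)) none)] ?_ ?_
  · rw [Fin.sum_univ_four, o0, o1, o2, o3] at main
    have e : ∀ c0 c1 c2 c3 : Cyc k n, c0 + c1 - 2 • c2 - 2 • c3 =
        (1 : ℤ) • (![c0, c1, c2, c3] : Fin 4 → Cyc k n) 0 +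
        (1 : ℤ) • (![c0, c1, c2, c3] : Fin 4 → Cyc k n) 1 +
        (-2 : ℤ) • (![c0, c1, c2, c3] : Fin 4 → Cyc k n) 2 +
        (-2 : ℤ) • (![c0, c1, c2, c3] : Fin 4 → Cyc k n) 3 := by
      intro c0 c1 c2 c3
      change _ = (1 : ℤ) • c0 + (1 : ℤ) • c1 + (-2 : ℤ) • c2 + (-2 : ℤ) • c3
      module
    rw [e]
    exact main
  · intro b
    fin_cases b
    · exact ⟨hM.congr e0, _, S0, (cyc_mpt e0 _).symm⟩
    · exact ⟨hM.congr e1, _, S1, (cyc_mpt e1 _).symm⟩
    · exact ⟨hM.congr e2, _, S2, (cyc_mpt e2 _).symm⟩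
    · exact ⟨hM.congr e3, _, S3, (cyc_mpt e3 _).symm⟩
  · intro v hv hne hF q hq
    rcases hlast v hv hne with ⟨⟨m₀, hm₀⟩, hc⟩ | ⟨⟨m₀, hm₀⟩, hc⟩
    · refine cyc_zero_of_M hM j v m₀ hm₀ hF q fun a => ?_
      have hqa := hq a
      rcases ha : T a with t | ⟨b, ε⟩
      · right
        exact ⟨mpt i t, by rw [← uinl a t ha]; exact hqa⟩
      · rcases b with _ | _
        · rw [ufst a ε ha] at hqa
          rcases hc with ⟨hz, hz'⟩ | ⟨hz, hz'⟩ | hc
          · right
            refine ⟨sg (F a) ε (some (x, y)), ?_⟩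
            rw [L3_mpt_sg (q1 a _ ha)]
            exact L3_sp (q2 a _ ha) (q3 a _ ha) hz hz' ε hqa
          · right
            refine ⟨sg (F a) ε (some (x, -y)), ?_⟩
            rw [L3_mpt_sg (q1' a _ ha), map_neg]
            refine L3_sp (q2 a _ ha) (q3' a _ ha) hz ?_ ε hqa
            rw [sub_neg_eq_add]
            exact hz'
          · left
            exact ⟨.inf, L3_pole' (q2 a _ ha) hc ε hqa⟩
        · right
          exact ⟨sg (F a) ε (some (x, y)), by rw [← usnd' a ε ha]; exact hqa⟩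
    · refine cyc_zero_of_M hM j' v m₀ hm₀ hF q fun a => ?_
      have hqa := hq a
      rcases ha : T a with t | ⟨b, ε⟩
      · right
        exact ⟨mpt i t, by rw [← uinl' a t ha]; exact hqa⟩
      · rcases b with _ | _
        · right
          exact ⟨sg (F a) ε (some (x, y)), by rw [← ufst' a ε ha]; exact hqa⟩
        · left
          rw [usnd a ε ha] at hqa
          exact ⟨.inf, L3_pole' (q3 a _ ha) hc ε hqa⟩

end Pool.Agent.LibHD77
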