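import Pool.Agent.LibHD77.Defs
import Pool.Agent.LibCHd.Key

/-!
[HD77 P1] base change of points, specialisation. Proofs. `mpt_cst`, `mpt_comp`, `xy_mpt`, `co_mpt`: cases.
`cyc_mpt`: `eqs` does not change (`mpt` preserves `.inf`; `aeval (ε ∘ co u) G = ε (aeval (co u) G)`), and
`fld` is mapped to `fld` (`IntermediateField.adjoin_map`); compare `cyc_map` in LibCHd/B6.lean.
`cyc_eq_zero_of_fld`: copy of the same lemma in LibCHd/A.lean. `SpR_exists`: if `x` is regular then `y` is
(`2 ord y = ord (f(x)) ≥ 0`), `exists_red`; the equation holds for the residues (`Red.pow`, evaluation of a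
polynomial over `k`); otherwise `.inf`. `SpR_unique`: `Red.unique`, and a regular `x` has no pole.
`SpR_triv`: `Red` of `j x`, `j y`. `SpR_cst`: `red_const`. `SpR_of_Sp`: `red_iff_val` and the factor `e`.
-/

open scoped Classical
open Polynomial

namespace Pool.Agent.LibHD77

open Pool.Agent.LibBH2
open Pool.Agent.LibCHd (VR RF Red FunF)
open Pool.Agent.LibHyp34 (Hyp Pt Pic jP Sp)

variable {k : Type} [Field k]

/-- base change of points -/
noncomputable def mpt {M M' : Type} [Field M] [Algebra k M] [Field M'] [Algebra k M']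
    (σ : M →ₐ[k] M') {f : k[X]} : MPt f M → MPt f M'
  | .inf => .inf
  | .aff x y h => .aff (σ x) (σ y) (by
      rw [← map_pow, h, eval_map_algebraMap, eval_map_algebraMap, aeval_algHom_apply])

section api

variable {M M' M'' : Type} [Field M] [Algebra k M] [Field M'] [Algebra k M'] [Field M'']
  [Algebra k M''] {f : k[X]}

theorem xy_mpt (σ : M →ₐ[k] M') (p : MPt f M) (c : Fin 2) : xy (mpt σ p) c = σ (xy p c) := by
  match p with
  | .inf =>
    change (0 : Fin 2 → M') c = σ ((0 : Fin 2 → M) c)
    rw [Pi.zero_apply, Pi.zero_apply, map_zero]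
  | .aff x y h =>
    change (![σ x, σ y] : Fin 2 → M') c = σ ((![x, y] : Fin 2 → M) c)
    fin_cases c <;> rfl

theorem mpt_inf_iff (σ : M →ₐ[k] M') (p : MPt f M) : mpt σ p = .inf ↔ p = .inf := by
  match p with
  | .inf => exact ⟨fun _ => rfl, fun _ => rfl⟩
  | .aff x y h => constructor <;> intro h' <;> cases h'

theorem mpt_comp (σ : M →ₐ[k] M') (τ : M' →ₐ[k] M'') (p : MPt f M) :
    mpt τ (mpt σ p) = mpt (τ.comp σ) p := by
  match p with
  | .inf => rfl
  | .aff x y h => rfl

theorem mpt_cst (σ : M →ₐ[k] M') (s : Pt f) : mpt σ (cst M s) = cst M' s := by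
  match s with
  | .inf => rfl
  | .aff x y h =>
    have h1 := σ.commutes x
    have h2 := σ.commutes y
    simp only [cst, mpt, Pt.aff.injEq]
    exact ⟨h1, h2⟩

/-- two points with the same coordinates and the same behaviour at infinity are equal -/
theorem mpt_ext {p q : MPt f M} (h : p = .inf ↔ q = .inf) (h' : ∀ c, xy p c = xy q c) : p = q := by
  match p, q with
  | .inf, .inf => rfl
  | .inf, .aff x y h1 => exact absurd (h.1 rfl) (by intro h; cases h)
  | .aff x y h1, .inf => exact absurd (h.2 rfl) (by intro h; cases h)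
  | .aff x y h1, .aff x' y' h2 =>
    have e1 : x = x' := h' 0
    have e2 : y = y' := h' 1
    subst e1 e2
    rfl

end api

section cycles

variable {n : ℕ} {F : Fin n → k[X]} {M M' : Type} [Field M] [Algebra k M] [Field M']
  [Algebra k M']

theorem co_mpt (σ : M →ₐ[k] M') (u : Pnt F M) (q : Fin n × Fin 2) :
    co (fun a => mpt σ (u a)) q = σ (co u q) := by
  exact xy_mpt σ (u q.1) q.2

theorem eqs_mpt (σ : M →ₐ[k] M') (u : Pnt F M) : eqs (fun a => mpt σ (u a)) = eqs u := by
  have h1 : co (fun a => mpt σ (u a)) = fun q => σ (co u q) := funext fun q => co_mpt σ u q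
  unfold eqs
  refine Prod.ext ?_ ?_
  · ext a
    exact mpt_inf_iff σ (u a)
  · ext G
    change MvPolynomial.aeval (co fun a => mpt σ (u a)) G = 0 ↔ MvPolynomial.aeval (co u) G = 0
    have h2 : MvPolynomial.aeval (co fun a => mpt σ (u a)) G = σ (MvPolynomial.aeval (co u) G) := by
      rw [h1, ← AlgHom.comp_apply, MvPolynomial.comp_aeval]
    rw [h2, map_eq_zero]

/-- the cycle does not change under isomorphisms -/
theorem cyc_mpt (ε : M ≃ₐ[k] M') (u : Pnt F M) :
    cyc (fun a => mpt (ε : M →ₐ[k] M') (u a)) = cyc u := by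
  have h1 : co (fun a => mpt (ε : M →ₐ[k] M') (u a)) = fun q => ε (co u q) :=
    funext fun q => co_mpt (ε : M →ₐ[k] M') u q
  have h2 : fld (fun a => mpt (ε : M →ₐ[k] M') (u a)) = (fld u).map (ε : M →ₐ[k] M') := by
    unfold fld
    rw [IntermediateField.adjoin_map, h1]
    congr 1
    rw [← Set.range_comp]
    rfl
  unfold cyc
  rw [eqs_mpt, h2]
  congr 2
  exact (Algebra.finrank_eq_of_equiv_equiv
    (IntermediateField.intermediateFieldMap ε (fld u)).toRingEquiv ε.toRingEquiv
    (by ext x; rfl)).symm

/-- a point defined over a subfield of smaller transcendence degree has the cycle zero -/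
theorem cyc_eq_zero_of_fld {d : ℕ} (hM : FunF k d M) (q : Pnt F M) (L : IntermediateField k M)
    (hL : Algebra.trdeg k L < d) (hq : fld q ≤ L) : cyc q = 0 := by
  have h0 : Module.finrank (fld q) M = 0 := by
    by_contra hne
    have hfin : FiniteDimensional (fld q) M := Module.finite_of_finrank_pos (Nat.pos_of_ne_zero hne)
    have halg : Algebra.IsAlgebraic (fld q) M := inferInstance
    have h1 : Algebra.trdeg k (fld q) = d := by
      rw [← hM.trdeg, ← trdeg_add_eq k (fld q) (A := M), trdeg_eq_zero_iff.2 halg,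
        add_zero]
    have h2 : Algebra.trdeg k (fld q) ≤ Algebra.trdeg k L :=
      trdeg_le_of_injective (IntermediateField.inclusion hq)
        (IntermediateField.inclusion_injective hq)
    rw [h1] at h2
    exact absurd hL (not_lt.2 h2)
  rw [cyc, h0]
  simp

end cycles

section special

variable {K : Type} [Field K] [Algebra k K] {f : k[X]}

theorem red_aeval {v : Place k K} {x : K} {x₀ : RF v} (h : Red v x x₀) (G : k[X]) :
    Red v (aeval x G) (aeval x₀ G) := by
  induction G using Polynomial.induction_on' with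
  | add p q hp hq =>
    rw [map_add, map_add]
    exact hp.add hq
  | monomial n c =>
    rw [aeval_monomial, aeval_monomial]
    exact (LibCHd.red_const v c).mul (h.pow n)

theorem not_reg {v : Place k K} {x : K} (h : v.ord x < 0) : ¬ v.Reg x := by
  rintro (h0 | h0)
  · rw [h0, v.ord_zero] at h
    exact lt_irrefl _ h
  · omega

theorem SpR_exists (v : Place k K) (p : MPt f K) : ∃ q, SpR v p q := by
  match p with
  | .inf => exact ⟨.inf, rfl⟩
  | .aff x y h =>
    by_cases hx : v.Reg x
    · obtain ⟨x₀, hx₀⟩ := LibCHd.exists_red hx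
      have hf : Red v ((f.map (algebraMap k K)).eval x) ((f.map (algebraMap k (RF v))).eval x₀) := by
        rw [eval_map_algebraMap, eval_map_algebraMap]
        exact red_aeval hx₀ f
      have hy : v.Reg y := by
        by_cases hy0 : y = 0
        · exact Or.inl hy0
        · right
          have h1 : v.Reg (y ^ 2) := by
            rw [h]
            exact hf.reg
          have h2 := h1.resolve_left (pow_ne_zero 2 hy0)
          rw [v.ord_pow] at h2
          push_cast at h2
          omega
      obtain ⟨y₀, hy₀⟩ := LibCHd.exists_red hy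
      refine ⟨.aff x₀ y₀ ?_, hx₀, hy₀⟩
      have h3 := hy₀.pow 2
      rw [h] at h3
      exact h3.unique hf
    · refine ⟨.inf, ?_⟩
      change v.ord x < 0
      by_contra hcon
      exact hx (Or.inr (not_lt.1 hcon))

theorem SpR_unique {v : Place k K} {p : MPt f K} {q q' : MPt f (RF v)} (h : SpR v p q)
    (h' : SpR v p q') : q = q' := by
  match p, q, q' with
  | .inf, q, q' =>
    have e1 : q = .inf := h
    have e2 : q' = .inf := h'
    rw [e1, e2]
  | .aff x y h1, .inf, .inf => rfl
  | .aff x y h1, .inf, .aff x₀ y₀ h2 =>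
    exact absurd h'.1.reg (not_reg h)
  | .aff x y h1, .aff x₀ y₀ h2, .inf =>
    exact absurd h.1.reg (not_reg h')
  | .aff x y h1, .aff x₀ y₀ h2, .aff x₁ y₁ h3 =>
    have e1 : x₀ = x₁ := h.1.unique h'.1
    have e2 : y₀ = y₁ := h.2.unique h'.2
    subst e1 e2
    rfl

theorem SpR_inf (v : Place k K) : SpR v (.inf : MPt f K) .inf := by
  rfl

theorem SpR_cst (v : Place k K) (s : Pt f) : SpR v (cst K s) (cst (RF v) s) := by
  match s with
  | .inf => rfl
  | .aff x y h => exact ⟨LibCHd.red_const v x, LibCHd.red_const v y⟩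

/-- points with coordinates in a field on which the place is trivial -/
theorem SpR_triv {M : Type} [Field M] [Algebra k M] (j : M →ₐ[k] K) (w : Place k K)
    (ε : M →ₐ[k] RF w) (hε : ∀ m, Red w (j m) (ε m)) (p : MPt f M) :
    SpR w (mpt j p) (mpt ε p) := by
  match p with
  | .inf => rfl
  | .aff x y h => exact ⟨hε x, hε y⟩

/-- points with coordinates in a subfield, at a place over a place with rational value -/
theorem SpR_of_Sp {H : Type} [Field H] [Algebra k H] (i : H →ₐ[k] K) (v : Place k H)
    (w : Place k K) (e : ℤ) (he : 0 < e) (h : ∀ g, w.ord (i g) = e * v.ord g) (T : MPt f H)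
    (p : Pt f) (hp : Sp v T p) : SpR w (mpt i T) (cst (RF w) p) := by
  have hzer : ∀ (g : H) (c : k), v.Zer (g - algebraMap k H c) →
      Red w (i g) (algebraMap k (RF w) c) := by
    intro g c hg
    rw [LibCHd.red_iff_val]
    have h1 : i g - algebraMap k K c = i (g - algebraMap k H c) := by
      rw [map_sub, AlgHom.commutes]
    rw [h1]
    rcases hg with hg | hg
    · left
      rw [hg, map_zero]
    · right
      rw [h]
      exact mul_pos he hg
  match T, p with
  | .inf, p =>
    have e1 : p = .inf := hp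
    rw [e1]
    rfl
  | .aff x y h1, .inf =>
    change w.ord (i x) < 0
    rw [h]
    exact mul_neg_of_pos_of_neg he hp
  | .aff x y h1, .aff x₀ y₀ h2 =>
    exact ⟨hzer x x₀ hp.1, hzer y y₀ hp.2⟩

end special

end Pool.Agent.LibHD77
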