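import Pool.Agent.LibHD77.P2

/-!
[HD77 P3] the external product of a principal zero-cycle with a subvariety. Every coordinate is given either
by a map `T` from a curve (with function field `H`) or by the generic point of a variety (with function
field `M`). Proof: exactly the proof of `key` in LibCHd/Key.lean: only the places with `v.ord φ ≠ 0`
matter; `K` the compositum of `H` and `M` (`exists_laurent`, `exists_cps`; if there is no place with
`v.ord φ ≠ 0` there is nothing to prove), `w v` the place over `v` (`exists_gs`), residue field `M`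
(`exists_res_equiv`), specialisations `SpR_of_Sp` (with `e = 1`) and `SpR_triv`, `mpt_cst`, `cyc_mpt`;
other places of `K` with `ord (i φ) ≠ 0`: `exists_restrict`, `gs_unique` if trivial on `M`, otherwise
`cyc_zero_of_M` and `const_of_H`.
-/

open scoped Classical
open Polynomial

namespace Pool.Agent.LibHD77

open Pool.Agent.LibBH2
open Pool.Agent.LibCHd (VR RF Red FunF)
open Pool.Agent.LibHyp34 (Hyp Pt Pic jP Sp)

variable {k : Type} [Field k]

theorem ext_H [IsAlgClosed k] {n d : ℕ} {F : Fin n → k[X]} {H M : Type} [Field H] [Algebra k H]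
    [Field M] [Algebra k M] (hH : FunF k 1 H) (hM : FunF k d M)
    (T : ∀ a, MPt (F a) H ⊕ MPt (F a) M) (φ : H) (hφ : φ ≠ 0) (S : Finset (Place k H))
    (hS : ∀ v, v.ord φ ≠ 0 → v ∈ S) (p : Place k H → ∀ a, Pt (F a))
    (hp : ∀ v ∈ S, ∀ a t, T a = .inl t → Sp v t (p v a)) :
    ∑ v ∈ S, v.ord φ • cyc (fun a => Sum.elim (fun _ => cst M (p v a)) id (T a)) ∈
      RatEq F d := by
  have hrat := fun v : Place k H => Pool.Agent.LibCHd.rat_of_funF hH v
  set S' := S.filter fun v => v.ord φ ≠ 0 with hS'
  have hsum : ∑ v ∈ S, v.ord φ • cyc (fun a => Sum.elim (fun _ => cst M (p v a)) id (T a)) =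
      ∑ v ∈ S', v.ord φ • cyc (fun a => Sum.elim (fun _ => cst M (p v a)) id (T a)) := by
    rw [hS', Finset.sum_filter_of_ne]
    intro v _ h h0
    rw [h0, zero_smul] at h
    exact h rfl
  rw [hsum]
  rcases S'.eq_empty_or_nonempty with h0 | ⟨v₀, hv₀⟩
  · rw [h0, Finset.sum_empty]
    exact zero_mem _
  obtain ⟨e, he1, -, he3⟩ := Pool.Agent.LibCHd.exists_laurent M v₀ (hrat v₀)
  obtain ⟨K, _, _, i, j, hcps⟩ := Pool.Agent.LibCHd.exists_cps e he1 he3
  choose w hw using fun v => Pool.Agent.LibCHd.exists_gs i j hcps v (hrat v)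
  choose ε hε using fun v =>
    Pool.Agent.LibCHd.exists_res_equiv j (w v) (hw v).onM (hw v).res
  have hinj : Function.Injective w := by
    intro v v' h
    apply Place.ext'
    intro f
    rw [← (hw v).onH, ← (hw v').onH, h]
  apply AddSubgroup.subset_closure
  refine ⟨K, inferInstance, inferInstance, fun a => Sum.elim (mpt i) (mpt j) (T a), i φ,
    S'.image w,
    Function.extend w (fun v => cyc (fun a => Sum.elim (fun _ => cst M (p v a)) id (T a))) 0,
    hcps.funF i j hH hM, (map_ne_zero i).2 hφ, ?_, ?_, ?_⟩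
  · intro v' hv'
    obtain ⟨v, hv, rfl⟩ := Finset.mem_image.1 hv'
    refine ⟨hM.congr (ε v),
      fun a => mpt (ε v : M →ₐ[k] RF (w v))
        (Sum.elim (fun _ => cst M (p v a)) id (T a)), fun a => ?_, ?_⟩
    · have hpa := hp v (Finset.mem_filter.1 hv).1 a
      show SpR (w v) (Sum.elim (mpt i) (mpt j) (T a)) (mpt (ε v : M →ₐ[k] RF (w v))
        (Sum.elim (fun _ => cst M (p v a)) id (T a)))
      rcases hT : T a with t | t
      · show SpR (w v) (mpt i t) (mpt (ε v : M →ₐ[k] RF (w v)) (cst M (p v a)))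
        rw [mpt_cst]
        exact SpR_of_Sp i v (w v) 1 one_pos (fun f => by rw [(hw v).onH]; simp) t (p v a)
          (hpa t hT)
      · exact SpR_triv j (w v) (ε v : M →ₐ[k] RF (w v)) (hε v) t
    · rw [hinj.extend_apply, cyc_mpt]
  · intro v' hv' hord hF q hq
    by_cases htriv : ∀ m, v'.ord (j m) = 0
    · obtain ⟨v, e', he', hve⟩ := Pool.Agent.LibCHd.exists_restrict i v' φ hord
      have h1 : v' = w v :=
        Pool.Agent.LibCHd.gs_unique i j hcps v (hrat v) (w v) (hw v) v' e' he' hve htriv
      have h2 : v.ord φ ≠ 0 := by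
        intro h
        rw [hve, h, mul_zero] at hord
        exact hord rfl
      exact absurd (Finset.mem_image.2 ⟨v, Finset.mem_filter.2 ⟨hS v h2, h2⟩, h1.symm⟩) hv'
    · push Not at htriv
      obtain ⟨m₀, hm₀⟩ := htriv
      refine cyc_zero_of_M hM j v' m₀ hm₀ hF q fun a => ?_
      have hqa : SpR v' (Sum.elim (mpt i) (mpt j) (T a)) (q a) := hq a
      rcases hT : T a with t | t
      · rw [hT] at hqa
        exact Or.inl (const_of_H hH i v' φ hord t (q a) hqa)
      · rw [hT] at hqa
        exact Or.inr ⟨t, hqa⟩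
  · rw [Finset.sum_image hinj.injOn]
    refine Finset.sum_congr rfl fun v _ => ?_
    rw [hinj.extend_apply, (hw v).onH]

end Pool.Agent.LibHD77
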