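import Pool.Agent.LibHD77.U4b

/-!
[HD77 U4c] uniqueness of the generic point. Proof. Induction on `D`: `D = 0`: `M` and `M'` are generated over `k` by
nothing. `D + 1`: `gen_base` for the last index in `M` and `M'`; an isomorphism `M₀ ≃ M₀'` by induction; `gen1_lift`
(`κ = i' ∘ ε₀`; `x'_last` is transcendental over `M₀'`: `Gen1.tr`) gives `M → M'`, surjective because of
`Gen.gen` for `M'`.
-/

open scoped Classical
open Polynomial

namespace Pool.Agent.LibHD77

open Pool.Agent.LibBH2
open Pool.Agent.LibCHd (VR RF Red FunF IsCps)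
open Pool.Agent.LibHyp34 (Hyp Pt Pic jP Sp KC DCf)

variable {k : Type} [Field k]

private theorem u4c_surj {M : Type} [Field M] [Algebra k M] {x y : Fin 0 → M}
    (h : IntermediateField.adjoin k (Set.range x ∪ Set.range y) = ⊤) :
    Function.Bijective (Algebra.ofId k M) := by
  have h0 : (Set.range x ∪ Set.range y) = ∅ := by
    rw [Set.range_eq_empty, Set.range_eq_empty, Set.union_empty]
  rw [h0, IntermediateField.adjoin_empty] at h
  refine ⟨(Algebra.ofId k M).toRingHom.injective, fun m => ?_⟩
  have hm : m ∈ (⊥ : IntermediateField k M) := by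
    rw [h]
    exact IntermediateField.mem_top
  rw [IntermediateField.mem_bot] at hm
  exact hm

private theorem u4c_aux : ∀ (D : ℕ) {V : Fin D → k[X]} (_hV : ∀ e, Hyp (V e)) {M M' : Type}
    [Field M] [Algebra k M] [Field M'] [Algebra k M'] {x y : Fin D → M} {x' y' : Fin D → M'}
    (_h : Gen V x y) (_h' : Gen V x' y'),
    ∃ ε : M ≃ₐ[k] M', (∀ e, ε (x e) = x' e) ∧ ∀ e, ε (y e) = y' e := by
  intro D
  induction D with
  | zero =>
    intro V hV M M' _ _ _ _ x y x' y' h h'
    refine ⟨(AlgEquiv.ofBijective _ (u4c_surj h.gen)).symm.trans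
      (AlgEquiv.ofBijective _ (u4c_surj h'.gen)), fun e => e.elim0, fun e => e.elim0⟩
  | succ D ih =>
    intro V hV M M' _ _ _ _ x y x' y' h h'
    obtain ⟨M₀, _, _, i, x₀, y₀, hg, hix, hiy, h1⟩ := gen_base hV h (Fin.last D)
    obtain ⟨M₀', _, _, i', x₀', y₀', hg', hix', hiy', h1'⟩ := gen_base hV h' (Fin.last D)
    obtain ⟨ε₀, hεx, hεy⟩ := ih (fun b => hV _) hg hg'
    haveI := hV (Fin.last D)
    obtain ⟨j, hj, hjx, hjy⟩ := gen1_lift (V (Fin.last D)) i (x (Fin.last D)) (y (Fin.last D)) h1
      (i'.comp (ε₀ : M₀ →ₐ[k] M₀')) (x' (Fin.last D)) (y' (Fin.last D)) h1'.eq (by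
        intro G hG
        have hG' : G.map (ε₀ : M₀ →+* M₀') ≠ 0 := by
          rw [Ne, Polynomial.map_eq_zero_iff (RingHom.injective _)]
          exact hG
        have h2 := h1'.tr _ hG'
        rw [Polynomial.eval₂_map] at h2
        exact h2)
    have hx : ∀ e, j (x e) = x' e := by
      intro e
      induction e using Fin.lastCases with
      | last => exact hjx
      | cast b =>
        have e1 : (Fin.last D).succAbove b = Fin.castSucc b := Fin.succAbove_last_apply b
        rw [← e1, ← hix, ← hix', hj, ← hεx]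
        rfl
    have hy : ∀ e, j (y e) = y' e := by
      intro e
      induction e using Fin.lastCases with
      | last => exact hjy
      | cast b =>
        have e1 : (Fin.last D).succAbove b = Fin.castSucc b := Fin.succAbove_last_apply b
        rw [← e1, ← hiy, ← hiy', hj, ← hεy]
        rfl
    have hsurj : Function.Surjective j := by
      have h2 : IntermediateField.adjoin k (Set.range x' ∪ Set.range y') ≤ j.fieldRange := by
        rw [IntermediateField.adjoin_le_iff]
        rintro z (⟨e, rfl⟩ | ⟨e, rfl⟩)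
        · exact ⟨x e, hx e⟩
        · exact ⟨y e, hy e⟩
      rw [h'.gen] at h2
      intro z
      exact h2 (IntermediateField.mem_top (x := z))
    exact ⟨AlgEquiv.ofBijective j ⟨j.toRingHom.injective, hsurj⟩, hx, hy⟩

theorem gen_unique {D : ℕ} {V : Fin D → k[X]} (hV : ∀ e, Hyp (V e)) {M M' : Type} [Field M]
    [Algebra k M] [Field M'] [Algebra k M'] {x y : Fin D → M} {x' y' : Fin D → M'}
    (h : Gen V x y) (h' : Gen V x' y') :
    ∃ ε : M ≃ₐ[k] M', (∀ e, ε (x e) = x' e) ∧ ∀ e, ε (y e) = y' e :=
  u4c_aux D hV h h'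

end Pool.Agent.LibHD77
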