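import Pool.Agent.LibHD77.L3
import Pool.Agent.LibHD77.U4a
import Pool.Agent.LibHD77.U4c
import Pool.Agent.LibHD77.P3
import Pool.Agent.LibHD77.C0

/-!
The classes of the diagonals: definitions.
-/

open scoped Classical
open Polynomial

namespace Pool.Agent.LibHD77

open Pool.Agent.LibBH2
open Pool.Agent.LibCHd (VR RF Red FunF)
open Pool.Agent.LibHyp34 (Hyp Pt Pic jP Sp KC DCf)
open Pool.Agent.LibHD77.Comb (Pat sub Cmp)

variable {k : Type} [Field k] {n : ℕ} {F : Fin n → k[X]}

/-- the origin -/
def og (F : Fin n → k[X]) (a : Fin n) : Pt (F a) := .inf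

/-- the point of a diagonal with given free points -/
noncomputable def pnt {D : ℕ} {M : Type} [Field M] [Algebra k M] (δ : Dia F D)
    (x y : Fin D → M) : Pnt F M := fun a =>
  match δ a with
  | .inl s => cst M s
  | .inr q => mk' (F a) (x q.1) ((q.2 : ℤ) * y q.1)

/-- the class of a diagonal (`0` if not all free points occur, or if a free point occurs on
different curves) -/
noncomputable def cl {D : ℕ} (δ : Dia F D) : CH F D :=
  if h : ∃ c : CH F D, ∃ (M : Type) (_ : Field M) (_ : Algebra k M) (V : Fin D → k[X])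
    (x y : Fin D → M), Cmp F δ V ∧ Gen V x y ∧ c = cls D (pnt δ x y) then h.choose else 0

end Pool.Agent.LibHD77
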