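import Pool.Agent.LibHD77.P3
import Pool.Agent.LibLP34.Defs
import Pool.Agent.LibHyp34.A9
import Pool.Agent.LibHyp34.FF

/-!
[HD77 T4a] `sq` is bilinear. Proofs. `sq_bilin`: the bilinear map `(∑ m_s s, ∑ n_t t) ↦ ∑ m_s n_t pt2 s t` on the
divisors vanishes if one of the divisors is the divisor of a function: `ext_H` with `d = 0`, `n = 2`,
`F = ![f, g]`, `M = k`, `H = KC f` (or `KC g`), one coordinate `inl (generic point)`, the other `inr (cst k t)`; it
defines a bilinear map on `Pic f`, `Pic g`; evaluate at `jP p`, `jP q`. `sq_weier`: `jP (neg P) = - jP P`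
(`jP_neg`, LibHyp34/A9), so `2 • jP P = 0` if `neg P = P`. `sq_sat`: bilinearity and induction on the closure.
-/

open scoped Classical
open Polynomial

namespace Pool.Agent.LibHD77

open Pool.Agent.LibBH2
open Pool.Agent.LibCHd (VR RF Red FunF)
open Pool.Agent.LibHyp34 (Hyp Pt Pic jP Sp KC DCf neg)
open Pool.Agent.LibLP34 (sat)

variable {k : Type} [Field k] [CharZero k] [IsAlgClosed k] {f g : k[X]} [Hyp f] [Hyp g]

omit [CharZero k] [IsAlgClosed k] in
private theorem T4a_funF0 : FunF k 0 k := by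
  refine ⟨Fin.elim0, ?_, ?_⟩
  · exact algebraicIndependent_empty_type
  · exact Module.Finite.right k _ k

omit [CharZero k] [IsAlgClosed k] in
private theorem T4a_funF1 (f : k[X]) [Hyp f] : FunF k 1 (KC f) := by
  have ht : Transcendental k ((DCf f).ι RatFunc.X) := Pool.Agent.LibHyp34.transcendental_ι _
  refine ⟨fun _ => (DCf f).ι RatFunc.X, ?_, ?_⟩
  · rw [algebraicIndependent_unique_type_iff]
    exact ht
  · have h1 : Set.range (fun _ : Fin 1 => (DCf f).ι RatFunc.X) = {(DCf f).ι RatFunc.X} := by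
      ext x
      simp
    rw [h1]
    exact Pool.Agent.LibHyp34.finite_adjoin _ (DCf f).finite

/-- the point `(s, t)` -/
private noncomputable def T4a_c2 (s : Pt f) (t : Pt g) : Pnt ![f, g] k := fun a => match a with
    | 0 => (cst k s : MPt f k)
    | 1 => (cst k t : MPt g k)

private theorem T4a_van1 (h : KC f) (hh : h ≠ 0) (t : Pt g) :
    ∑ P ∈ (Pool.Agent.LibHyp34.finite_ord h hh).toFinset,
      (Pool.Agent.LibHyp34.vp P).ord h • (pt2 P t : CH ![f, g] 0) = 0 := by
  set ce : Place k (KC f) → Pt f := fun v =>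
    Classical.choose (Pool.Agent.LibHyp34.place_surj v) with hce
  have hces : ∀ v, Sp v (Pool.Agent.LibHyp34.gen f) (ce v) := fun v =>
    Classical.choose_spec (Pool.Agent.LibHyp34.place_surj v)
  have hcev : ∀ P : Pt f, ce (Pool.Agent.LibHyp34.vp P) = P := fun P =>
    Pool.Agent.LibHyp34.sp_injective (hces _) (Pool.Agent.LibHyp34.sp_vp P)
  have key := ext_H (k := k) (n := 2) (d := 0) (F := ![f, g]) (H := KC f) (M := k)
    (T4a_funF1 f) T4a_funF0
    (fun a => match a with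
      | 0 => (Sum.inl (Pool.Agent.LibHyp34.gen f) : MPt f (KC f) ⊕ MPt f k)
      | 1 => (Sum.inr (cst k t) : MPt g (KC f) ⊕ MPt g k)) h hh
    ((Pool.Agent.LibHyp34.finite_ord h hh).toFinset.image Pool.Agent.LibHyp34.vp)
    (by
      intro v hv
      obtain ⟨P, rfl⟩ := Pool.Agent.LibHyp34.exists_eq_vp v
      rw [Finset.mem_image]
      exact ⟨P, by simpa using hv, rfl⟩)
    (fun v a => match a with
      | 0 => (ce v : Pt f)
      | 1 => (.inf : Pt g))
    (by
      intro v _ a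
      fin_cases a
      · intro t' ht'
        have : Pool.Agent.LibHyp34.gen f = t' := Sum.inl.inj ht'
        rw [← this]
        exact hces v
      · intro t' ht'
        exact absurd ht' (by simp))
  rw [Finset.sum_image (fun a _ b _ hab => Pool.Agent.LibHyp34.vp_injective hab)] at key
  have h2 : ∀ P : Pt f, (pt2 P t : CH ![f, g] 0) = QuotientAddGroup.mk (cyc (T4a_c2 P t)) :=
    fun _ => rfl
  have h3 : ∀ P : Pt f, (Pool.Agent.LibHyp34.vp P).ord h • (pt2 P t : CH ![f, g] 0) =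
      QuotientAddGroup.mk' (RatEq ![f, g] 0)
        ((Pool.Agent.LibHyp34.vp P).ord h • cyc (T4a_c2 P t)) := by
    intro P
    rw [map_zsmul]
    rfl
  rw [Finset.sum_congr rfl (fun P _ => h3 P), ← map_sum]
  refine (QuotientAddGroup.eq_zero_iff _).2 ?_
  convert key using 3 with P hP
  rename_i P'
  congr 1
  funext a
  fin_cases a
  · show (cst k P : MPt f k) = cst k (ce (Pool.Agent.LibHyp34.vp P))
    rw [hcev]
  · rfl

private theorem T4a_van2 (h : KC g) (hh : h ≠ 0) (s : Pt f) :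
    ∑ Q ∈ (Pool.Agent.LibHyp34.finite_ord h hh).toFinset,
      (Pool.Agent.LibHyp34.vp Q).ord h • (pt2 s Q : CH ![f, g] 0) = 0 := by
  set ce : Place k (KC g) → Pt g := fun v =>
    Classical.choose (Pool.Agent.LibHyp34.place_surj v) with hce
  have hces : ∀ v, Sp v (Pool.Agent.LibHyp34.gen g) (ce v) := fun v =>
    Classical.choose_spec (Pool.Agent.LibHyp34.place_surj v)
  have hcev : ∀ P : Pt g, ce (Pool.Agent.LibHyp34.vp P) = P := fun P =>
    Pool.Agent.LibHyp34.sp_injective (hces _) (Pool.Agent.LibHyp34.sp_vp P)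
  have key := ext_H (k := k) (n := 2) (d := 0) (F := ![f, g]) (H := KC g) (M := k)
    (T4a_funF1 g) T4a_funF0
    (fun a => match a with
      | 0 => (Sum.inr (cst k s) : MPt f (KC g) ⊕ MPt f k)
      | 1 => (Sum.inl (Pool.Agent.LibHyp34.gen g) : MPt g (KC g) ⊕ MPt g k)) h hh
    ((Pool.Agent.LibHyp34.finite_ord h hh).toFinset.image Pool.Agent.LibHyp34.vp)
    (by
      intro v hv
      obtain ⟨P, rfl⟩ := Pool.Agent.LibHyp34.exists_eq_vp v
      rw [Finset.mem_image]
      exact ⟨P, by simpa using hv, rfl⟩)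
    (fun v a => match a with
      | 0 => (.inf : Pt f)
      | 1 => (ce v : Pt g))
    (by
      intro v _ a
      fin_cases a
      · intro t' ht'
        exact absurd ht' (by simp)
      · intro t' ht'
        have : Pool.Agent.LibHyp34.gen g = t' := Sum.inl.inj ht'
        rw [← this]
        exact hces v)
  rw [Finset.sum_image (fun a _ b _ hab => Pool.Agent.LibHyp34.vp_injective hab)] at key
  have h3 : ∀ P : Pt g, (Pool.Agent.LibHyp34.vp P).ord h • (pt2 s P : CH ![f, g] 0) =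
      QuotientAddGroup.mk' (RatEq ![f, g] 0)
        ((Pool.Agent.LibHyp34.vp P).ord h • cyc (T4a_c2 s P)) := by
    intro P
    rw [map_zsmul]
    rfl
  rw [Finset.sum_congr rfl (fun P _ => h3 P), ← map_sum]
  refine (QuotientAddGroup.eq_zero_iff _).2 ?_
  convert key using 3 with P hP
  rename_i P'
  congr 1
  funext a
  fin_cases a
  · rfl
  · show (cst k P : MPt g k) = cst k (ce (Pool.Agent.LibHyp34.vp P))
    rw [hcev]

private theorem T4a_lift {f : k[X]} [Hyp f] {A : Type} [AddCommGroup A]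
    (φ : (Pt f →₀ ℤ) →+ A)
    (h : ∀ h : KC f, h ≠ 0 → φ (Pool.Agent.LibHyp34.dv h) = 0) :
    ∃ ψ : Pic f →+ A, ∀ D, ψ (Pool.Agent.LibHyp34.mk f D) = φ D := by
  have h1 : ∀ D ∈ AddSubgroup.closure {D | Pool.Agent.LibHyp34.IsDiv f D}, φ D = 0 := by
    intro D hD
    have h2 : Pool.Agent.LibHyp34.mk f D = 0 := (QuotientAddGroup.eq_zero_iff D).2 hD
    obtain ⟨h', hh', rfl⟩ := (Pool.Agent.LibHyp34.mk_eq_zero_iff D).1 h2
    exact h h' hh'
  exact ⟨QuotientAddGroup.lift _ φ h1, fun D => rfl⟩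

private theorem T4a_dv_sum {f : k[X]} [Hyp f] {A : Type} [AddCommGroup A] (F : Pt f → A)
    (h : KC f) (hh : h ≠ 0) :
    Finsupp.liftAddHom (fun s => (zmultiplesHom A (F s))) (Pool.Agent.LibHyp34.dv h) =
      ∑ P ∈ (Pool.Agent.LibHyp34.finite_ord h hh).toFinset,
        (Pool.Agent.LibHyp34.vp P).ord h • F P := by
  rw [Finsupp.liftAddHom_apply, Finsupp.sum]
  have h2 : (Pool.Agent.LibHyp34.dv h).support =
      (Pool.Agent.LibHyp34.finite_ord h hh).toFinset := by
    ext P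
    rw [Finsupp.mem_support_iff, Pool.Agent.LibHyp34.dv_apply]
    simp
  rw [h2]
  refine Finset.sum_congr rfl fun P _ => ?_
  rw [Pool.Agent.LibHyp34.dv_apply]
  rfl

private theorem T4a_lift2 {f : k[X]} [Hyp f] {A : Type} [AddCommGroup A] (F : Pt f → A)
    (h : ∀ (h : KC f) (hh : h ≠ 0), ∑ P ∈ (Pool.Agent.LibHyp34.finite_ord h hh).toFinset,
        (Pool.Agent.LibHyp34.vp P).ord h • F P = 0) :
    ∃ ψ : Pic f →+ A, ∀ s (n : ℤ), ψ (Pool.Agent.LibHyp34.mk f (Finsupp.single s n)) = n • F s := by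
  obtain ⟨ψ, hψ⟩ := T4a_lift (Finsupp.liftAddHom (fun s => (zmultiplesHom A (F s)))) (by
    intro h' hh'
    rw [T4a_dv_sum _ h' hh']
    exact h h' hh')
  refine ⟨ψ, fun s n => ?_⟩
  rw [hψ, Finsupp.liftAddHom_apply_single, zmultiplesHom_apply]

/-- `sq` is bilinear in the classes of the points -/
theorem sq_bilin : ∃ β : Pic f →+ Pic g →+ CH ![f, g] 0, ∀ (p : Pt f) (q : Pt g),
    β (jP p) (jP q) = sq p q := by
  have h1 : ∀ t : Pt g, ∃ ψ : Pic f →+ CH ![f, g] 0, ∀ s (n : ℤ),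
      ψ (Pool.Agent.LibHyp34.mk f (Finsupp.single s n)) = n • pt2 s t := fun t =>
    T4a_lift2 _ fun h hh => T4a_van1 h hh t
  choose ψ hψ using h1
  obtain ⟨χ, hχ⟩ := T4a_lift2 (f := g) (A := Pic f →+ CH ![f, g] 0) ψ (by
    intro h hh
    have hsurj : ∀ x : Pic f, ∃ D, Pool.Agent.LibHyp34.mk f D = x := fun x =>
      QuotientAddGroup.mk'_surjective _ x
    have h2 : (∑ P ∈ (Pool.Agent.LibHyp34.finite_ord h hh).toFinset,
        (Pool.Agent.LibHyp34.vp P).ord h • ψ P).comp (Pool.Agent.LibHyp34.mk f) = 0 := by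
      apply Finsupp.addHom_ext
      intro s n
      rw [AddMonoidHom.comp_apply, AddMonoidHom.finsetSum_apply, AddMonoidHom.zero_apply]
      have h3 : ∀ P : Pt g, ((Pool.Agent.LibHyp34.vp P).ord h • ψ P)
          (Pool.Agent.LibHyp34.mk f (Finsupp.single s n)) =
          n • ((Pool.Agent.LibHyp34.vp P).ord h • (pt2 s P : CH ![f, g] 0)) := by
        intro P
        rw [AddMonoidHom.zsmul_apply, hψ, smul_comm]
      rw [Finset.sum_congr rfl (fun P _ => h3 P), ← Finset.smul_sum, T4a_van2 h hh s, smul_zero]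
    ext x
    obtain ⟨D, rfl⟩ := hsurj x
    exact DFunLike.congr_fun h2 D)
  have hχ1 : ∀ s : Pt g, χ (Pool.Agent.LibHyp34.mk g (Finsupp.single s 1)) = ψ s := fun s =>
    (hχ s 1).trans (one_zsmul (ψ s))
  refine ⟨χ.flip, fun p q => ?_⟩
  rw [AddMonoidHom.flip_apply]
  unfold jP sq
  rw [map_sub (Pool.Agent.LibHyp34.mk g), map_sub χ, hχ1, hχ1,
    AddMonoidHom.sub_apply, map_sub (Pool.Agent.LibHyp34.mk f), map_sub (ψ q),
    map_sub (ψ .inf), hψ, hψ, hψ, hψ, one_smul, one_smul, one_smul, one_smul]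
  abel

theorem sq_weier {P : Pt f} {Q : Pt g} (h : neg P = P ∨ neg Q = Q) :
    IsOfFinAddOrder (sq P Q) := by
  obtain ⟨β, hβ⟩ := sq_bilin (f := f) (g := g)
  rw [isOfFinAddOrder_iff_nsmul_eq_zero]
  refine ⟨2, two_pos, ?_⟩
  rw [← hβ]
  rcases h with h | h
  · have h1 := Pool.Agent.LibHyp34.jP_neg P
    rw [h] at h1
    have h2 : (2 : ℕ) • jP P = 0 := by
      rw [two_nsmul]
      nth_rw 1 [h1]
      exact neg_add_cancel _
    rw [← AddMonoidHom.nsmul_apply, ← map_nsmul, h2, map_zero, AddMonoidHom.zero_apply]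
  · have h1 := Pool.Agent.LibHyp34.jP_neg Q
    rw [h] at h1
    have h2 : (2 : ℕ) • jP Q = 0 := by
      rw [two_nsmul]
      nth_rw 1 [h1]
      exact neg_add_cancel _
    rw [← map_nsmul, h2, map_zero]

private theorem T4a_tor {A : Type} [AddCommGroup A] {x : A} {m : ℤ} (hm : m ≠ 0)
    (h : IsOfFinAddOrder (m • x)) : IsOfFinAddOrder x := by
  rw [isOfFinAddOrder_iff_nsmul_eq_zero] at h ⊢
  obtain ⟨n, hn, h⟩ := h
  refine ⟨n * m.natAbs, Nat.mul_pos hn (Int.natAbs_pos.2 hm), ?_⟩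
  have h1 : (n : ℤ) • m • x = 0 := by
    rw [natCast_zsmul]
    exact h
  rw [smul_smul] at h1
  rcases Int.natAbs_eq m with h2 | h2
  · rw [← natCast_zsmul, Nat.cast_mul, ← h2]
    exact h1
  · have h3 : ((n * m.natAbs : ℕ) : ℤ) = - ((n : ℤ) * m) := by
      rw [Nat.cast_mul]
      conv_rhs => rw [h2]
      ring
    rw [← natCast_zsmul, h3, neg_smul, h1, neg_zero]

theorem sq_sat {S : Set (Pt f)} {T : Set (Pt g)}
    (h : ∀ p ∈ S, ∀ q ∈ T, IsOfFinAddOrder (sq p q)) (p : Pt f) (q : Pt g)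
    (hp : jP p ∈ sat (jP '' S)) (hq : jP q ∈ sat (jP '' T)) : IsOfFinAddOrder (sq p q) := by
  obtain ⟨β, hβ⟩ := sq_bilin (f := f) (g := g)
  have hadd : ∀ x y : CH ![f, g] 0, IsOfFinAddOrder x → IsOfFinAddOrder y →
      IsOfFinAddOrder (x + y) := fun x y hx hy => hx.add hy
  have h1 : ∀ u ∈ AddSubgroup.closure (jP '' S), ∀ v ∈ AddSubgroup.closure (jP '' T),
      IsOfFinAddOrder (β u v) := by
    intro u hu
    induction hu using AddSubgroup.closure_induction with
    | mem x hx =>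
      obtain ⟨p', hp', rfl⟩ := hx
      intro v hv
      induction hv using AddSubgroup.closure_induction with
      | mem y hy =>
        obtain ⟨q', hq', rfl⟩ := hy
        rw [hβ]
        exact h p' hp' q' hq'
      | zero =>
        rw [map_zero]
        exact IsOfFinAddOrder.zero
      | add y z _ _ hy hz =>
        rw [map_add]
        exact hadd _ _ hy hz
      | neg y _ hy =>
        rw [map_neg]
        exact hy.neg
    | zero =>
      intro v _
      rw [map_zero, AddMonoidHom.zero_apply]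
      exact IsOfFinAddOrder.zero
    | add y z _ _ hy hz =>
      intro v hv
      rw [map_add, AddMonoidHom.add_apply]
      exact hadd _ _ (hy v hv) (hz v hv)
    | neg y _ hy =>
      intro v hv
      rw [map_neg, AddMonoidHom.neg_apply]
      exact (hy v hv).neg
  obtain ⟨m, hm, hu⟩ := hp
  obtain ⟨m', hm', hv⟩ := hq
  have h2 := h1 _ hu _ hv
  rw [map_zsmul, map_zsmul, AddMonoidHom.zsmul_apply, hβ] at h2
  exact T4a_tor hm (T4a_tor hm' h2)

end Pool.Agent.LibHD77
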