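import Pool.Agent.LibHD77.P1
import Pool.Agent.LibCHd.B5d
import Pool.Agent.LibHyp34.FF

/-!
Generic points of a hyperelliptic curve over a field `M₀` which contains `k`: definitions.
-/

open scoped Classical
open Polynomial

namespace Pool.Agent.LibHD77

open Pool.Agent.LibBH2
open Pool.Agent.LibCHd (VR RF Red FunF)
open Pool.Agent.LibHyp34 (Hyp Pt Pic jP Sp KC DCf)

variable {k : Type} [Field k]

/-- `M` is the function field of the curve `y ^ 2 = f(x)` over the field `M₀` and `(x, y)` is its
generic point. -/
structure Gen1 {M₀ M : Type} [Field M₀] [Algebra k M₀] [Field M] [Algebra k M] (i : M₀ →ₐ[k] M)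
    (f : k[X]) (x y : M) : Prop where
  eq : y ^ 2 = aeval x f
  tr : ∀ G : M₀[X], G ≠ 0 → G.eval₂ (i : M₀ →+* M) x ≠ 0
  gen : IntermediateField.adjoin k (Set.range i ∪ {x, y}) = ⊤

/-- `M` is the function field of the product of the curves `y ^ 2 = V_e(x)` and the `(x_e, y_e)` are
the components of its generic point. -/
structure Gen {D : ℕ} (V : Fin D → k[X]) {M : Type} [Field M] [Algebra k M] (x y : Fin D → M) :
    Prop where
  dim : FunF k D M
  eq : ∀ e, y e ^ 2 = aeval (x e) (V e)
  gen : IntermediateField.adjoin k (Set.range x ∪ Set.range y) = ⊤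

/-- the generic point of the curve `f` in its function field -/
noncomputable def xs (f : k[X]) [Hyp f] : KC f := (DCf f).s

noncomputable def ys (f : k[X]) [Hyp f] : KC f := (DCf f).w

theorem ys_sq (f : k[X]) [Hyp f] : ys f ^ 2 = aeval (xs f) f := by
  rw [ys, xs, Pool.Agent.LibHyp34.gen_eq, eval_map_algebraMap]

end Pool.Agent.LibHD77
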