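import Pool.Agent.LibHD77.U0

/-!
[HD77 U1] the universal property of the generic point. Adapt LibAC34/A3.lean (`gen1_lift`) with the ring
`R = AdjoinRoot (X ^ 2 - C (f.map (algebraMap k M₀)) : M₀[X][X])` in place of the coordinate ring: for
`κ : M₀ →ₐ[k] N` and `(x', y')` with `y' ^ 2 = f(x')`, `x'` transcendental over `κ`, the map `R → N` is
injective: an element of `R` is `A + B Y` (`A, B ∈ M₀[X]`), and if `A(x') + B(x') y' = 0` then
`A(x')^2 = B(x')^2 f(x')`, so `A ^ 2 = B ^ 2 f` in `M₀[X]` (`f` over `M₀`), so `A = B = 0` because `f` has odd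
degree (compare degrees). Alternatively use `KC (f.map (algebraMap k M₀))` (it is the fraction field of `R`;
`[Hyp (f.map _)]` has to be shown, squarefree: separable in characteristic zero).
-/

open scoped Classical
open Polynomial

namespace Pool.Agent.LibHD77

open Pool.Agent.LibBH2
open Pool.Agent.LibCHd (VR RF Red FunF)
open Pool.Agent.LibHyp34 (Hyp Pt Pic jP Sp KC DCf)

variable {k : Type} [Field k]

/-- `A ^ 2 = B ^ 2 f` only for `A = B = 0`, `f` of odd degree -/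
private theorem u1_deg {F : Type} [Field F] {f A B : F[X]} (hf : Odd f.natDegree)
    (h : A ^ 2 = B ^ 2 * f) : A = 0 ∧ B = 0 := by
  have hf0 : f ≠ 0 := by
    rintro rfl
    simp at hf
  by_cases hB : B = 0
  · subst hB
    refine ⟨?_, rfl⟩
    rw [zero_pow two_ne_zero, zero_mul] at h
    exact pow_eq_zero_iff two_ne_zero |>.1 h
  · exfalso
    have h1 := congrArg natDegree h
    rw [natDegree_mul (pow_ne_zero 2 hB) hf0, natDegree_pow, natDegree_pow] at h1
    obtain ⟨m, hm⟩ := hf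
    omega

private theorem u1_hom {M₀ G : Type} [Field M₀] [Algebra k M₀] [Field G] [Algebra k G]
    (f : k[X]) [Hyp f] (φ : M₀ →ₐ[k] G) (a b : G) (h : b ^ 2 = aeval a f)
    (ht : ∀ P : M₀[X], P ≠ 0 → P.eval₂ (φ : M₀ →+* G) a ≠ 0) :
    ∃ c : AdjoinRoot (X ^ 2 - C (f.map (algebraMap k M₀)) : M₀[X][X]) →+* G,
      Function.Injective c ∧
      (∀ m : M₀, c (AdjoinRoot.of _ (C m)) = φ m) ∧
      c (AdjoinRoot.of _ X) = a ∧ c (AdjoinRoot.root _) = b := by
  have hcomp : (φ : M₀ →+* G).comp (algebraMap k M₀) = algebraMap k G := by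
    ext x
    exact φ.commutes x
  have hf : (f.map (algebraMap k M₀)).eval₂ (φ : M₀ →+* G) a = b ^ 2 := by
    rw [eval₂_map, hcomp, h]
    rfl
  have hev : (X ^ 2 - C (f.map (algebraMap k M₀)) : M₀[X][X]).eval₂
      (eval₂RingHom (φ : M₀ →+* G) a) b = 0 := by
    rw [eval₂_sub, eval₂_pow, eval₂_X, eval₂_C, coe_eval₂RingHom, hf, sub_self]
  refine ⟨AdjoinRoot.lift (eval₂RingHom (φ : M₀ →+* G) a) b hev, ?_, ?_, ?_, ?_⟩
  · rw [injective_iff_map_eq_zero]
    intro z hz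
    obtain ⟨g, rfl⟩ := AdjoinRoot.mk_surjective z
    have hmon : (X ^ 2 - C (f.map (algebraMap k M₀)) : M₀[X][X]).Monic :=
      monic_X_pow_sub_C _ two_ne_zero
    have hg : AdjoinRoot.mk (X ^ 2 - C (f.map (algebraMap k M₀)) : M₀[X][X]) g =
        AdjoinRoot.mk (X ^ 2 - C (f.map (algebraMap k M₀)) : M₀[X][X])
          (g %ₘ (X ^ 2 - C (f.map (algebraMap k M₀)))) := by
      rw [AdjoinRoot.mk_eq_mk]
      refine ⟨g /ₘ (X ^ 2 - C (f.map (algebraMap k M₀))), ?_⟩
      have := modByMonic_add_div g (X ^ 2 - C (f.map (algebraMap k M₀)) : M₀[X][X])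
      linear_combination -this
    have hdeg : (g %ₘ (X ^ 2 - C (f.map (algebraMap k M₀)))).natDegree ≤ 1 := by
      have h1 := natDegree_modByMonic_lt g hmon (by
        intro h1
        have h2 := congrArg natDegree h1
        rw [natDegree_X_pow_sub_C, natDegree_one] at h2
        omega)
      rw [natDegree_X_pow_sub_C] at h1
      omega
    obtain ⟨B, A, hAB⟩ := exists_eq_X_add_C_of_natDegree_le_one hdeg
    rw [hg, hAB] at hz ⊢
    rw [AdjoinRoot.lift_mk, eval₂_add, eval₂_mul, eval₂_X, eval₂_C, eval₂_C,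
      coe_eval₂RingHom] at hz
    have h2 : (A ^ 2 - B ^ 2 * f.map (algebraMap k M₀)).eval₂ (φ : M₀ →+* G) a = 0 := by
      rw [eval₂_sub, eval₂_mul, eval₂_pow, eval₂_pow, hf]
      linear_combination (A.eval₂ (φ : M₀ →+* G) a - B.eval₂ (φ : M₀ →+* G) a * b) * hz
    have h3 : A ^ 2 - B ^ 2 * f.map (algebraMap k M₀) = 0 := by
      by_contra hne
      exact ht _ hne h2
    obtain ⟨rfl, rfl⟩ := u1_deg (by
      rw [natDegree_map]
      exact Hyp.odd) (sub_eq_zero.1 h3)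
    simp
  · intro m
    rw [AdjoinRoot.lift_of, coe_eval₂RingHom, eval₂_C]
    rfl
  · rw [AdjoinRoot.lift_of, coe_eval₂RingHom, eval₂_X]
  · rw [AdjoinRoot.lift_root]

theorem gen1_lift {M₀ M N : Type} [Field M₀] [Algebra k M₀] [Field M] [Algebra k M] [Field N]
    [Algebra k N] (f : k[X]) [Hyp f] (i : M₀ →ₐ[k] M) (x y : M) (h : Gen1 i f x y)
    (κ : M₀ →ₐ[k] N) (x' y' : N) (hy : y' ^ 2 = aeval x' f)
    (hx : ∀ G : M₀[X], G ≠ 0 → G.eval₂ (κ : M₀ →+* N) x' ≠ 0) :
    ∃ j : M →ₐ[k] N, (∀ m, j (i m) = κ m) ∧ j x = x' ∧ j y = y' := by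
  obtain ⟨c₁, hc₁, hm₁, hx₁, hy₁⟩ := u1_hom f i x y h.eq h.tr
  obtain ⟨c₂, hc₂, hm₂, hx₂, hy₂⟩ := u1_hom f κ x' y' hy hx
  have hgen := h.gen
  set R := AdjoinRoot (X ^ 2 - C (f.map (algebraMap k M₀)) : M₀[X][X]) with hR
  haveI hdom : IsDomain R := hc₁.isDomain c₁
  set e₁ : FractionRing R →+* M := IsFractionRing.lift hc₁ with he₁
  set e₂ : FractionRing R →+* N := IsFractionRing.lift hc₂ with he₂
  have a₁ : ∀ z : R, e₁ (algebraMap R (FractionRing R) z) = c₁ z := fun z =>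
    IsFractionRing.lift_algebraMap hc₁ z
  have a₂ : ∀ z : R, e₂ (algebraMap R (FractionRing R) z) = c₂ z := fun z =>
    IsFractionRing.lift_algebraMap hc₂ z
  let L : IntermediateField k M :=
    { e₁.fieldRange with
      algebraMap_mem' := fun c => by
        refine ⟨algebraMap R (FractionRing R) (AdjoinRoot.of _ (C (algebraMap k M₀ c))), ?_⟩
        rw [a₁, hm₁, AlgHom.commutes] }
  have hL : ∀ z : M, z ∈ L ↔ ∃ q, e₁ q = z := fun z => Iff.rfl
  have htop : (⊤ : IntermediateField k M) ≤ L := by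
    rw [← hgen, IntermediateField.adjoin_le_iff]
    rintro z (⟨m, rfl⟩ | hz)
    · exact ⟨algebraMap R (FractionRing R) (AdjoinRoot.of _ (C m)), by rw [a₁, hm₁]⟩
    · rcases hz with rfl | hz
      · exact ⟨algebraMap R (FractionRing R) (AdjoinRoot.of _ X), by rw [a₁, hx₁]⟩
      · rw [Set.mem_singleton_iff] at hz
        subst hz
        exact ⟨algebraMap R (FractionRing R) (AdjoinRoot.root _), by rw [a₁, hy₁]⟩
  have hsurj : Function.Surjective e₁ := fun z => (hL z).1 (htop IntermediateField.mem_top)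
  set ε : FractionRing R ≃+* M := RingEquiv.ofBijective e₁ ⟨e₁.injective, hsurj⟩ with hε
  have b₁ : ∀ q, ε.symm (e₁ q) = q := fun q => ε.symm_apply_apply q
  have hji : ∀ m, e₂ (ε.symm (i m)) = κ m := by
    intro m
    rw [← hm₁ m, ← a₁, b₁, a₂, hm₂]
  let j : M →ₐ[k] N :=
    { e₂.comp ε.symm.toRingHom with
      commutes' := fun c => by
        show e₂ (ε.symm (algebraMap k M c)) = algebraMap k N c
        rw [← i.commutes c, hji, AlgHom.commutes] }
  have hj : ∀ z, j z = e₂ (ε.symm z) := fun z => rfl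
  refine ⟨j, hji, ?_, ?_⟩
  · rw [hj, ← hx₁, ← a₁, b₁, a₂, hx₂]
  · rw [hj, ← hy₁, ← a₁, b₁, a₂, hy₂]

end Pool.Agent.LibHD77
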