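import Pool.Agent.LibHD77.U3

/-!
[HD77 U4b] the field generated by all but one of the generic points. Proof. `M₀` is the intermediate field
generated by the `x_b, y_b`, `b ≠ e` (compare LibAC34/A6.lean, `exists_base`): `trdeg k M₀ ≤ D` (the `y_b` are
algebraic over the `x_b`), `trdeg k M = D + 1`, so `gen1_of_dim` and `trdeg k M₀ = D` (`gen1_trdeg`); `FunF k D M₀`: the
`x_b` are `D` elements over which `M₀` is algebraic, so they are algebraically independent (a subset is a
transcendence basis, of cardinality `D`), and `M₀` is generated over `k(x_b)` by the finitely many algebraic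
elements `y_b`.
-/

open scoped Classical
open Polynomial

namespace Pool.Agent.LibHD77

open Pool.Agent.LibBH2
open Pool.Agent.LibCHd (VR RF Red FunF IsCps)
open Pool.Agent.LibHyp34 (Hyp Pt Pic jP Sp KC DCf)

variable {k : Type} [Field k]

/-- a square root of an element of a subring is integral -/
private theorem U4b_sq {R M : Type} [CommRing R] [Field M] [Algebra R M] {a : R} {y : M}
    (h : y ^ 2 = algebraMap R M a) : IsIntegral R y := by
  refine ⟨X ^ 2 - C a, ?_, ?_⟩
  · exact monic_X_pow_sub_C a two_ne_zero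
  · rw [eval₂_sub, eval₂_pow, eval₂_X, eval₂_C, h, sub_self]

private theorem U4b_alg {D : ℕ} {V : Fin D → k[X]} {M : Type} [Field M] [Algebra k M]
    {x y : Fin D → M} (heq : ∀ e, y e ^ 2 = aeval (x e) (V e))
    (hgen : IntermediateField.adjoin k (Set.range x ∪ Set.range y) = ⊤) :
    Algebra.IsAlgebraic (Algebra.adjoin k (Set.range x)) M := by
  set R := Algebra.adjoin k (Set.range x) with hR
  have hmem : ∀ z : M, z ∈ R → IsAlgebraic R z := fun z hz => isAlgebraic_algebraMap (⟨z, hz⟩ : R)
  have hxR : ∀ e, x e ∈ R := fun e => Algebra.subset_adjoin ⟨e, rfl⟩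
  have hy : ∀ e, IsAlgebraic R (y e) := by
    intro e
    have h1 : aeval (x e) (V e) ∈ R := by
      have h2 : aeval (x e) (V e) = (aeval (⟨x e, hxR e⟩ : R) (V e) : R) := by
        rw [← Subalgebra.coe_val, ← aeval_algHom_apply]
        rfl
      rw [h2]
      exact Subtype.property _
    have h3 : IsIntegral R (y e) :=
      U4b_sq (a := (⟨aeval (x e) (V e), h1⟩ : R)) (heq e)
    exact h3.isAlgebraic
  let L : IntermediateField k M :=
    { carrier := {z | IsAlgebraic R z}
      mul_mem' := fun {a b} ha hb => IsAlgebraic.mul ha hb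
      add_mem' := fun {a b} ha hb => IsAlgebraic.add ha hb
      algebraMap_mem' := fun r => hmem _ (R.algebraMap_mem r)
      inv_mem' := fun a ha => IsAlgebraic.inv ha }
  have hL : L = ⊤ := by
    rw [eq_top_iff, ← hgen, IntermediateField.adjoin_le_iff]
    rintro z (⟨e, rfl⟩ | ⟨e, rfl⟩)
    · exact hmem _ (hxR e)
    · exact hy e
  refine ⟨fun z => ?_⟩
  have : z ∈ L := by rw [hL]; trivial
  exact this

private theorem U4b_fin {D : ℕ} {V : Fin D → k[X]} {M : Type} [Field M] [Algebra k M]
    {x y : Fin D → M} (heq : ∀ e, y e ^ 2 = aeval (x e) (V e))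
    (hgen : IntermediateField.adjoin k (Set.range x ∪ Set.range y) = ⊤) :
    FiniteDimensional (IntermediateField.adjoin k (Set.range x)) M := by
  set B := IntermediateField.adjoin k (Set.range x) with hB
  have hxB : ∀ e, x e ∈ B := fun e => IntermediateField.subset_adjoin _ _ ⟨e, rfl⟩
  have hy : ∀ z ∈ Set.range y, IsIntegral B z := by
    rintro z ⟨e, rfl⟩
    have h1 : aeval (x e) (V e) ∈ B := by
      have h2 : aeval (x e) (V e) = (aeval (⟨x e, hxB e⟩ : B) (V e) : B) := by
        rw [← IntermediateField.coe_val, ← aeval_algHom_apply]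
        rfl
      rw [h2]
      exact Subtype.property _
    exact U4b_sq (a := (⟨aeval (x e) (V e), h1⟩ : B)) (heq e)
  have h1 : FiniteDimensional B (IntermediateField.adjoin B (Set.range y)) :=
    IntermediateField.finiteDimensional_adjoin hy
  have h2 : IntermediateField.adjoin B (Set.range y) = ⊤ := by
    rw [eq_top_iff]
    intro z _
    have h4 : IntermediateField.adjoin k (Set.range x ∪ Set.range y) ≤
        (IntermediateField.adjoin B (Set.range y)).restrictScalars k := by
      rw [IntermediateField.adjoin_le_iff]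
      rintro w (⟨e, rfl⟩ | hw)
      · exact (IntermediateField.adjoin B (Set.range y)).algebraMap_mem ⟨x e, hxB e⟩
      · exact IntermediateField.subset_adjoin B _ hw
    rw [hgen] at h4
    exact h4 (IntermediateField.mem_top (x := z))
  rw [h2] at h1
  exact LinearEquiv.finiteDimensional
    (IntermediateField.topEquiv (F := B) (E := M)).toLinearEquiv

/-- the field generated by all but one of the generic points -/
theorem gen_base {D : ℕ} {V : Fin (D + 1) → k[X]} (hV : ∀ e, Hyp (V e)) {M : Type} [Field M]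
    [Algebra k M] {x y : Fin (D + 1) → M} (h : Gen V x y) (e : Fin (D + 1)) :
    ∃ (M₀ : Type) (_ : Field M₀) (_ : Algebra k M₀) (i : M₀ →ₐ[k] M) (x₀ y₀ : Fin D → M₀),
      Gen (fun b => V (e.succAbove b)) x₀ y₀ ∧ (∀ b, i (x₀ b) = x (e.succAbove b)) ∧
      (∀ b, i (y₀ b) = y (e.succAbove b)) ∧ Gen1 i (V e) (x e) (y e) := by
  have _hVe := hV e
  set s : Set M := Set.range (fun b => x (e.succAbove b)) ∪ Set.range fun b => y (e.succAbove b)
    with hs
  set M₀ : IntermediateField k M := IntermediateField.adjoin k s with hM₀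
  have hx : ∀ b, x (e.succAbove b) ∈ M₀ := fun b =>
    IntermediateField.subset_adjoin _ _ (Or.inl ⟨b, rfl⟩)
  have hy : ∀ b, y (e.succAbove b) ∈ M₀ := fun b =>
    IntermediateField.subset_adjoin _ _ (Or.inr ⟨b, rfl⟩)
  set x₀ : Fin D → M₀ := fun b => ⟨x (e.succAbove b), hx b⟩ with hx₀
  set y₀ : Fin D → M₀ := fun b => ⟨y (e.succAbove b), hy b⟩ with hy₀
  have heq : ∀ b, y₀ b ^ 2 = aeval (x₀ b) (V (e.succAbove b)) := by
    intro b
    have h1 : M₀.val (y₀ b ^ 2) = M₀.val (aeval (x₀ b) (V (e.succAbove b))) := by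
      rw [map_pow, ← aeval_algHom_apply]
      exact h.eq (e.succAbove b)
    exact Subtype.ext h1
  have hgen : IntermediateField.adjoin k (Set.range x₀ ∪ Set.range y₀) = ⊤ := by
    have h1 : (IntermediateField.adjoin k (Set.range x₀ ∪ Set.range y₀)).map M₀.val =
        (⊤ : IntermediateField k M₀).map M₀.val := by
      rw [IntermediateField.adjoin_map, ← AlgHom.fieldRange_eq_map,
        IntermediateField.fieldRange_val, Set.image_union, ← Set.range_comp, ← Set.range_comp]
      rfl
    exact IntermediateField.map_injective _ h1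
  have halg := U4b_alg heq hgen
  have htr : Algebra.trdeg k M₀ ≤ D := by
    refine (Algebra.IsAlgebraic.trdeg_le_cardinalMk k (Set.range x₀)).trans ?_
    refine Cardinal.mk_range_le.trans ?_
    rw [Cardinal.mk_fin]
  have hG : Gen1 M₀.val (V e) (x e) (y e) := by
    refine gen1_of_dim (V e) M₀.val (x e) (y e) htr h.dim.trdeg (h.eq e) ?_
    rw [eq_top_iff, ← h.gen, IntermediateField.adjoin_le_iff]
    rintro z (⟨b, rfl⟩ | ⟨b, rfl⟩)
    · rcases eq_or_ne b e with rfl | hb
      · exact IntermediateField.subset_adjoin _ _ (Or.inr (Or.inl rfl))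
      · obtain ⟨b', rfl⟩ := Fin.exists_succAbove_eq hb
        exact IntermediateField.subset_adjoin _ _ (Or.inl ⟨x₀ b', rfl⟩)
    · rcases eq_or_ne b e with rfl | hb
      · exact IntermediateField.subset_adjoin _ _ (Or.inr (Or.inr rfl))
      · obtain ⟨b', rfl⟩ := Fin.exists_succAbove_eq hb
        exact IntermediateField.subset_adjoin _ _ (Or.inl ⟨y₀ b', rfl⟩)
  have htr2 : Algebra.trdeg k M₀ = D := gen1_trdeg hG h.dim.trdeg
  have hind : AlgebraicIndependent k x₀ := by
    refine (Algebra.IsAlgebraic.isTranscendenceBasis_of_le_trdeg_of_finite k x₀ ?_).1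
    rw [htr2, Cardinal.mk_fin]
  exact ⟨M₀, inferInstance, inferInstance, M₀.val, x₀, y₀,
    ⟨⟨x₀, hind, U4b_fin heq hgen⟩, heq, hgen⟩, fun b => rfl, fun b => rfl, hG⟩

end Pool.Agent.LibHD77
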